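import Mathlib
import Pool.Agent.H932R4.CMO.Stmts

/-!
# A power-saving MO function on the Riemann hypothesis: definitions and statements

Project MO (helper164), problem MP_a187e6_nt.  Blocks of length about `x ^ (1/2 - δ)`; almost all of
them have many primes (RH); in the few bad blocks the numbers `N = n * q` with `q` a prime slightly
above `√N` and `n` without small prime factors are used instead.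
-/

set_option autoImplicit false

open Finset

namespace Pool.Agent.W164.MO

open Pool.Agent.H932R4.CMO (bw Bd)

/-- all prime factors of `n` are at least `z` -/
def Rough (z : ℝ) (n : ℕ) : Prop := ∀ p : ℕ, p.Prime → p ∣ n → z ≤ (p : ℝ)

/-- the `j`-th block of length `2 ^ l` -/
def blk (l j : ℕ) : Finset ℕ := Ico (j * 2 ^ l) ((j + 1) * 2 ^ l)

/-- the indices `j` of the blocks of length `2 ^ l` in `[2 ^ k, 2 ^ (k + 1))` (`l ≤ k`) -/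
def idx (k l : ℕ) : Finset ℕ := Ico (2 ^ (k - l)) (2 ^ (k - l + 1))

/-- a block (at scale `k`) with few primes -/
def Bad (k l j : ℕ) : Prop := 8 * k * ((blk l j).filter Nat.Prime).card < 2 ^ l

instance (k l j : ℕ) : Decidable (Bad k l j) := by unfold Bad; infer_instance

/-- **BB**: on RH there are few bad blocks. -/
def S_BB : Prop := RiemannHypothesis → ∀ δ : ℝ, 0 < δ → ∃ K : ℕ, ∀ k l : ℕ, K ≤ k → l ≤ k →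
  (((idx k l).filter (fun j => Bad k l j)).card : ℝ) ≤ (2 : ℝ) ^ ((1 + δ) * k - 2 * l)

/-- the candidates for special numbers at scale `k` -/
def Cand (c ν : ℝ) (k N : ℕ) : Prop := ∃ q n : ℕ, q.Prime ∧ N = n * q ∧
  (2 : ℝ) ^ ((1 / 2 + c / 2) * (k : ℝ)) < q ∧ (q : ℝ) ≤ (2 : ℝ) ^ ((1 / 2 + c) * (k : ℝ)) ∧
  Rough ((2 : ℝ) ^ (ν * (k : ℝ))) n

open Classical in
/-- **SN**: every interval of length `≥ x ^ (1/2 - c/100)` has a positive proportion (of the number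
of primes expected in it) of candidates. -/
def S_SN : Prop := ∃ c₀ : ℝ, 0 < c₀ ∧ c₀ ≤ 1 / 10 ∧ ∀ c : ℝ, 0 < c → c ≤ c₀ →
  ∃ ν₀ : ℝ, 0 < ν₀ ∧ ∀ ν : ℝ, 0 < ν → ν ≤ ν₀ → ∃ c₁ : ℝ, 0 < c₁ ∧ ∃ K : ℕ, ∀ k x L : ℕ, K ≤ k →
    2 ^ k ≤ x → x + L ≤ 2 ^ (k + 1) → (2 : ℝ) ^ ((1 / 2 - c / 100) * (k : ℝ)) ≤ L →
    (L : ℝ) ≤ (2 : ℝ) ^ ((k : ℝ) / 2) →
    c₁ * L / k ≤ (((Ico x (x + L)).filter (fun N => Cand c ν k N)).card : ℝ)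

open Classical in
/-- **CL**: the counting lemma.  `n` in a short interval at scale `k`, sharing a large divisor with a
number `N` without small prime factors in a short interval at scale `h`. -/
def S_CL : Prop := ∀ δ c ν κ : ℝ, 0 < δ → 0 < c → c ≤ 1 / 2 → 100 * δ ≤ c → 0 < ν → ν ≤ 1 → 0 < κ →
  ∃ K : ℕ, ∀ k x L h y L' : ℕ, K ≤ k → 2 ^ k ≤ x → x + L ≤ 2 ^ (k + 1) → 2 ^ h ≤ y →
    y + L' ≤ 2 ^ (h + 1) → (2 : ℝ) ^ ((1 / 2 - δ) * (k : ℝ) - 1) ≤ L →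
    (L' : ℝ) ≤ (2 : ℝ) ^ ((1 / 2 - δ) * (h : ℝ)) → ∀ Q : ℝ, (L : ℝ) ≤ Q →
    (2 : ℝ) ^ ((1 / 2 + c / 2) * (h : ℝ)) ≤ Q →
    (((Ico x (x + L)).filter (fun n => ∃ N ∈ Ico y (y + L'), Rough ((2 : ℝ) ^ (ν * (h : ℝ))) N ∧
      (∃ g : ℕ, g ∣ n ∧ g ∣ N ∧ Q ≤ (g : ℝ)) ∧
      ¬ (N ∣ n ∧ (n : ℝ) < (2 : ℝ) ^ (κ * (k : ℝ)) * N))).card : ℝ) ≤
      L * (2 : ℝ) ^ (-(min κ (min (ν / 4) (c / 10)) / 2 * (k : ℝ)))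

open Classical in
/-- **ML**: the mass of the composite numbers in short intervals. -/
def S_ML : Prop := ∃ C : ℝ, 0 < C ∧ ∀ κ : ℝ, 0 < κ → ∃ P₁ : ℕ, 3 ≤ P₁ ∧ ∀ P₀ : ℕ, P₁ ≤ P₀ →
  ∀ X Y : ℕ, P₀ ≤ X → (X : ℝ) ^ (1 / 4 : ℝ) ≤ Y → Y ≤ X →
    ∑ n ∈ (Ioc X (X + Y)).filter (fun n : ℕ => ¬ n.Prime), bw P₀ n ≤ κ * Y / (Real.log X) ^ 3 ∧
    ∑ n ∈ Ioc X (X + Y), bw P₀ n ≤ C * Y / (Real.log X) ^ 3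

open Classical in
/-- **RG**: upper bound for the number of rough numbers in an interval. -/
def S_RG : Prop := ∃ (E : ℕ) (C : ℝ), 1 ≤ E ∧ 0 < C ∧ ∀ (z : ℝ) (X Y : ℕ), 2 ≤ z → z ^ E ≤ Y →
  (((Ioc X (X + Y)).filter (fun n => Rough z n)).card : ℝ) ≤ C * Y / Real.log z

/-- length exponent of the blocks at scale `k` -/
noncomputable def ll (ν : ℝ) (k₁ k : ℕ) : ℕ :=
  if k < k₁ then 2 * k / 3 else ⌊(1 / 2 - ν / 1000) * (k : ℝ)⌋₊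

/-- `n` is a small multiple of a special number -/
def Res (ν : ℝ) (Sp : Set ℕ) (k n : ℕ) : Prop :=
  ∃ N ∈ Sp, N ∣ n ∧ (n : ℝ) < (2 : ℝ) ^ (ν / 8 * (k : ℝ)) * N

open Classical in
/-- The system of ordinary primes `Od`, special numbers `Sp` and their large prime factors `q`. -/
structure Sys (c ν c₁ : ℝ) (k₀ k₁ : ℕ) (Od Sp : Set ℕ) (q : ℕ → ℕ) : Prop where
  k01 : (k₀ : ℝ) ≤ ν * k₁
  ord : ∀ p ∈ Od, p.Prime ∧ 2 ^ k₀ ≤ p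
  ord_good : ∀ p ∈ Od, k₀ < Nat.log 2 p →
    ¬ Bad (Nat.log 2 p) (ll ν k₁ (Nat.log 2 p)) (p / 2 ^ ll ν k₁ (Nat.log 2 p))
  sp_prime : ∀ N ∈ Sp, N ≠ 0 ∧ (q N).Prime ∧ q N ∣ N
  sp_scale : ∀ N ∈ Sp, k₁ ≤ Nat.log 2 N
  sp_low : ∀ N ∈ Sp, (2 : ℝ) ^ ((1 / 2 + c / 2) * (Nat.log 2 N : ℝ)) < q N
  sp_up : ∀ N ∈ Sp, (q N : ℝ) ≤ (2 : ℝ) ^ ((1 / 2 + c) * (Nat.log 2 N : ℝ))
  sp_rough : ∀ N ∈ Sp, Rough ((2 : ℝ) ^ (ν * (Nat.log 2 N : ℝ))) (N / q N)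
  sp_ord : ∀ N ∈ Sp, ∀ p : ℕ, p.Prime → p ∣ N / q N → p ∈ Od
  sp_bad : ∀ N ∈ Sp, Bad (Nat.log 2 N) (ll ν k₁ (Nat.log 2 N)) (N / 2 ^ ll ν k₁ (Nat.log 2 N))
  inj : Set.InjOn q Sp
  disj : ∀ N ∈ Sp, q N ∉ Od
  base : 2 ^ k₀ ≤ 16 * k₀ * ((Ico (2 ^ k₀) (2 ^ (k₀ + 1))).filter (fun p => p ∈ Od)).card
  good : ∀ k j : ℕ, k₀ < k → j ∈ idx k (ll ν k₁ k) → ¬ Bad k (ll ν k₁ k) j →
    2 ^ ll ν k₁ k ≤ 16 * k * ((blk (ll ν k₁ k) j).filter (fun p => p ∈ Od)).card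
  bad : ∀ k j : ℕ, k₀ < k → j ∈ idx k (ll ν k₁ k) → Bad k (ll ν k₁ k) j → k₁ ≤ k ∧
    c₁ * 2 ^ ll ν k₁ k / k ≤ (((blk (ll ν k₁ k) j).filter (fun N => N ∈ Sp)).card : ℝ)
  cl : ∀ k j : ℕ, k₀ < k → j ∈ idx k (ll ν k₁ k) →
    (((blk (ll ν k₁ k) j).filter (fun n => (∃ N ∈ Sp, q N ∣ n ∧ 2 ^ ll ν k₁ k ≤ q N) ∧
      ¬ Res ν Sp k n)).card : ℝ) ≤
      2 ^ ll ν k₁ k * (2 : ℝ) ^ (-(ν / 64 * (k : ℝ)))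
  sparse : ∀ i : ℕ, (((Ico (2 ^ i) (2 ^ (i + 1))).filter (fun p => p ∈ q '' Sp)).card : ℝ) ≤
    (2 : ℝ) ^ ((1 - c / 4) * (i : ℝ))

/-- **SYS**: the system exists. -/
def S_SYS : Prop := RiemannHypothesis → ∃ c ν c₁ : ℝ, 0 < c ∧ c ≤ 1 / 10 ∧ 0 < ν ∧ ν ≤ c / 2 ∧
  0 < c₁ ∧ ∀ K : ℕ, ∃ k₀ k₁ : ℕ, K ≤ k₀ ∧ k₀ < k₁ ∧ ∃ (Od Sp : Set ℕ) (q : ℕ → ℕ),
    Sys c ν c₁ k₀ k₁ Od Sp q

open Classical in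
/-- the weight of a prime (`S` is the set of the special primes) -/
noncomputable def wt (P₀ : ℕ) (κ₀ : ℝ) (S : Set ℕ) (p : ℕ) : ℝ :=
  if p ∈ S then (p : ℝ) ^ κ₀ else if P₀ ≤ p then 1 / (Real.log p) ^ 2 else 0

/-- the completely multiplicative function with the values `w p` at the primes `p` (`n ≥ 1`) -/
noncomputable def cm (w : ℕ → ℝ) (n : ℕ) : ℝ := (n.primeFactorsList.map w).prod

/-- the weight of the system -/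
noncomputable def sw (ν : ℝ) (k₀ : ℕ) (Sp : Set ℕ) (q : ℕ → ℕ) (n : ℕ) : ℝ :=
  cm (wt (2 ^ k₀) (ν / 1000) (q '' Sp)) n

open Classical in
/-- **MA**: no special prime factor. -/
def S_MA : Prop := ∀ c ν c₁ κ : ℝ, 0 < c → c ≤ 1 / 10 → 0 < ν → ν ≤ c / 2 → 0 < c₁ → 0 < κ →
  ∃ K : ℕ, ∀ (k₀ k₁ : ℕ) (Od Sp : Set ℕ) (q : ℕ → ℕ), K ≤ k₀ → Sys c ν c₁ k₀ k₁ Od Sp q →
    ∀ k j : ℕ, k₀ < k → j ∈ idx k (ll ν k₁ k) →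
      ∑ n ∈ (blk (ll ν k₁ k) j).filter (fun n => ¬ n.Prime ∧ ∀ N ∈ Sp, ¬ q N ∣ n),
        sw ν k₀ Sp q n ≤ κ * 2 ^ ll ν k₁ k / (k : ℝ) ^ 3

open Classical in
/-- **MB**: a special prime factor, but not a small multiple of a special number. -/
def S_MB : Prop := ∀ c ν c₁ κ : ℝ, 0 < c → c ≤ 1 / 10 → 0 < ν → ν ≤ c / 2 → 0 < c₁ → 0 < κ →
  ∃ K : ℕ, ∀ (k₀ k₁ : ℕ) (Od Sp : Set ℕ) (q : ℕ → ℕ), K ≤ k₀ → Sys c ν c₁ k₀ k₁ Od Sp q →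
    ∀ k j : ℕ, k₀ < k → j ∈ idx k (ll ν k₁ k) →
      ∑ n ∈ (blk (ll ν k₁ k) j).filter (fun n => (∃ N ∈ Sp, q N ∣ n) ∧ ¬ Res ν Sp k n),
        sw ν k₀ Sp q n ≤ κ * 2 ^ ll ν k₁ k / (k : ℝ) ^ 3

open Classical in
/-- **MC**: the small multiples `a * N` (`a ≥ 2`) of special numbers. -/
def S_MC : Prop := ∀ c ν c₁ κ : ℝ, 0 < c → c ≤ 1 / 10 → 0 < ν → ν ≤ c / 2 → 0 < c₁ → 0 < κ →
  ∃ K : ℕ, ∀ (k₀ k₁ : ℕ) (Od Sp : Set ℕ) (q : ℕ → ℕ), K ≤ k₀ → Sys c ν c₁ k₀ k₁ Od Sp q →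
    ∀ k j : ℕ, k₀ < k → j ∈ idx k (ll ν k₁ k) →
      ∑ a ∈ (Icc 2 (2 ^ k)).filter (fun a : ℕ => (a : ℝ) < (2 : ℝ) ^ (ν / 8 * (k : ℝ))),
        ∑ n ∈ (blk (ll ν k₁ k) j).filter (fun n => a ∣ n ∧ n / a ∈ Sp),
          sw ν k₀ Sp q a / (Real.log ((n / a : ℕ) : ℝ)) ^ 2 ≤ κ * 2 ^ ll ν k₁ k / (k : ℝ) ^ 3

/-- **FIN**: the function. -/
def S_FIN : Prop := RiemannHypothesis → ∃ (η : ℝ) (f : ℕ → ℝ), 0 < η ∧ f 0 = 0 ∧ f 1 = 1 ∧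
  (∀ m n : ℕ, f (m * n) = f m * f n) ∧ (∀ p : ℕ, p.Prime → |f p| < 1) ∧
  ∃ C : ℝ, ∀ n : ℕ, 1 ≤ n → |∑ m ∈ Icc 1 n, f m| ≤ C * (n : ℝ) ^ (-(1 / 2) - η)

/-! ### auxiliary statements -/

/-- `N` is a candidate, with large prime `p`, in a bad block at a scale `≥ k₁` -/
def Src (c ν : ℝ) (k₁ N p : ℕ) : Prop := N ≠ 0 ∧ k₁ ≤ Nat.log 2 N ∧
  Bad (Nat.log 2 N) (ll ν k₁ (Nat.log 2 N)) (N / 2 ^ ll ν k₁ (Nat.log 2 N)) ∧ p.Prime ∧ p ∣ N ∧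
  (2 : ℝ) ^ ((1 / 2 + c / 2) * (Nat.log 2 N : ℝ)) < p ∧
  (p : ℝ) ≤ (2 : ℝ) ^ ((1 / 2 + c) * (Nat.log 2 N : ℝ)) ∧
  Rough ((2 : ℝ) ^ (ν * (Nat.log 2 N : ℝ))) (N / p)

open Classical in
/-- **SY1**: the large primes of the candidates, and the primes in bad blocks, are sparse. -/
def S_SY1 : Prop := RiemannHypothesis → S_BB → ∀ c ν : ℝ, 0 < c → c ≤ 1 / 10 → 0 < ν → ν ≤ c / 2 →
  ∃ K : ℕ, ∀ k₁ i : ℕ, K ≤ k₁ →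
    (((Ico (2 ^ i) (2 ^ (i + 1))).filter (fun p => ∃ N, Src c ν k₁ N p)).card : ℝ) ≤
      (2 : ℝ) ^ ((1 - c / 4) * (i : ℝ)) ∧
    (((Ico (2 ^ i) (2 ^ (i + 1))).filter (fun p => k₁ ≤ i ∧
      Bad i (ll ν k₁ i) (p / 2 ^ ll ν k₁ i))).card : ℝ) ≤ (2 : ℝ) ^ ((1 - c / 4) * (i : ℝ))

open Classical in
/-- **SY2**: few `n` in a block are multiples of the large prime of a candidate, apart from small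
multiples of the candidates themselves. -/
def S_SY2 : Prop := RiemannHypothesis → S_BB → S_CL → ∀ c ν : ℝ, 0 < c → c ≤ 1 / 10 → 0 < ν →
  ν ≤ c / 2 → ∃ K : ℕ, ∀ k₁ k j : ℕ, K ≤ k₁ → j ∈ idx k (ll ν k₁ k) →
    (((blk (ll ν k₁ k) j).filter (fun n => ∃ N p : ℕ, Src c ν k₁ N p ∧ p ∣ n ∧
      2 ^ ll ν k₁ k ≤ p ∧ ¬ (N ∣ n ∧ (n : ℝ) < (2 : ℝ) ^ (ν / 8 * (k : ℝ)) * N))).card : ℝ) ≤
      2 ^ ll ν k₁ k * (2 : ℝ) ^ (-(ν / 32 * (k : ℝ)))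

/-- **SY3** -/
def S_SY3 : Prop := S_BB → S_SN → S_CL → S_SY1 → S_SY2 → S_SYS

/-- the periodic Bernoulli function -/
noncomputable def b2 (x : ℝ) : ℝ := Int.fract x ^ 2 - Int.fract x + 1 / 6

/-- **SN1**: exponential sums over primes, in terms of the second Bernoulli function. -/
def S_SN1 : Prop := ∃ η C : ℝ, 0 < η ∧ η < 1 ∧ 0 < C ∧ ∀ D : ℕ, 10 ^ 4 ≤ D → ∀ Y β : ℝ,
  (D : ℝ) ^ (3 / 2 : ℝ) ≤ Y → Y ≤ (D : ℝ) ^ 3 →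
  |∑ q ∈ Ioc D (2 * D), ArithmeticFunction.vonMangoldt q * b2 (Y / q + β)| ≤ C * (D : ℝ) ^ (1 - η)

/-- **SN2**: the triangle function and the Bernoulli function. -/
def S_SN2 : Prop := ∀ Δ x : ℝ, 0 < Δ → Δ ≤ 1 / 2 →
  max 0 (1 - Int.fract x / Δ) + max 0 (1 - (1 - Int.fract x) / Δ) =
    Δ - (b2 (x + Δ) - 2 * b2 x + b2 (x - Δ)) / (2 * Δ)

/-- **SN3** -/
def S_SN3 : Prop := S_SN1 → S_SN2 → S_SN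

/-- **CLa**: counting with reduced fractions. -/
def S_CLa : Prop := ∀ (x L y L' I : ℕ) (Q m : ℝ) (T : Finset ℕ) (N : ℕ → ℕ), 1 ≤ x → 1 ≤ y → 1 ≤ Q →
  0 ≤ m →
  T ⊆ Ico x (x + L) → (∀ n ∈ T, N n ∈ Ico y (y + L')) → (∀ n ∈ T, Q ≤ (Nat.gcd n (N n) : ℝ)) →
  (∀ n ∈ T, min ((L : ℝ) / (n / Nat.gcd n (N n) : ℕ)) ((L' : ℝ) / (N n / Nat.gcd n (N n) : ℕ)) ≤ m) →
  ((y + L' : ℕ) : ℝ) ≤ Q * 2 ^ (I + 1) →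
  (T.card : ℝ) ≤ (I + 1) * (1 + m) + 8 * (((x + L : ℕ) : ℝ) / y - (x : ℝ) / (y + L' : ℕ)) *
    ((4 : ℝ) ^ I + 2 ^ I * min (L' : ℝ) (L * (y + L' : ℕ) / x))

/-- **CLb** -/
def S_CLb : Prop := S_CLa → S_CL

/-- **EU**: the sum of a completely multiplicative function over `m ≥ 2`. -/
def S_EU : Prop := ∀ (w : ℕ → ℝ) (M : ℕ) (τ : ℝ), (∀ p : ℕ, 0 ≤ w p) →
  (∀ p : ℕ, p.Prime → w p ≤ p / 2) → τ ≤ 1 / 4 →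
  ∑ p ∈ (Icc 2 M).filter Nat.Prime, w p / p ≤ τ → ∑ m ∈ Icc 2 M, cm w m / m ≤ 4 * τ

/-- **FP**: the fixed point. -/
def S_FP : Prop := ∀ (ι : Type) (G : (ι → ℝ) → (ι → ℝ)),
  (∀ c : ι → ℝ, (∀ i, |c i| ≤ 1) → ∀ i, |G c i| ≤ 1) →
  (∀ c c' : ι → ℝ, (∀ i, |c i| ≤ 1) → (∀ i, |c' i| ≤ 1) → ∀ D : ℝ, 0 ≤ D → (∀ i, |c i - c' i| ≤ D) →
    ∀ i, |G c i - G c' i| ≤ D / 2) →
  ∃ c : ι → ℝ, (∀ i, |c i| ≤ 1) ∧ ∀ i, G c i = c i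

/-- **LP**: products over lists of prime factors. -/
def S_LP : Prop := ∀ (v v' w : ℕ → ℝ) (D : ℝ) (n : ℕ), 0 ≤ D → (∀ p, |v p| ≤ w p / 2) →
  (∀ p, |v' p| ≤ w p / 2) → (∀ p, |v p - v' p| ≤ w p / 2 * D) →
  |cm v n| ≤ cm w n ∧ |cm v n - cm v' n| ≤ cm w n * D

/-- **EX**: the example when RH fails. -/
def S_EX : Prop := ∀ α : ℂ, riemannZeta α = 0 → 1 / 2 < α.re → α.re < 1 → ∃ f : ℕ → ℂ, f 1 = 1 ∧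
  (∀ m n : ℕ, 1 ≤ m → 1 ≤ n → Nat.Coprime m n → f (m * n) = f m * f n) ∧
  (∀ p : ℕ, p.Prime → ∃ L : ℂ, L ≠ 0 ∧
    Filter.Tendsto (fun K : ℕ => ∑ k ∈ range K, f (p ^ k)) Filter.atTop (nhds L)) ∧
  ∃ C : ℝ, ∀ n : ℕ, 1 ≤ n → ‖∑ m ∈ Icc 1 n, f m‖ ≤ C * (n : ℝ) ^ (-α.re)

end Pool.Agent.W164.MO
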