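import Pool.Agent.W583.MO.MA
import Pool.Agent.W402.MO.SY2
import Pool.Agent.W366.MO.EU
import Pool.Agent.W424.MO.SNLP

/-!
# MO-FIN, part 1: the values at the primes
-/

set_option autoImplicit false

open Finset

namespace Pool.Agent.W164.MO.Fin

open Pool.Agent.W164.MO
open Pool.Agent.H932R4.CMO (bw Bd)
open Pool.Agent.W583.MO (cm_mul cm_one cm_prime cm_eq cm_nonneg cm_mono cm_rpow cm_id)

/-! ### signs -/

theorem signs (s : Finset ℕ) (b : ℕ → ℝ) (M : ℝ) (hM : 0 ≤ M) (hb : ∀ p ∈ s, 0 ≤ b p ∧ b p ≤ M) :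
    ∃ σ : ℕ → ℝ, (∀ p, σ p = 1 ∨ σ p = -1) ∧ |∑ p ∈ s, σ p * b p| ≤ M := by
  classical
  induction s using Finset.induction_on with
  | empty => exact ⟨fun _ => 1, fun _ => Or.inl rfl, by simpa using hM⟩
  | insert a s ha ih =>
    obtain ⟨σ, h1, h2⟩ := ih (fun p hp => hb p (mem_insert_of_mem hp))
    obtain ⟨ha0, haM⟩ := hb a (mem_insert_self _ _)
    obtain ⟨e, he, hs⟩ : ∃ e : ℝ, (e = 1 ∨ e = -1) ∧ |e * b a + ∑ p ∈ s, σ p * b p| ≤ M := by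
      rw [abs_le] at h2
      rcases le_total 0 (∑ p ∈ s, σ p * b p) with h | h
      · refine ⟨-1, Or.inr rfl, ?_⟩
        rw [abs_le]; constructor <;> linarith
      · refine ⟨1, Or.inl rfl, ?_⟩
        rw [abs_le]; constructor <;> linarith
    refine ⟨fun p => if p = a then e else σ p, ?_, ?_⟩
    · intro p
      by_cases hp : p = a
      · simpa [hp] using he
      · simpa [hp] using h1 p
    · rw [sum_insert ha]
      have : ∑ x ∈ s, (if x = a then e else σ x) * b x = ∑ x ∈ s, σ x * b x := by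
        apply sum_congr rfl
        intro x hx
        have : x ≠ a := fun h => ha (h ▸ hx)
        simp [this]
      rw [this]
      simpa using hs

/-! ### completely multiplicative functions -/

theorem cm_congr (v v' : ℕ → ℝ) (n : ℕ) (h : ∀ p, p.Prime → p ∣ n → v p = v' p) :
    cm v n = cm v' n := by
  rw [cm_eq, cm_eq]
  apply prod_congr rfl
  intro p hp
  rw [h p (Nat.prime_of_mem_primeFactors hp) (Nat.dvd_of_mem_primeFactors hp)]

theorem cm_abs (v : ℕ → ℝ) (n : ℕ) : |cm v n| = cm (fun p => |v p|) n := by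
  rw [cm_eq, cm_eq, abs_prod]
  apply prod_congr rfl
  intro p _
  rw [abs_pow]

theorem cm_pow_id (a : ℝ) (n : ℕ) (hn : n ≠ 0) : cm (fun p => (p : ℝ) ^ a) n = (n : ℝ) ^ a := by
  rw [cm_rpow (fun p => (p : ℝ)) a n (fun p => Nat.cast_nonneg p), cm_id n hn]

theorem cm_mul_fun (v v' : ℕ → ℝ) (n : ℕ) : cm (fun p => v p * v' p) n = cm v n * cm v' n := by
  rw [cm_eq, cm_eq, cm_eq, ← prod_mul_distrib]
  apply prod_congr rfl
  intro p _
  rw [mul_pow]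

/-! ### the values -/

open Classical in
/-- the values at the ordinary primes -/
noncomputable def vO (ε : ℝ) (Od : Set ℕ) (σ : ℕ → ℝ) (b : ℕ → ℕ × ℕ) (c : ℕ × ℕ → ℝ) (p : ℕ) : ℝ :=
  if p ∈ Od then Bd ε p * (2 * σ p + c (b p)) / 6 else 0

open Classical in
/-- twice the bound for the values at the ordinary primes -/
noncomputable def wO (ε : ℝ) (Od : Set ℕ) (p : ℕ) : ℝ := if p ∈ Od then Bd ε p else 0

open Classical in
/-- the special number with the large prime `p` -/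
noncomputable def iq (Sp : Set ℕ) (q : ℕ → ℕ) (p : ℕ) : ℕ :=
  if h : ∃ N ∈ Sp, q N = p then h.choose else 0

theorem iq_eq {Sp : Set ℕ} {q : ℕ → ℕ} (hinj : Set.InjOn q Sp) {N : ℕ} (hN : N ∈ Sp) :
    iq Sp q (q N) = N := by
  have h : ∃ N' ∈ Sp, q N' = q N := ⟨N, hN, rfl⟩
  unfold iq
  rw [dif_pos h]
  exact hinj h.choose_spec.1 hN h.choose_spec.2

open Classical in
/-- the values at the primes -/
noncomputable def vv (ε : ℝ) (Od Sp : Set ℕ) (q : ℕ → ℕ) (σ : ℕ → ℝ) (b : ℕ → ℕ × ℕ)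
    (c : ℕ × ℕ → ℝ) (p : ℕ) : ℝ :=
  if p ∈ Od then vO ε Od σ b c p
  else if p ∈ q '' Sp then
    Bd ε (iq Sp q p) * c (b (iq Sp q p)) / cm (vO ε Od σ b c) (iq Sp q p / p)
  else 0

/-- the weights times `p ^ (-1 + ε)` -/
noncomputable def WW (ε ν : ℝ) (k₀ : ℕ) (Sp : Set ℕ) (q : ℕ → ℕ) (p : ℕ) : ℝ :=
  wt (2 ^ k₀) (ν / 1000) (q '' Sp) p * (p : ℝ) ^ (-1 + ε)

theorem cm_WW (ε ν : ℝ) (k₀ : ℕ) (Sp : Set ℕ) (q : ℕ → ℕ) (n : ℕ) (hn : n ≠ 0) :
    cm (WW ε ν k₀ Sp q) n = sw ν k₀ Sp q n * (n : ℝ) ^ (-1 + ε) := by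
  unfold WW
  rw [cm_mul_fun, cm_pow_id _ _ hn]
  rfl

section

variable {c ν c₁ : ℝ} {k₀ k₁ : ℕ} {Od Sp : Set ℕ} {q : ℕ → ℕ} (hS : Sys c ν c₁ k₀ k₁ Od Sp q)
  {ε : ℝ} {σ : ℕ → ℝ} (hσ : ∀ p, σ p = 1 ∨ σ p = -1) {b : ℕ → ℕ × ℕ}
  (hc : 0 < c) (hc1 : c ≤ 1 / 10) (hν : 0 < ν) (hνc : ν ≤ c / 2) (hk₀ : 3 ≤ k₀)
  (hε : 0 < ε) (hε1 : ε ≤ 1)
  (hL : ∀ l : ℕ, 2 ^ k₀ ≤ l → 6 * (Real.log l) ^ 2 ≤ (l : ℝ) ^ (ν / 2000))

theorem Bd_nonneg (ε : ℝ) (n : ℕ) : 0 ≤ Bd ε n := by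
  unfold Bd
  positivity

theorem log_ge_of_pow {k n : ℕ} (h : 2 ^ k ≤ n) : (k : ℝ) * Real.log 2 ≤ Real.log n := by
  have h2 : ((2 : ℝ) ^ k) ≤ n := by exact_mod_cast h
  calc (k : ℝ) * Real.log 2 = Real.log ((2 : ℝ) ^ k) := by rw [Real.log_pow]
    _ ≤ Real.log n := Real.log_le_log (by positivity) h2

theorem two_le_log {k n : ℕ} (hk : 3 ≤ k) (h : 2 ^ k ≤ n) : 2 ≤ Real.log n := by
  have h1 := log_ge_of_pow h
  have h2 := Real.log_two_gt_d9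
  have h3 : (3 : ℝ) ≤ k := by exact_mod_cast hk
  nlinarith

theorem Bd_le (ε : ℝ) {n : ℕ} (h : 2 ≤ Real.log n) : Bd ε n ≤ (n : ℝ) ^ (-1 + ε) / 4 := by
  unfold Bd
  apply div_le_div_of_nonneg_left (by positivity) (by norm_num)
  nlinarith


include hσ in
theorem vO_abs_le {d : ℕ × ℕ → ℝ} (hd : ∀ i, |d i| ≤ 1) (p : ℕ) :
    |vO ε Od σ b d p| ≤ wO ε Od p / 2 := by
  classical
  unfold vO wO
  have hB := Bd_nonneg ε p
  split_ifs with h
  · have h2 : |2 * σ p + d (b p)| ≤ 3 := by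
      have := hd (b p)
      rw [abs_le] at this ⊢
      rcases hσ p with h3 | h3 <;> rw [h3] <;> constructor <;> linarith
    rw [abs_div, abs_mul, abs_of_nonneg hB, abs_of_pos (by norm_num : (0 : ℝ) < 6)]
    nlinarith
  · simp

theorem vO_sub_le {d d' : ℕ × ℕ → ℝ} {D : ℝ} (hD : 0 ≤ D) (hdd : ∀ i, |d i - d' i| ≤ D) (p : ℕ) :
    |vO ε Od σ b d p - vO ε Od σ b d' p| ≤ wO ε Od p / 2 * D := by
  classical
  unfold vO wO
  have hB := Bd_nonneg ε p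
  split_ifs with h
  · have h1 : Bd ε p * (2 * σ p + d (b p)) / 6 - Bd ε p * (2 * σ p + d' (b p)) / 6 =
        Bd ε p * (d (b p) - d' (b p)) / 6 := by ring
    rw [h1, abs_div, abs_mul, abs_of_nonneg hB, abs_of_pos (by norm_num : (0 : ℝ) < 6)]
    have := hdd (b p)
    have h3 : Bd ε p * |d (b p) - d' (b p)| ≤ Bd ε p * D := mul_le_mul_of_nonneg_left this hB
    have h4 : 0 ≤ Bd ε p * D := mul_nonneg hB hD
    linarith
  · simp

include hσ in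
theorem vO_lower {d : ℕ × ℕ → ℝ} (hd : ∀ i, |d i| ≤ 1) {p : ℕ} (hp : p ∈ Od) :
    Bd ε p / 6 ≤ |vO ε Od σ b d p| := by
  classical
  unfold vO
  rw [if_pos hp]
  have hB := Bd_nonneg ε p
  have h2 : 1 ≤ |2 * σ p + d (b p)| := by
    have := hd (b p)
    rw [abs_le] at this
    rw [le_abs]
    rcases hσ p with h3 | h3 <;> rw [h3]
    · left; linarith
    · right; linarith
  rw [abs_div, abs_mul, abs_of_nonneg hB, abs_of_pos (by norm_num : (0 : ℝ) < 6)]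
  have : Bd ε p * 1 ≤ Bd ε p * |2 * σ p + d (b p)| := mul_le_mul_of_nonneg_left h2 hB
  linarith

include hS hk₀ in
theorem cm_wO_le (n : ℕ) (hn : n ≠ 0) : cm (wO ε Od) n ≤ (n : ℝ) ^ (-1 + ε) := by
  rw [← cm_pow_id _ _ hn]
  apply cm_mono
  intro p hp hpn
  classical
  unfold wO
  split_ifs with h
  · refine ⟨Bd_nonneg _ _, ?_⟩
    have h1 := Bd_le ε (two_le_log hk₀ (hS.ord p h).2)
    have h2 : 0 ≤ (p : ℝ) ^ (-1 + ε) := by positivity
    linarith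
  · exact ⟨le_refl _, by positivity⟩

include hS hσ hk₀ hL in
/-- the lower bound for the values at the products of ordinary primes -/
theorem cm_vO_lower {d : ℕ × ℕ → ℝ} (hd : ∀ i, |d i| ≤ 1) (n : ℕ) (hn : n ≠ 0)
    (hnO : ∀ p : ℕ, p.Prime → p ∣ n → p ∈ Od) :
    (n : ℝ) ^ (-1 + ε - ν / 2000) ≤ |cm (vO ε Od σ b d) n| := by
  rw [cm_abs, ← cm_pow_id _ _ hn]
  apply cm_mono
  intro p hp hpn
  have hpO := hnO p hp hpn
  refine ⟨by positivity, le_trans ?_ (vO_lower hσ hd hpO)⟩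
  have hp2 := (hS.ord p hpO).2
  have h1 := hL p hp2
  have h2 := two_le_log hk₀ hp2
  have hp0 : (0 : ℝ) < p := by exact_mod_cast hp.pos
  have h3 : (p : ℝ) ^ (-1 + ε - ν / 2000) = (p : ℝ) ^ (-1 + ε) / (p : ℝ) ^ (ν / 2000) := by
    rw [Real.rpow_sub hp0]
  rw [h3]
  unfold Bd
  rw [div_div]
  apply div_le_div_of_nonneg_left (by positivity) (by positivity)
  linarith

include hS hc hc1 hν hνc hk₀ in
theorem sp_facts {N : ℕ} (hN : N ∈ Sp) : N = q N * (N / q N) ∧ N / q N ≠ 0 ∧ N / q N ≤ q N ∧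
    2 ≤ Real.log N ∧ 2 ^ k₀ ≤ q N ∧ 2 ^ (k₀ + 1) ≤ q N ∧ q N ≠ N ∧ 2 ≤ Real.log (q N) := by
  obtain ⟨hN0, hqP, hqN⟩ := hS.sp_prime N hN
  have h1 := hS.sp_scale N hN
  have h2 := hS.sp_low N hN
  have h2' := hS.sp_up N hN
  have h3 := hS.k01
  set k := Nat.log 2 N with hk
  have hNe : N = q N * (N / q N) := (Nat.mul_div_cancel' hqN).symm
  have hn0 : N / q N ≠ 0 := by
    intro h; rw [h] at hNe; simp at hNe; exact hN0 hNe
  have hk1 : (k₁ : ℝ) ≤ k := by exact_mod_cast h1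
  have hk0 : (3 : ℝ) ≤ k₀ := by exact_mod_cast hk₀
  have hν1 : ν ≤ 1 / 20 := by linarith
  have hk1' : (60 : ℝ) ≤ k₁ := by nlinarith
  have hck : 2 * (k₀ : ℝ) ≤ c * k := by nlinarith
  have hNlt : N < 2 ^ (k + 1) := Nat.lt_pow_succ_log_self (by norm_num) N
  have hNge : 2 ^ k ≤ N := Nat.pow_log_le_self 2 hN0
  have hNltR : (N : ℝ) < 2 ^ ((k : ℝ) + 1) := by
    have : (N : ℝ) < (2 : ℝ) ^ (k + 1) := by exact_mod_cast hNlt
    rwa [← Real.rpow_natCast, Nat.cast_add, Nat.cast_one] at this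
  have hNgeR : (2 : ℝ) ^ (k : ℝ) ≤ N := by
    rw [Real.rpow_natCast]; exact_mod_cast hNge
  have hq2 : 2 ^ (k₀ + 1) ≤ q N := by
    have : (2 : ℝ) ^ (k₀ + 1) ≤ q N := by
      rw [← Real.rpow_natCast]
      refine le_trans ?_ h2.le
      apply Real.rpow_le_rpow_of_exponent_le (by norm_num)
      push_cast
      nlinarith
    exact_mod_cast this
  have hq1 : 2 ^ k₀ ≤ q N := le_trans (Nat.pow_le_pow_right (by norm_num) (by omega)) hq2
  refine ⟨hNe, hn0, ?_, ?_, hq1, hq2, ?_, ?_⟩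
  · by_contra hlt
    push Not at hlt
    have h4 : q N * q N < N := by
      calc q N * q N < q N * (N / q N) := Nat.mul_lt_mul_of_pos_left hlt hqP.pos
        _ = N := hNe.symm
    have h5 : ((q N : ℕ) : ℝ) * (q N : ℝ) < N := by exact_mod_cast h4
    have h6 : (2 : ℝ) ^ ((k : ℝ) + 1) ≤ (q N : ℝ) * (q N : ℝ) := by
      calc (2 : ℝ) ^ ((k : ℝ) + 1) ≤ (2 : ℝ) ^ ((1 / 2 + c / 2) * (k : ℝ) + (1 / 2 + c / 2) * (k : ℝ)) := by
            apply Real.rpow_le_rpow_of_exponent_le (by norm_num)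
            nlinarith
        _ = (2 : ℝ) ^ ((1 / 2 + c / 2) * (k : ℝ)) * (2 : ℝ) ^ ((1 / 2 + c / 2) * (k : ℝ)) :=
            Real.rpow_add (by norm_num) _ _
        _ ≤ _ := mul_le_mul h2.le h2.le (by positivity) (by positivity)
    linarith
  · exact two_le_log (by have : (3 : ℝ) ≤ k := by linarith
                         exact_mod_cast this) hNge
  · intro h
    have h5 : (N : ℝ) ≤ (2 : ℝ) ^ ((1 / 2 + c) * (k : ℝ)) := by rw [h] at h2'; exact h2'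
    have h6 : (2 : ℝ) ^ ((1 / 2 + c) * (k : ℝ)) < (2 : ℝ) ^ (k : ℝ) := by
      apply Real.rpow_lt_rpow_of_exponent_lt (by norm_num)
      nlinarith
    linarith
  · exact two_le_log hk₀ hq1

end

end Pool.Agent.W164.MO.Fin
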