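import Pool.Agent.W164.MO.Fin1

/-!
# MO-FIN, part 2: the bounds for the values at the primes
-/

set_option autoImplicit false

open Finset

namespace Pool.Agent.W164.MO.Fin

open Pool.Agent.W164.MO
open Pool.Agent.H932R4.CMO (bw Bd)
open Pool.Agent.W583.MO (cm_mul cm_one cm_prime cm_eq cm_nonneg cm_mono cm_rpow cm_id)

section

variable {c ν c₁ : ℝ} {k₀ k₁ : ℕ} {Od Sp : Set ℕ} {q : ℕ → ℕ} (hS : Sys c ν c₁ k₀ k₁ Od Sp q)
  {ε : ℝ} {σ : ℕ → ℝ} (hσ : ∀ p, σ p = 1 ∨ σ p = -1) {b : ℕ → ℕ × ℕ}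
  (hc : 0 < c) (hc1 : c ≤ 1 / 10) (hν : 0 < ν) (hνc : ν ≤ c / 2) (hk₀ : 3 ≤ k₀)
  (hε : 0 < ε) (hε1 : ε ≤ 1)
  (hL : ∀ l : ℕ, 2 ^ k₀ ≤ l → 6 * (Real.log l) ^ 2 ≤ (l : ℝ) ^ (ν / 2000))

theorem WW_nonneg (p : ℕ) : 0 ≤ WW ε ν k₀ Sp q p := by
  unfold WW wt
  split_ifs <;> positivity

include hS in
theorem wO_le_WW {p : ℕ} (hp : p ∈ Od) : wO ε Od p ≤ WW ε ν k₀ Sp q p := by
  classical
  unfold wO WW wt
  rw [if_pos hp]
  have h1 : p ∉ q '' Sp := by
    rintro ⟨N, hN, h⟩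
    exact hS.disj N hN (h ▸ hp)
  rw [if_neg h1, if_pos (hS.ord p hp).2]
  unfold Bd
  apply le_of_eq
  ring

/-- value at a special prime -/
theorem vv_special (hS : Sys c ν c₁ k₀ k₁ Od Sp q) {N : ℕ} (hN : N ∈ Sp) (d : ℕ × ℕ → ℝ) :
    vv ε Od Sp q σ b d (q N) = Bd ε N * d (b N) / cm (vO ε Od σ b d) (N / q N) := by
  classical
  unfold vv
  rw [if_neg (hS.disj N hN), if_pos ⟨N, hN, rfl⟩, iq_eq hS.inj hN]

theorem WW_special {N : ℕ} (hN : N ∈ Sp) :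
    WW ε ν k₀ Sp q (q N) = (q N : ℝ) ^ (ν / 1000) * (q N : ℝ) ^ (-1 + ε) := by
  classical
  unfold WW wt
  rw [if_pos ⟨N, hN, rfl⟩]

/-- the main computation -/
theorem sp_calc {N p n : ℝ} {ε τ L : ℝ} (hp : 1 ≤ p) (hn : 1 ≤ n) (hnp : n ≤ p) (hN : N = p * n)
    (hτ : 0 ≤ τ) (hL : 2 ≤ L) :
    N ^ (-1 + ε) / L ^ 2 * (n ^ (1 - ε + τ) + n ^ (-1 + ε) * (n ^ (1 - ε + τ) * n ^ (1 - ε + τ))) ≤
      p ^ (2 * τ) * p ^ (-1 + ε) / 2 := by
  have hp0 : 0 < p := by linarith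
  have hn0 : 0 < n := by linarith
  have h1 : n ^ (-1 + ε) * (n ^ (1 - ε + τ) * n ^ (1 - ε + τ)) = n ^ (1 - ε + 2 * τ) := by
    rw [← Real.rpow_add hn0, ← Real.rpow_add hn0]; congr 1; ring
  have h2 : n ^ (1 - ε + τ) ≤ n ^ (1 - ε + 2 * τ) :=
    Real.rpow_le_rpow_of_exponent_le hn (by linarith)
  have h3 : N ^ (-1 + ε) = p ^ (-1 + ε) * n ^ (-1 + ε) := by
    rw [hN, Real.mul_rpow hp0.le hn0.le]
  have h4 : n ^ (-1 + ε) * n ^ (1 - ε + 2 * τ) = n ^ (2 * τ) := by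
    rw [← Real.rpow_add hn0]; congr 1; ring
  have h5 : n ^ (2 * τ) ≤ p ^ (2 * τ) := Real.rpow_le_rpow hn0.le hnp (by linarith)
  have h6 : 1 / L ^ 2 ≤ 1 / 4 := by
    apply one_div_le_one_div_of_le (by norm_num)
    nlinarith
  have h7 : 0 ≤ p ^ (-1 + ε) := by positivity
  have h8 : 0 ≤ n ^ (2 * τ) := by positivity
  rw [h1]
  calc N ^ (-1 + ε) / L ^ 2 * (n ^ (1 - ε + τ) + n ^ (1 - ε + 2 * τ))
      ≤ N ^ (-1 + ε) / L ^ 2 * (n ^ (1 - ε + 2 * τ) + n ^ (1 - ε + 2 * τ)) := by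
        apply mul_le_mul_of_nonneg_left (by linarith)
        have : 0 < N := by rw [hN]; positivity
        positivity
    _ = 2 * (1 / L ^ 2) * (p ^ (-1 + ε) * (n ^ (-1 + ε) * n ^ (1 - ε + 2 * τ))) := by
        rw [h3]; ring
    _ = 2 * (1 / L ^ 2) * (p ^ (-1 + ε) * n ^ (2 * τ)) := by rw [h4]
    _ ≤ 2 * (1 / 4) * (p ^ (-1 + ε) * p ^ (2 * τ)) := by
        apply mul_le_mul (by linarith) (mul_le_mul_of_nonneg_left h5 h7) (by positivity)
          (by norm_num)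
    _ = _ := by ring

include hS hσ hc hc1 hν hνc hk₀ hL in
theorem vv_bounds {d d' : ℕ × ℕ → ℝ} (hd : ∀ i, |d i| ≤ 1) (hd' : ∀ i, |d' i| ≤ 1) {D : ℝ}
    (hD : 0 ≤ D) (hdd : ∀ i, |d i - d' i| ≤ D) (p : ℕ) :
    |vv ε Od Sp q σ b d p| ≤ WW ε ν k₀ Sp q p / 2 ∧
    |vv ε Od Sp q σ b d p - vv ε Od Sp q σ b d' p| ≤ WW ε ν k₀ Sp q p / 2 * D := by
  classical
  by_cases hp : p ∈ Od
  · have e1 : vv ε Od Sp q σ b d p = vO ε Od σ b d p := by unfold vv; rw [if_pos hp]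
    have e2 : vv ε Od Sp q σ b d' p = vO ε Od σ b d' p := by unfold vv; rw [if_pos hp]
    rw [e1, e2]
    have h1 := vO_abs_le (ε := ε) (Od := Od) (b := b) hσ hd p
    have h2 := vO_sub_le (ε := ε) (Od := Od) (σ := σ) (b := b) hD hdd p
    have h3 := wO_le_WW (ε := ε) hS hp
    refine ⟨by linarith, h2.trans ?_⟩
    apply mul_le_mul_of_nonneg_right _ hD
    linarith
  · by_cases hq : p ∈ q '' Sp
    · obtain ⟨N, hN, rfl⟩ := hq
      obtain ⟨hNe, hn0, hnq, hlog, hq1, hq2, hqne, hlogq⟩ := sp_facts hS hc hc1 hν hνc hk₀ hN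
      rw [vv_special hS hN, vv_special hS hN, WW_special hN]
      set n := N / q N with hn
      have hnO : ∀ l : ℕ, l.Prime → l ∣ n → l ∈ Od := hS.sp_ord N hN
      have hF := cm_vO_lower (ε := ε) (b := b) hS hσ hk₀ hL hd n hn0 hnO
      have hF' := cm_vO_lower (ε := ε) (b := b) hS hσ hk₀ hL hd' n hn0 hnO
      set F := cm (vO ε Od σ b d) n with hFdef
      set F' := cm (vO ε Od σ b d') n with hFdef'
      have hn1 : (1 : ℝ) ≤ n := by exact_mod_cast Nat.one_le_iff_ne_zero.2 hn0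
      have hnpos : (0 : ℝ) < n := by linarith
      have hq0 : 1 ≤ q N := (hS.sp_prime N hN).2.1.one_lt.le
      have hlp := (Pool.Agent.W424.MO.lp (vO ε Od σ b d) (vO ε Od σ b d') (wO ε Od) D n hD
        (fun p => vO_abs_le hσ hd p) (fun p => vO_abs_le hσ hd' p) (fun p => vO_sub_le hD hdd p)).2
      have hwO := cm_wO_le (ε := ε) hS hk₀ n hn0
      have hFF : |F - F'| ≤ (n : ℝ) ^ (-1 + ε) * D :=
        hlp.trans (mul_le_mul_of_nonneg_right hwO hD)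
      have hlow0 : 0 < (n : ℝ) ^ (-1 + ε - ν / 2000) := by positivity
      have hFpos : 0 < |F| := lt_of_lt_of_le hlow0 hF
      have hFpos' : 0 < |F'| := lt_of_lt_of_le hlow0 hF'
      have hF0 : F ≠ 0 := abs_pos.1 hFpos
      have hF0' : F' ≠ 0 := abs_pos.1 hFpos'
      have hinv : 1 / |F| ≤ (n : ℝ) ^ (1 - ε + ν / 2000) := by
        calc 1 / |F| ≤ 1 / (n : ℝ) ^ (-1 + ε - ν / 2000) := one_div_le_one_div_of_le hlow0 hF
          _ = (n : ℝ) ^ (1 - ε + ν / 2000) := by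
            rw [one_div, ← Real.rpow_neg hnpos.le]; congr 1; ring
      have hinv' : 1 / |F'| ≤ (n : ℝ) ^ (1 - ε + ν / 2000) := by
        calc 1 / |F'| ≤ 1 / (n : ℝ) ^ (-1 + ε - ν / 2000) := one_div_le_one_div_of_le hlow0 hF'
          _ = (n : ℝ) ^ (1 - ε + ν / 2000) := by
            rw [one_div, ← Real.rpow_neg hnpos.le]; congr 1; ring
      have hNR : (N : ℝ) = (q N : ℝ) * n := by exact_mod_cast hNe
      have hcalc := sp_calc (N := N) (p := (q N : ℝ)) (n := n) (ε := ε) (τ := ν / 2000)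
        (L := Real.log N) (by exact_mod_cast hq0) hn1 (by exact_mod_cast hnq) hNR
        (by positivity) hlog
      have e3 : 2 * (ν / 2000) = ν / 1000 := by ring
      rw [e3] at hcalc
      have hB : 0 ≤ Bd ε N := Bd_nonneg ε N
      have hBe : Bd ε N = (N : ℝ) ^ (-1 + ε) / (Real.log N) ^ 2 := rfl
      rw [← hBe] at hcalc
      set A := (n : ℝ) ^ (1 - ε + ν / 2000) with hA
      have hA0 : 0 ≤ A := by positivity
      have hm0 : 0 ≤ (n : ℝ) ^ (-1 + ε) := by positivity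
      constructor
      · rw [abs_div, abs_mul, abs_of_nonneg hB, div_eq_mul_one_div]
        have h5 : Bd ε N * |d (b N)| ≤ Bd ε N * 1 := mul_le_mul_of_nonneg_left (hd _) hB
        calc Bd ε N * |d (b N)| * (1 / |F|) ≤ (Bd ε N * 1) * A :=
              mul_le_mul h5 hinv (by positivity) (by positivity)
          _ = Bd ε N * A := by ring
          _ ≤ Bd ε N * (A + (n : ℝ) ^ (-1 + ε) * (A * A)) := by
              apply mul_le_mul_of_nonneg_left _ hB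
              have : 0 ≤ (n : ℝ) ^ (-1 + ε) * (A * A) := by positivity
              linarith
          _ ≤ _ := hcalc
      · have e4 : Bd ε N * d (b N) / F - Bd ε N * d' (b N) / F' =
            Bd ε N * ((d (b N) - d' (b N)) * (1 / F) + d' (b N) * ((F' - F) * ((1 / F) * (1 / F')))) := by
          field_simp
          ring
        rw [e4, abs_mul, abs_of_nonneg hB]
        have h6 : |(d (b N) - d' (b N)) * (1 / F)| ≤ D * A := by
          rw [abs_mul, abs_div, abs_one]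
          exact mul_le_mul (hdd _) hinv (by positivity) hD
        have h7 : |d' (b N) * ((F' - F) * ((1 / F) * (1 / F')))| ≤
            1 * (((n : ℝ) ^ (-1 + ε) * D) * (A * A)) := by
          rw [abs_mul, abs_mul, abs_mul, abs_div, abs_div, abs_one, abs_sub_comm F' F]
          apply mul_le_mul (hd' _) _ (by positivity) (by norm_num)
          apply mul_le_mul hFF _ (by positivity) (by positivity)
          exact mul_le_mul hinv hinv' (by positivity) (by positivity)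
        calc Bd ε N * |(d (b N) - d' (b N)) * (1 / F) + d' (b N) * ((F' - F) * ((1 / F) * (1 / F')))|
            ≤ Bd ε N * (D * A + 1 * (((n : ℝ) ^ (-1 + ε) * D) * (A * A))) :=
              mul_le_mul_of_nonneg_left ((abs_add_le _ _).trans (add_le_add h6 h7)) hB
          _ = Bd ε N * (A + (n : ℝ) ^ (-1 + ε) * (A * A)) * D := by ring
          _ ≤ _ := mul_le_mul_of_nonneg_right hcalc hD
    · have e1 : vv ε Od Sp q σ b d p = 0 := by unfold vv; rw [if_neg hp, if_neg hq]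
      have e2 : vv ε Od Sp q σ b d' p = 0 := by unfold vv; rw [if_neg hp, if_neg hq]
      rw [e1, e2]
      have := WW_nonneg (ε := ε) (ν := ν) (k₀ := k₀) (Sp := Sp) (q := q) p
      simp only [abs_zero, sub_zero]
      exact ⟨by positivity, by positivity⟩

include hS hσ hc hc1 hν hνc hk₀ hL in
/-- bounds for the function -/
theorem f_bounds {d d' : ℕ × ℕ → ℝ} (hd : ∀ i, |d i| ≤ 1) (hd' : ∀ i, |d' i| ≤ 1) {D : ℝ}
    (hD : 0 ≤ D) (hdd : ∀ i, |d i - d' i| ≤ D) (n : ℕ) (hn : n ≠ 0) :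
    |cm (vv ε Od Sp q σ b d) n| ≤ sw ν k₀ Sp q n * (n : ℝ) ^ (-1 + ε) ∧
    |cm (vv ε Od Sp q σ b d) n - cm (vv ε Od Sp q σ b d') n| ≤
      D * (sw ν k₀ Sp q n * (n : ℝ) ^ (-1 + ε)) := by
  have h := Pool.Agent.W424.MO.lp (vv ε Od Sp q σ b d) (vv ε Od Sp q σ b d') (WW ε ν k₀ Sp q) D n hD
    (fun p => (vv_bounds hS hσ hc hc1 hν hνc hk₀ hL hd hd' hD hdd p).1)
    (fun p => (vv_bounds hS hσ hc hc1 hν hνc hk₀ hL hd' hd hD
      (fun i => by rw [abs_sub_comm]; exact hdd i) p).1)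
    (fun p => (vv_bounds hS hσ hc hc1 hν hνc hk₀ hL hd hd' hD hdd p).2)
  rw [cm_WW _ _ _ _ _ _ hn] at h
  exact ⟨h.1, by linarith [h.2]⟩

include hS hσ hc hc1 hν hνc hk₀ hL in
/-- the value at a special number -/
theorem f_special {d : ℕ × ℕ → ℝ} (hd : ∀ i, |d i| ≤ 1) {N : ℕ} (hN : N ∈ Sp) :
    cm (vv ε Od Sp q σ b d) N = Bd ε N * d (b N) := by
  classical
  obtain ⟨hNe, hn0, hnq, hlog, hq1, hq2, hqne, hlogq⟩ := sp_facts hS hc hc1 hν hνc hk₀ hN
  have hnO : ∀ l : ℕ, l.Prime → l ∣ N / q N → l ∈ Od := hS.sp_ord N hN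
  have hF := cm_vO_lower (ε := ε) (b := b) hS hσ hk₀ hL hd (N / q N) hn0 hnO
  have hqP := (hS.sp_prime N hN).2.1
  have h1 : cm (vv ε Od Sp q σ b d) N =
      cm (vv ε Od Sp q σ b d) (q N) * cm (vv ε Od Sp q σ b d) (N / q N) := by
    conv_lhs => rw [hNe]
    exact cm_mul _ hqP.ne_zero hn0
  have h2 : cm (vv ε Od Sp q σ b d) (N / q N) = cm (vO ε Od σ b d) (N / q N) := by
    apply cm_congr
    intro p hp hpn
    unfold vv
    rw [if_pos (hnO p hp hpn)]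
  have hnpos : (0 : ℝ) < ((N / q N : ℕ) : ℝ) := by exact_mod_cast Nat.pos_of_ne_zero hn0
  have hF0 : cm (vO ε Od σ b d) (N / q N) ≠ 0 := by
    apply abs_pos.1
    exact lt_of_lt_of_le (by positivity) hF
  rw [h1, h2, cm_prime _ hqP, vv_special hS hN]
  field_simp

end

end Pool.Agent.W164.MO.Fin
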