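import Pool.Agent.W164.MO.Fin2

/-!
# MO-FIN, part 3: the blocks
-/

set_option autoImplicit false

open Finset

namespace Pool.Agent.W164.MO.Fin

open Pool.Agent.W164.MO
open Pool.Agent.H932R4.CMO (bw Bd)
open Pool.Agent.W583.MO (cm_mul cm_one cm_prime cm_eq cm_nonneg cm_mono cm_rpow cm_id sw_nonneg)

section

variable {c ν c₁ : ℝ} {k₀ k₁ : ℕ} {Od Sp : Set ℕ} {q : ℕ → ℕ} (hS : Sys c ν c₁ k₀ k₁ Od Sp q)
  {ε : ℝ} {σ : ℕ → ℝ} (hσ : ∀ p, σ p = 1 ∨ σ p = -1) {b : ℕ → ℕ × ℕ}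
  (hc : 0 < c) (hc1 : c ≤ 1 / 10) (hν : 0 < ν) (hνc : ν ≤ c / 2) (hk₀ : 3 ≤ k₀)
  (hε : 0 < ε) (hε1 : ε ≤ 1)
  (hL : ∀ l : ℕ, 2 ^ k₀ ≤ l → 6 * (Real.log l) ^ 2 ≤ (l : ℝ) ^ (ν / 2000))

include hν hνc hc1 in
theorem blk_mem {k j n : ℕ} (hj : j ∈ idx k (ll ν k₁ k)) (hn : n ∈ blk (ll ν k₁ k) j) :
    2 ^ k ≤ n ∧ n < 2 ^ (k + 1) ∧ Nat.log 2 n = k ∧ n / 2 ^ ll ν k₁ k = j := by
  have hl : ll ν k₁ k ≤ k := Pool.Agent.W402.MO.ll_le hν (by linarith) k₁ k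
  have h1 := Pool.Agent.W402.MO.blk_low hl hj
  have h2 := Pool.Agent.W402.MO.blk_up hl hj
  unfold blk at hn
  rw [mem_Ico] at hn
  have h3 : (j + 1) * 2 ^ ll ν k₁ k = j * 2 ^ ll ν k₁ k + 2 ^ ll ν k₁ k := by ring
  have h4 : 2 ^ k ≤ n := le_trans h1 hn.1
  have h5 : n < 2 ^ (k + 1) := by omega
  refine ⟨h4, h5, ?_, ?_⟩
  · exact (Nat.log_eq_iff (Or.inr ⟨by norm_num, by have : 0 < 2 ^ k := by positivity
                                                   omega⟩)).2 ⟨h4, h5⟩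
  · apply Nat.div_eq_of_lt_le hn.1 hn.2

theorem rpow_block {k n : ℕ} (hε1 : ε ≤ 1) (h : 2 ^ k ≤ n) :
    (n : ℝ) ^ (-1 + ε) ≤ (2 : ℝ) ^ ((-1 + ε) * (k : ℝ)) := by
  have h1 : (2 : ℝ) ^ k ≤ n := by exact_mod_cast h
  calc (n : ℝ) ^ (-1 + ε) ≤ ((2 : ℝ) ^ k) ^ (-1 + ε) :=
        Real.rpow_le_rpow_of_nonpos (by positivity) h1 (by linarith)
    _ = (2 : ℝ) ^ ((-1 + ε) * (k : ℝ)) := by
        rw [← Real.rpow_natCast, ← Real.rpow_mul (by norm_num)]; congr 1; ring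

theorem Bd_block_upper {k n : ℕ} (hε1 : ε ≤ 1) (hk : 3 ≤ k) (h : 2 ^ k ≤ n) :
    Bd ε n ≤ (2 : ℝ) ^ ((-1 + ε) * (k : ℝ)) := by
  have h1 := Bd_le ε (two_le_log hk h)
  have h2 := rpow_block (ε := ε) hε1 h
  have h3 : 0 ≤ (n : ℝ) ^ (-1 + ε) := by positivity
  linarith

theorem Bd_block_lower {k n : ℕ} (hε : 0 < ε) (hε1 : ε ≤ 1) (hk : 3 ≤ k) (h : 2 ^ k ≤ n)
    (h' : n < 2 ^ (k + 1)) :
    (2 : ℝ) ^ ((-1 + ε) * (k : ℝ)) / (4 * (k : ℝ) ^ 2) ≤ Bd ε n := by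
  have hk' : (3 : ℝ) ≤ k := by exact_mod_cast hk
  have hn1 : (2 : ℝ) ^ k ≤ n := by exact_mod_cast h
  have hn0 : (0 : ℝ) < n := lt_of_lt_of_le (by positivity) hn1
  have hn2 : (n : ℝ) < (2 : ℝ) ^ (k + 1) := by exact_mod_cast h'
  have h1 : (2 : ℝ) ^ ((-1 + ε) * (k : ℝ)) / 2 ≤ (n : ℝ) ^ (-1 + ε) := by
    calc (2 : ℝ) ^ ((-1 + ε) * (k : ℝ)) / 2 = (2 : ℝ) ^ ((-1 + ε) * (k : ℝ)) * (2 : ℝ) ^ (-1 : ℝ) := by
          rw [Real.rpow_neg_one]; ring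
      _ ≤ (2 : ℝ) ^ ((-1 + ε) * (k : ℝ)) * (2 : ℝ) ^ (-1 + ε) := by
          apply mul_le_mul_of_nonneg_left _ (by positivity)
          exact Real.rpow_le_rpow_of_exponent_le (by norm_num) (by linarith)
      _ = ((2 : ℝ) ^ (k + 1)) ^ (-1 + ε) := by
          rw [← Real.rpow_natCast, ← Real.rpow_mul (by norm_num), ← Real.rpow_add (by norm_num)]
          congr 1; push_cast; ring
      _ ≤ _ := Real.rpow_le_rpow_of_nonpos hn0 hn2.le (by linarith)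
  have hlog2 : 2 ≤ Real.log n := two_le_log hk h
  have hlogu : Real.log n ≤ ((k : ℝ) + 1) * Real.log 2 := by
    calc Real.log n ≤ Real.log ((2 : ℝ) ^ (k + 1)) := Real.log_le_log hn0 hn2.le
      _ = _ := by rw [Real.log_pow]; push_cast; ring
  have hl2 := Real.log_two_lt_d9
  have hl2' := Real.log_two_gt_d9
  have h2 : Real.log n ≤ 1.4 * k - 0.5 + 0.4 := by nlinarith
  have h3 : (Real.log n) ^ 2 ≤ 2 * (k : ℝ) ^ 2 := by
    have : (Real.log n) ^ 2 ≤ (1.4 * (k : ℝ)) ^ 2 := by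
      apply pow_le_pow_left₀ (by linarith)
      linarith
    nlinarith
  unfold Bd
  rw [div_le_div_iff₀ (by positivity) (by positivity)]
  calc (2 : ℝ) ^ ((-1 + ε) * (k : ℝ)) * (Real.log n) ^ 2
      ≤ (2 : ℝ) ^ ((-1 + ε) * (k : ℝ)) * (2 * (k : ℝ) ^ 2) :=
        mul_le_mul_of_nonneg_left h3 (by positivity)
    _ = ((2 : ℝ) ^ ((-1 + ε) * (k : ℝ)) / 2) * (4 * (k : ℝ) ^ 2) := by ring
    _ ≤ _ := mul_le_mul_of_nonneg_right h1 (by positivity)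

open Classical in
/-- the total capacity of a block -/
noncomputable def lam (ε : ℝ) (Od Sp : Set ℕ) (s : Finset ℕ) : ℝ :=
  ∑ n ∈ s.filter (fun n => n ∈ Od), Bd ε n / 6 + ∑ n ∈ s.filter (fun n => n ∈ Sp), Bd ε n

include hS hc1 hν hνc hk₀ hε hε1 in
theorem lam_lower {k j : ℕ} (hk : k₀ < k) (hj : j ∈ idx k (ll ν k₁ k)) :
    min (1 / 384) (c₁ / 4) * 2 ^ ll ν k₁ k / (k : ℝ) ^ 3 * (2 : ℝ) ^ ((-1 + ε) * (k : ℝ)) ≤
      lam ε Od Sp (blk (ll ν k₁ k) j) := by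
  classical
  have hk3 : 3 ≤ k := by omega
  have hk0 : (0 : ℝ) < k := by exact_mod_cast (by omega : 0 < k)
  set E := (2 : ℝ) ^ ((-1 + ε) * (k : ℝ)) with hE
  have hE0 : 0 < E := by positivity
  have hlow : ∀ n ∈ blk (ll ν k₁ k) j, E / (4 * (k : ℝ) ^ 2) ≤ Bd ε n := by
    intro n hn
    obtain ⟨h1, h2, -, -⟩ := blk_mem hc1 hν hνc hj hn
    exact Bd_block_lower hε hε1 hk3 h1 h2
  have hnn1 : 0 ≤ ∑ n ∈ (blk (ll ν k₁ k) j).filter (fun n => n ∈ Od), Bd ε n / 6 :=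
    sum_nonneg (fun n _ => by have := Bd_nonneg ε n; positivity)
  have hnn2 : 0 ≤ ∑ n ∈ (blk (ll ν k₁ k) j).filter (fun n => n ∈ Sp), Bd ε n :=
    sum_nonneg (fun n _ => Bd_nonneg ε n)
  unfold lam
  by_cases hB : Bad k (ll ν k₁ k) j
  · obtain ⟨-, hcard⟩ := hS.bad k j hk hj hB
    have h1 : (((blk (ll ν k₁ k) j).filter (fun N => N ∈ Sp)).card : ℝ) * (E / (4 * (k : ℝ) ^ 2)) ≤
        ∑ n ∈ (blk (ll ν k₁ k) j).filter (fun n => n ∈ Sp), Bd ε n := by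
      rw [← nsmul_eq_mul]
      exact card_nsmul_le_sum _ _ _ (fun n hn => hlow n (mem_filter.1 hn).1)
    have h2 : c₁ * 2 ^ ll ν k₁ k / k * (E / (4 * (k : ℝ) ^ 2)) ≤
        (((blk (ll ν k₁ k) j).filter (fun N => N ∈ Sp)).card : ℝ) * (E / (4 * (k : ℝ) ^ 2)) :=
      mul_le_mul_of_nonneg_right hcard (by positivity)
    have h3 : c₁ * 2 ^ ll ν k₁ k / k * (E / (4 * (k : ℝ) ^ 2)) =
        c₁ / 4 * (2 ^ ll ν k₁ k / (k : ℝ) ^ 3 * E) := by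
      field_simp
    have h4 : min (1 / 384) (c₁ / 4) * (2 ^ ll ν k₁ k / (k : ℝ) ^ 3 * E) ≤
        c₁ / 4 * (2 ^ ll ν k₁ k / (k : ℝ) ^ 3 * E) :=
      mul_le_mul_of_nonneg_right (min_le_right _ _) (by positivity)
    have h5 : min (1 / 384) (c₁ / 4) * 2 ^ ll ν k₁ k / (k : ℝ) ^ 3 * E =
      min (1 / 384) (c₁ / 4) * (2 ^ ll ν k₁ k / (k : ℝ) ^ 3 * E) := by ring
    linarith
  · have hcard := hS.good k j hk hj hB
    have hcard' : (2 : ℝ) ^ ll ν k₁ k ≤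
        16 * k * (((blk (ll ν k₁ k) j).filter (fun p => p ∈ Od)).card : ℝ) := by
      exact_mod_cast hcard
    have h1 : (((blk (ll ν k₁ k) j).filter (fun N => N ∈ Od)).card : ℝ) * (E / (4 * (k : ℝ) ^ 2) / 6) ≤
        ∑ n ∈ (blk (ll ν k₁ k) j).filter (fun n => n ∈ Od), Bd ε n / 6 := by
      rw [← nsmul_eq_mul]
      exact card_nsmul_le_sum _ _ _ (fun n hn => by
        have := hlow n (mem_filter.1 hn).1
        linarith)
    have h2 : 2 ^ ll ν k₁ k / (16 * k) ≤ (((blk (ll ν k₁ k) j).filter (fun N => N ∈ Od)).card : ℝ) := by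
      rw [div_le_iff₀ (by positivity)]
      linarith
    have h2' := mul_le_mul_of_nonneg_right h2
      (by positivity : 0 ≤ E / (4 * (k : ℝ) ^ 2) / 6)
    have h3 : 2 ^ ll ν k₁ k / (16 * (k : ℝ)) * (E / (4 * (k : ℝ) ^ 2) / 6) =
        1 / 384 * (2 ^ ll ν k₁ k / (k : ℝ) ^ 3 * E) := by
      field_simp; norm_num
    have h4 : min (1 / 384) (c₁ / 4) * (2 ^ ll ν k₁ k / (k : ℝ) ^ 3 * E) ≤
        1 / 384 * (2 ^ ll ν k₁ k / (k : ℝ) ^ 3 * E) :=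
      mul_le_mul_of_nonneg_right (min_le_left _ _) (by positivity)
    have h5 : min (1 / 384) (c₁ / 4) * 2 ^ ll ν k₁ k / (k : ℝ) ^ 3 * E =
      min (1 / 384) (c₁ / 4) * (2 ^ ll ν k₁ k / (k : ℝ) ^ 3 * E) := by ring
    linarith

include hS hc1 hν hνc hε hε1 in
open Classical in
theorem rest_bound {κ : ℝ} {k j : ℕ} (hj : j ∈ idx k (ll ν k₁ k))
    (hMA : ∑ n ∈ (blk (ll ν k₁ k) j).filter (fun n => ¬ n.Prime ∧ ∀ N ∈ Sp, ¬ q N ∣ n),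
        sw ν k₀ Sp q n ≤ κ * 2 ^ ll ν k₁ k / (k : ℝ) ^ 3)
    (hMB : ∑ n ∈ (blk (ll ν k₁ k) j).filter (fun n => (∃ N ∈ Sp, q N ∣ n) ∧ ¬ Res ν Sp k n),
        sw ν k₀ Sp q n ≤ κ * 2 ^ ll ν k₁ k / (k : ℝ) ^ 3)
    (hMC : ∑ a ∈ (Icc 2 (2 ^ k)).filter (fun a : ℕ => (a : ℝ) < (2 : ℝ) ^ (ν / 8 * (k : ℝ))),
        ∑ n ∈ (blk (ll ν k₁ k) j).filter (fun n => a ∣ n ∧ n / a ∈ Sp),
          sw ν k₀ Sp q a / (Real.log ((n / a : ℕ) : ℝ)) ^ 2 ≤ κ * 2 ^ ll ν k₁ k / (k : ℝ) ^ 3)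
    (g : ℕ → ℝ) (M M' : ℝ) (hM : 0 ≤ M) (hM' : 0 ≤ M')
    (H1 : ∀ n : ℕ, n ≠ 0 → g n ≤ M * (sw ν k₀ Sp q n * (n : ℝ) ^ (-1 + ε)))
    (H2 : ∀ a N : ℕ, a ≠ 0 → N ∈ Sp → g (a * N) ≤
      M' * (sw ν k₀ Sp q a * (a : ℝ) ^ (-1 + ε) * Bd ε N))
    (H3 : ∀ p : ℕ, p.Prime → p ∉ Od → (∀ N ∈ Sp, ¬ q N ∣ p) → g p ≤ 0) :
    ∑ n ∈ (blk (ll ν k₁ k) j).filter (fun n => n ∉ Od ∧ n ∉ Sp), g n ≤
      (2 * M + M') * (κ * 2 ^ ll ν k₁ k / (k : ℝ) ^ 3) * (2 : ℝ) ^ ((-1 + ε) * (k : ℝ)) := by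
  set E := (2 : ℝ) ^ ((-1 + ε) * (k : ℝ)) with hE
  have hE0 : 0 < E := by positivity
  set B := blk (ll ν k₁ k) j with hBdef
  set A := (Icc 2 (2 ^ k)).filter (fun a : ℕ => (a : ℝ) < (2 : ℝ) ^ (ν / 8 * (k : ℝ))) with hA
  have hsw : ∀ n, 0 ≤ sw ν k₀ Sp q n := fun n => sw_nonneg ν k₀ Sp q n
  have hterm : ∀ n a : ℕ, 0 ≤ (if (a ∣ n ∧ n / a ∈ Sp) then
      M' * E * (sw ν k₀ Sp q a / (Real.log ((n / a : ℕ) : ℝ)) ^ 2) else 0) := by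
    intro n a
    have := hsw a
    split_ifs <;> positivity
  have key : ∀ n ∈ B.filter (fun n => n ∉ Od ∧ n ∉ Sp), g n ≤
      (if (¬ n.Prime ∧ ∀ N ∈ Sp, ¬ q N ∣ n) then M * E * sw ν k₀ Sp q n else 0) +
      (if ((∃ N ∈ Sp, q N ∣ n) ∧ ¬ Res ν Sp k n) then M * E * sw ν k₀ Sp q n else 0) +
      ∑ a ∈ A, (if (a ∣ n ∧ n / a ∈ Sp) then
        M' * E * (sw ν k₀ Sp q a / (Real.log ((n / a : ℕ) : ℝ)) ^ 2) else 0) := by
    intro n hn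
    rw [mem_filter] at hn
    obtain ⟨hnB, hnO, hnS⟩ := hn
    obtain ⟨hn1, hn2, hn3, hn4⟩ := blk_mem hc1 hν hνc hj hnB
    have hn0 : n ≠ 0 := by
      have : 0 < 2 ^ k := by positivity
      omega
    have hnE : (n : ℝ) ^ (-1 + ε) ≤ E := rpow_block hε1 hn1
    have h0 := hsw n
    have hgn : g n ≤ M * E * sw ν k₀ Sp q n := by
      calc g n ≤ M * (sw ν k₀ Sp q n * (n : ℝ) ^ (-1 + ε)) := H1 n hn0
        _ ≤ M * (sw ν k₀ Sp q n * E) := by gcongr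
        _ = _ := by ring
    have hsum0 : 0 ≤ ∑ a ∈ A, (if (a ∣ n ∧ n / a ∈ Sp) then
        M' * E * (sw ν k₀ Sp q a / (Real.log ((n / a : ℕ) : ℝ)) ^ 2) else 0) :=
      sum_nonneg (fun a _ => hterm n a)
    have h10 : 0 ≤ (if (¬ n.Prime ∧ ∀ N ∈ Sp, ¬ q N ∣ n) then M * E * sw ν k₀ Sp q n else 0) := by
      split_ifs <;> positivity
    have h20 : 0 ≤ (if ((∃ N ∈ Sp, q N ∣ n) ∧ ¬ Res ν Sp k n) then
        M * E * sw ν k₀ Sp q n else 0) := by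
      split_ifs <;> positivity
    by_cases hres : Res ν Sp k n
    · obtain ⟨N, hN, hNn, hlt⟩ := hres
      have hN0 : N ≠ 0 := (hS.sp_prime N hN).1
      set a := n / N with ha
      have hna : n = a * N := (Nat.div_mul_cancel hNn).symm
      have ha0 : a ≠ 0 := by
        intro h; rw [h] at hna; simp at hna; exact hn0 hna
      have ha1 : a ≠ 1 := by
        intro h; rw [h, one_mul] at hna; exact hnS (hna ▸ hN)
      have hnda : n / a = N := by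
        rw [hna]; exact Nat.mul_div_cancel_left N (Nat.pos_of_ne_zero ha0)
      have hNpos : (0 : ℝ) < N := by exact_mod_cast Nat.pos_of_ne_zero hN0
      have halt : (a : ℝ) < (2 : ℝ) ^ (ν / 8 * (k : ℝ)) := by
        have : (n : ℝ) = a * N := by exact_mod_cast hna
        rw [this] at hlt
        exact lt_of_mul_lt_mul_right hlt hNpos.le
      have haA : a ∈ A := by
        rw [hA, mem_filter, mem_Icc]
        refine ⟨⟨(Nat.two_le_iff a).2 ⟨ha0, ha1⟩, ?_⟩, halt⟩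
        have h5 : (a : ℝ) ≤ (2 : ℝ) ^ (k : ℝ) := by
          refine halt.le.trans ?_
          apply Real.rpow_le_rpow_of_exponent_le (by norm_num)
          have : (0 : ℝ) ≤ k := Nat.cast_nonneg k
          nlinarith
        rw [Real.rpow_natCast] at h5
        exact_mod_cast h5
      have hle : g n ≤ (if (a ∣ n ∧ n / a ∈ Sp) then
          M' * E * (sw ν k₀ Sp q a / (Real.log ((n / a : ℕ) : ℝ)) ^ 2) else 0) := by
        rw [if_pos ⟨⟨N, hna⟩, hnda ▸ hN⟩, hnda]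
        have h6 := H2 a N ha0 hN
        rw [← hna] at h6
        refine h6.trans ?_
        have h7 : (a : ℝ) ^ (-1 + ε) * (N : ℝ) ^ (-1 + ε) = (n : ℝ) ^ (-1 + ε) := by
          rw [← Real.mul_rpow (Nat.cast_nonneg _) (Nat.cast_nonneg _)]
          congr 1
          exact_mod_cast hna.symm
        have h8 := hsw a
        calc M' * (sw ν k₀ Sp q a * (a : ℝ) ^ (-1 + ε) * Bd ε N)
            = M' * (sw ν k₀ Sp q a / (Real.log N) ^ 2) * ((a : ℝ) ^ (-1 + ε) * (N : ℝ) ^ (-1 + ε)) := by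
              unfold Bd; ring
          _ = M' * (sw ν k₀ Sp q a / (Real.log N) ^ 2) * (n : ℝ) ^ (-1 + ε) := by rw [h7]
          _ ≤ M' * (sw ν k₀ Sp q a / (Real.log N) ^ 2) * E :=
              mul_le_mul_of_nonneg_left hnE (by positivity)
          _ = _ := by ring
      have hle2 := single_le_sum (f := fun a => (if (a ∣ n ∧ n / a ∈ Sp) then
        M' * E * (sw ν k₀ Sp q a / (Real.log ((n / a : ℕ) : ℝ)) ^ 2) else 0))
        (fun a _ => hterm n a) haA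
      linarith
    · by_cases hq : ∃ N ∈ Sp, q N ∣ n
      · rw [if_pos (⟨hq, hres⟩ : (∃ N ∈ Sp, q N ∣ n) ∧ ¬ Res ν Sp k n)]
        linarith
      · push Not at hq
        by_cases hp : n.Prime
        · have := H3 n hp hnO hq
          linarith
        · rw [if_pos (⟨hp, hq⟩ : ¬ n.Prime ∧ ∀ N ∈ Sp, ¬ q N ∣ n)]
          linarith
  have hext : ∑ n ∈ B.filter (fun n => n ∉ Od ∧ n ∉ Sp),
      ((if (¬ n.Prime ∧ ∀ N ∈ Sp, ¬ q N ∣ n) then M * E * sw ν k₀ Sp q n else 0) +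
      (if ((∃ N ∈ Sp, q N ∣ n) ∧ ¬ Res ν Sp k n) then M * E * sw ν k₀ Sp q n else 0) +
      ∑ a ∈ A, (if (a ∣ n ∧ n / a ∈ Sp) then
        M' * E * (sw ν k₀ Sp q a / (Real.log ((n / a : ℕ) : ℝ)) ^ 2) else 0)) ≤
      ∑ n ∈ B,
      ((if (¬ n.Prime ∧ ∀ N ∈ Sp, ¬ q N ∣ n) then M * E * sw ν k₀ Sp q n else 0) +
      (if ((∃ N ∈ Sp, q N ∣ n) ∧ ¬ Res ν Sp k n) then M * E * sw ν k₀ Sp q n else 0) +
      ∑ a ∈ A, (if (a ∣ n ∧ n / a ∈ Sp) then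
        M' * E * (sw ν k₀ Sp q a / (Real.log ((n / a : ℕ) : ℝ)) ^ 2) else 0)) := by
    apply sum_le_sum_of_subset_of_nonneg (filter_subset _ _)
    intro n _ _
    have h0 := hsw n
    have hsum0 : 0 ≤ ∑ a ∈ A, (if (a ∣ n ∧ n / a ∈ Sp) then
        M' * E * (sw ν k₀ Sp q a / (Real.log ((n / a : ℕ) : ℝ)) ^ 2) else 0) :=
      sum_nonneg (fun a _ => hterm n a)
    have h10 : 0 ≤ (if (¬ n.Prime ∧ ∀ N ∈ Sp, ¬ q N ∣ n) then M * E * sw ν k₀ Sp q n else 0) := by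
      split_ifs <;> positivity
    have h20 : 0 ≤ (if ((∃ N ∈ Sp, q N ∣ n) ∧ ¬ Res ν Sp k n) then
        M * E * sw ν k₀ Sp q n else 0) := by
      split_ifs <;> positivity
    linarith
  refine ((sum_le_sum key).trans hext).trans ?_
  rw [sum_add_distrib, sum_add_distrib, sum_comm, ← sum_filter, ← sum_filter]
  simp_rw [← sum_filter]
  simp_rw [← mul_sum]
  have hc1' := mul_le_mul_of_nonneg_left hMA (by positivity : 0 ≤ M * E)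
  have hc2' := mul_le_mul_of_nonneg_left hMB (by positivity : 0 ≤ M * E)
  have hc3' := mul_le_mul_of_nonneg_left hMC (by positivity : 0 ≤ M' * E)
  linarith

end

end Pool.Agent.W164.MO.Fin
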