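import Pool.Agent.W164.MO.Fin3

/-!
# MO-FIN, part 4: the block equations
-/

set_option autoImplicit false

open Finset

namespace Pool.Agent.W164.MO.Fin

open Pool.Agent.W164.MO
open Pool.Agent.H932R4.CMO (bw Bd)
open Pool.Agent.W583.MO (cm_mul cm_one cm_prime cm_eq cm_nonneg cm_mono cm_rpow cm_id sw_nonneg)

/-- the index of the block of `n` -/
noncomputable def bi (ν : ℝ) (k₀ k₁ n : ℕ) : ℕ × ℕ :=
  if Nat.log 2 n = k₀ then (k₀, 0) else (Nat.log 2 n, n / 2 ^ ll ν k₁ (Nat.log 2 n))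

/-- the block with index `i` -/
noncomputable def BK (ν : ℝ) (k₀ k₁ : ℕ) (i : ℕ × ℕ) : Finset ℕ :=
  if i.1 = k₀ then Ico (2 ^ k₀) (2 ^ (k₀ + 1)) else blk (ll ν k₁ i.1) i.2

/-- valid indices -/
def Vd (ν : ℝ) (k₀ k₁ : ℕ) (i : ℕ × ℕ) : Prop :=
  i = (k₀, 0) ∨ (k₀ < i.1 ∧ i.2 ∈ idx i.1 (ll ν k₁ i.1))

open Classical in
/-- the part of the block sum which does not depend on the variable of the block -/
noncomputable def RR (ε ν : ℝ) (k₀ k₁ : ℕ) (Od Sp : Set ℕ) (q : ℕ → ℕ) (σ : ℕ → ℝ)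
    (d : ℕ × ℕ → ℝ) (i : ℕ × ℕ) : ℝ :=
  (if i = (k₀, 0) then 1 else 0) +
  (∑ p ∈ (BK ν k₀ k₁ i).filter (fun p => p ∈ Od), σ p * Bd ε p) / 3 +
  ∑ n ∈ (BK ν k₀ k₁ i).filter (fun n => n ∉ Od ∧ n ∉ Sp), cm (vv ε Od Sp q σ (bi ν k₀ k₁) d) n

section

variable {c ν c₁ : ℝ} {k₀ k₁ : ℕ} {Od Sp : Set ℕ} {q : ℕ → ℕ} (hS : Sys c ν c₁ k₀ k₁ Od Sp q)
  {ε : ℝ} {σ : ℕ → ℝ} (hσ : ∀ p, σ p = 1 ∨ σ p = -1)
  (hc : 0 < c) (hc1 : c ≤ 1 / 10) (hν : 0 < ν) (hνc : ν ≤ c / 2) (hk₀ : 3 ≤ k₀)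
  (hε : 0 < ε) (hε1 : ε ≤ 1)
  (hL : ∀ l : ℕ, 2 ^ k₀ ≤ l → 6 * (Real.log l) ^ 2 ≤ (l : ℝ) ^ (ν / 2000))

include hc1 hν hνc in
theorem bi_of_mem {i : ℕ × ℕ} (hi : Vd ν k₀ k₁ i) {n : ℕ} (hn : n ∈ BK ν k₀ k₁ i) :
    bi ν k₀ k₁ n = i := by
  rcases hi with rfl | ⟨hi1, hi2⟩
  · unfold BK at hn
    rw [if_pos rfl, mem_Ico] at hn
    have : Nat.log 2 n = k₀ := (Nat.log_eq_iff (Or.inr ⟨by norm_num, by
      have : 0 < 2 ^ k₀ := by positivity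
      omega⟩)).2 hn
    unfold bi
    rw [if_pos this]
  · unfold BK at hn
    rw [if_neg (by omega)] at hn
    obtain ⟨-, -, h3, h4⟩ := blk_mem hc1 hν hνc hi2 hn
    unfold bi
    rw [h3, if_neg (by omega), h4]

/-- choice of the signs -/
theorem exists_signs (hc1 : c ≤ 1 / 10) (hν : 0 < ν) (hνc : ν ≤ c / 2) (hk₀ : 3 ≤ k₀)
    (hε1 : ε ≤ 1) (k₁ : ℕ) (Od : Set ℕ) : ∃ σ : ℕ → ℝ, (∀ p, σ p = 1 ∨ σ p = -1) ∧
    ∀ i, Vd ν k₀ k₁ i → ∀ s : Finset ℕ, (∀ n, n ∈ s ↔ n ∈ BK ν k₀ k₁ i ∧ n ∈ Od) →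
      |∑ p ∈ s, σ p * Bd ε p| ≤ (2 : ℝ) ^ ((-1 + ε) * (i.1 : ℝ)) := by
  classical
  have h1 : ∀ i : ℕ × ℕ, Vd ν k₀ k₁ i → ∃ σ : ℕ → ℝ, (∀ p, σ p = 1 ∨ σ p = -1) ∧
      |∑ p ∈ (BK ν k₀ k₁ i).filter (fun n => n ∈ Od), σ p * Bd ε p| ≤
        (2 : ℝ) ^ ((-1 + ε) * (i.1 : ℝ)) := by
    intro i hi
    apply signs _ (fun p => Bd ε p) _ (by positivity)
    intro p hp
    refine ⟨Bd_nonneg ε p, ?_⟩
    rw [mem_filter] at hp
    rcases hi with rfl | ⟨hi1, hi2⟩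
    · have h2 := hp.1
      unfold BK at h2
      rw [if_pos rfl, mem_Ico] at h2
      exact Bd_block_upper hε1 hk₀ h2.1
    · have h2 := hp.1
      unfold BK at h2
      rw [if_neg (by omega)] at h2
      exact Bd_block_upper hε1 (by omega) (blk_mem hc1 hν hνc hi2 h2).1
  choose! S hS1 hS2 using h1
  refine ⟨fun p => if Vd ν k₀ k₁ (bi ν k₀ k₁ p) then S (bi ν k₀ k₁ p) p else 1, ?_, ?_⟩
  · intro p
    dsimp only
    split_ifs with h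
    · exact hS1 _ h p
    · exact Or.inl rfl
  · intro i hi s hs
    have hse : s = (BK ν k₀ k₁ i).filter (fun n => n ∈ Od) := by
      ext n; rw [hs n, mem_filter]
    have h2 := hS2 i hi
    rw [hse]
    have : ∑ p ∈ (BK ν k₀ k₁ i).filter (fun n => n ∈ Od),
        (if Vd ν k₀ k₁ (bi ν k₀ k₁ p) then S (bi ν k₀ k₁ p) p else 1) * Bd ε p =
        ∑ p ∈ (BK ν k₀ k₁ i).filter (fun n => n ∈ Od), S i p * Bd ε p := by
      apply sum_congr rfl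
      intro p hp
      have hb := bi_of_mem hc1 hν hνc hi (mem_filter.1 hp).1
      rw [hb, if_pos hi]
    rw [this]
    exact h2

include hS hc hc1 hν hνc hk₀ in
theorem not_Od_of_Sp {N : ℕ} (hN : N ∈ Sp) : N ∉ Od := by
  intro h
  obtain ⟨-, -, -, -, -, -, hqne, -⟩ := sp_facts hS hc hc1 hν hνc hk₀ hN
  obtain ⟨-, hqP, hqN⟩ := hS.sp_prime N hN
  have hNp := (hS.ord N h).1
  rcases (Nat.dvd_prime hNp).1 hqN with h1 | h1
  · exact hqP.one_lt.ne' h1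
  · exact hqne h1

theorem f_zero_of_factor {b : ℕ → ℕ × ℕ} {d : ℕ × ℕ → ℝ} {n p : ℕ} (hn : n ≠ 0) (hp : p.Prime)
    (hpn : p ∣ n) (h1 : p ∉ Od) (h2 : p ∉ q '' Sp) : cm (vv ε Od Sp q σ b d) n = 0 := by
  obtain ⟨m, rfl⟩ := hpn
  have hm : m ≠ 0 := by rintro rfl; simp at hn
  rw [cm_mul _ hp.ne_zero hm, cm_prime _ hp]
  unfold vv
  rw [if_neg h1, if_neg h2, zero_mul]

include hS hc hc1 hν hνc hk₀ in
/-- the function vanishes below `2 ^ (k₀ + 1)` outside `Od` -/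
theorem f_zero_small {b : ℕ → ℕ × ℕ} {d : ℕ × ℕ → ℝ} {n : ℕ} (hn : 2 ≤ n) (hn2 : n < 2 ^ (k₀ + 1))
    (hnO : n ∉ Od) : cm (vv ε Od Sp q σ b d) n = 0 := by
  have hp := Nat.minFac_prime (by omega : n ≠ 1)
  have hpn := Nat.minFac_dvd n
  by_contra hne
  have h12 : n.minFac ∈ Od ∨ n.minFac ∈ q '' Sp := by
    by_contra hcon
    push Not at hcon
    exact hne (f_zero_of_factor (by omega) hp hpn hcon.1 hcon.2)
  have hsp : ∀ p ∈ q '' Sp, 2 ^ (k₀ + 1) ≤ p := by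
    rintro p ⟨N, hN, rfl⟩
    exact (sp_facts hS hc hc1 hν hνc hk₀ hN).2.2.2.2.2.1
  have hge : 2 ^ k₀ ≤ n.minFac := by
    rcases h12 with h | h
    · exact (hS.ord _ h).2
    · exact le_trans (Nat.pow_le_pow_right (by norm_num) (by omega)) (hsp _ h)
  have hprime : n.Prime := by
    by_contra hnp
    have h3 := Nat.minFac_sq_le_self (by omega : 0 < n) hnp
    have h4 : 2 ^ k₀ * 2 ^ k₀ ≤ n := by
      calc 2 ^ k₀ * 2 ^ k₀ ≤ n.minFac * n.minFac := Nat.mul_le_mul hge hge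
        _ = n.minFac ^ 2 := by ring
        _ ≤ n := h3
    have h5 : 2 ^ (k₀ + 1) ≤ 2 ^ k₀ * 2 ^ k₀ := by
      rw [← pow_add]; exact Nat.pow_le_pow_right (by norm_num) (by omega)
    omega
  have hme : n.minFac = n := hprime.minFac_eq
  rw [hme] at h12
  rcases h12 with h | h
  · exact hnO h
  · have := hsp _ h
    omega

include hS hσ hc hc1 hν hνc hk₀ hL in
/-- the block sum -/
theorem block_sum {d : ℕ × ℕ → ℝ} (hd : ∀ i, |d i| ≤ 1) {i : ℕ × ℕ} (hi : Vd ν k₀ k₁ i) :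
    ∑ n ∈ BK ν k₀ k₁ i, cm (vv ε Od Sp q σ (bi ν k₀ k₁) d) n =
      RR ε ν k₀ k₁ Od Sp q σ d i - (if i = (k₀, 0) then 1 else 0) +
        d i * lam ε Od Sp (BK ν k₀ k₁ i) := by
  classical
  have hO : ∑ n ∈ (BK ν k₀ k₁ i).filter (fun n => n ∈ Od), cm (vv ε Od Sp q σ (bi ν k₀ k₁) d) n =
      (∑ p ∈ (BK ν k₀ k₁ i).filter (fun p => p ∈ Od), σ p * Bd ε p) / 3 +
      d i * ∑ n ∈ (BK ν k₀ k₁ i).filter (fun n => n ∈ Od), Bd ε n / 6 := by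
    rw [sum_div, mul_sum, ← sum_add_distrib]
    apply sum_congr rfl
    intro p hp
    rw [mem_filter] at hp
    have hb := bi_of_mem hc1 hν hνc hi hp.1
    rw [cm_prime _ (hS.ord p hp.2).1]
    unfold vv vO
    rw [if_pos hp.2, if_pos hp.2, hb]
    ring
  have hSp : ∑ n ∈ (BK ν k₀ k₁ i).filter (fun n => n ∈ Sp), cm (vv ε Od Sp q σ (bi ν k₀ k₁) d) n =
      d i * ∑ n ∈ (BK ν k₀ k₁ i).filter (fun n => n ∈ Sp), Bd ε n := by
    rw [mul_sum]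
    apply sum_congr rfl
    intro N hN
    rw [mem_filter] at hN
    have hb := bi_of_mem hc1 hν hνc hi hN.1
    rw [f_special hS hσ hc hc1 hν hνc hk₀ hL hd hN.2, hb]
    ring
  have h1 := sum_filter_add_sum_filter_not (BK ν k₀ k₁ i) (fun n => n ∈ Od)
    (fun n => cm (vv ε Od Sp q σ (bi ν k₀ k₁) d) n)
  have h2 := sum_filter_add_sum_filter_not ((BK ν k₀ k₁ i).filter (fun n => n ∉ Od))
    (fun n => n ∈ Sp) (fun n => cm (vv ε Od Sp q σ (bi ν k₀ k₁) d) n)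
  rw [filter_filter, filter_filter] at h2
  have h3 : (BK ν k₀ k₁ i).filter (fun n => n ∉ Od ∧ n ∈ Sp) =
      (BK ν k₀ k₁ i).filter (fun n => n ∈ Sp) := by
    apply filter_congr
    intro n _
    constructor
    · exact fun h => h.2
    · exact fun h => ⟨not_Od_of_Sp hS hc hc1 hν hνc hk₀ h, h⟩
  rw [h3] at h2
  unfold RR lam
  rw [← h1, ← h2, hO, hSp]
  ring

end

end Pool.Agent.W164.MO.Fin
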