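import Pool.Agent.W164.MO.Fin4

/-!
# MO-FIN, part 5: the fixed point
-/

set_option autoImplicit false

open Finset

namespace Pool.Agent.W164.MO.Fin

open Pool.Agent.W164.MO
open Pool.Agent.H932R4.CMO (bw Bd)
open Pool.Agent.W583.MO (cm_mul cm_one cm_prime cm_eq cm_nonneg cm_mono cm_rpow cm_id sw_nonneg)

theorem num1 (C τ : ℝ) (hτ : 0 < τ) : ∃ K : ℕ, ∀ k : ℕ, K ≤ k →
    C * (k : ℝ) ^ 3 ≤ (2 : ℝ) ^ (τ * (k : ℝ)) := by
  have hr : 1 < (2 : ℝ) ^ τ := Real.one_lt_rpow (by norm_num) hτ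
  have h := tendsto_pow_const_div_const_pow_of_one_lt 3 hr
  have hC : 0 < 1 / (|C| + 1) := by positivity
  obtain ⟨K, hK⟩ := Filter.eventually_atTop.1 (h.eventually (gt_mem_nhds hC))
  refine ⟨K, fun k hk => ?_⟩
  have h1 := hK k hk
  have hpos : 0 < ((2 : ℝ) ^ τ) ^ k := by positivity
  rw [div_lt_div_iff₀ hpos (by positivity)] at h1
  have h2 : (2 : ℝ) ^ (τ * (k : ℝ)) = ((2 : ℝ) ^ τ) ^ k := by
    rw [Real.rpow_mul (by norm_num), Real.rpow_natCast]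
  rw [h2]
  have h3 : C ≤ |C| + 1 := by linarith [le_abs_self C]
  have h4 : (0 : ℝ) ≤ (k : ℝ) ^ 3 := by positivity
  nlinarith

theorem num2 (τ : ℝ) (hτ : 0 < τ) : ∃ K : ℕ, ∀ l : ℕ, 2 ^ K ≤ l →
    6 * (Real.log l) ^ 2 ≤ (l : ℝ) ^ τ := by
  have h := (isLittleO_log_rpow_atTop (half_pos hτ)).bound (by norm_num : (0 : ℝ) < 1 / 3)
  obtain ⟨X, hX⟩ := Filter.eventually_atTop.1 h
  obtain ⟨K, hK⟩ := pow_unbounded_of_one_lt (max X 1) (by norm_num : (1 : ℝ) < 2)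
  refine ⟨K, fun l hl => ?_⟩
  have h1 : (2 : ℝ) ^ K ≤ l := by exact_mod_cast hl
  have hlX : X ≤ l := (le_max_left _ _).trans (hK.le.trans h1)
  have hl1 : (1 : ℝ) ≤ l := (le_max_right _ _).trans (hK.le.trans h1)
  have h2 := hX l hlX
  rw [Real.norm_eq_abs, Real.norm_eq_abs, abs_of_nonneg (Real.log_nonneg hl1),
    abs_of_nonneg (by positivity)] at h2
  have h3 : (l : ℝ) ^ τ = ((l : ℝ) ^ (τ / 2)) ^ 2 := by
    rw [← Real.rpow_natCast, ← Real.rpow_mul (by linarith)]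
    congr 1; push_cast; ring
  rw [h3]
  have h4 : 0 ≤ Real.log l := Real.log_nonneg hl1
  have h5 : 0 ≤ (l : ℝ) ^ (τ / 2) := by positivity
  nlinarith

section

variable {c ν c₁ : ℝ} {k₀ k₁ : ℕ} {Od Sp : Set ℕ} {q : ℕ → ℕ} (hS : Sys c ν c₁ k₀ k₁ Od Sp q)
  {ε : ℝ} {σ : ℕ → ℝ} (hσ : ∀ p, σ p = 1 ∨ σ p = -1)
  (hc : 0 < c) (hc1 : c ≤ 1 / 10) (hν : 0 < ν) (hνc : ν ≤ c / 2) (hk₀ : 3 ≤ k₀)
  (hε : 0 < ε) (hε1 : ε ≤ 1)
  (hL : ∀ l : ℕ, 2 ^ k₀ ≤ l → 6 * (Real.log l) ^ 2 ≤ (l : ℝ) ^ (ν / 2000))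
  {κ : ℝ} (hκ0 : 0 ≤ κ) (hκ : 100 * κ ≤ min (1 / 384) (c₁ / 4))
  (hσ2 : ∀ i, Vd ν k₀ k₁ i → ∀ s : Finset ℕ, (∀ n, n ∈ s ↔ n ∈ BK ν k₀ k₁ i ∧ n ∈ Od) →
      |∑ p ∈ s, σ p * Bd ε p| ≤ (2 : ℝ) ^ ((-1 + ε) * (i.1 : ℝ)))
  (hrest : ∀ k j : ℕ, k₀ < k → j ∈ idx k (ll ν k₁ k) → ∀ (g : ℕ → ℝ) (M M' : ℝ), 0 ≤ M → 0 ≤ M' →
    (∀ n : ℕ, n ≠ 0 → g n ≤ M * (sw ν k₀ Sp q n * (n : ℝ) ^ (-1 + ε))) →
    (∀ a N : ℕ, a ≠ 0 → N ∈ Sp → g (a * N) ≤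
      M' * (sw ν k₀ Sp q a * (a : ℝ) ^ (-1 + ε) * Bd ε N)) →
    (∀ p : ℕ, p.Prime → p ∉ Od → (∀ N ∈ Sp, ¬ q N ∣ p) → g p ≤ 0) →
    ∀ s : Finset ℕ, (∀ n, n ∈ s ↔ n ∈ blk (ll ν k₁ k) j ∧ n ∉ Od ∧ n ∉ Sp) → ∑ n ∈ s, g n ≤
      (2 * M + M') * (κ * 2 ^ ll ν k₁ k / (k : ℝ) ^ 3) * (2 : ℝ) ^ ((-1 + ε) * (k : ℝ)))
  (hbig : ∀ k : ℕ, k₀ < k → 4 / (3 * min (1 / 384) (c₁ / 4)) * (k : ℝ) ^ 3 ≤ 2 ^ ll ν k₁ k)
  (hbase : 768 * (k₀ : ℝ) ^ 3 ≤ (2 : ℝ) ^ (ε * (k₀ : ℝ)))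

include hS hσ hc hc1 hν hνc hk₀ hL hrest in
/-- the rest of a block, absolute values -/
theorem rest_abs {d : ℕ × ℕ → ℝ} (hd : ∀ i, |d i| ≤ 1) {b : ℕ → ℕ × ℕ} {k j : ℕ} (hk : k₀ < k)
    (hj : j ∈ idx k (ll ν k₁ k)) (s : Finset ℕ)
    (hs : ∀ n, n ∈ s ↔ n ∈ blk (ll ν k₁ k) j ∧ n ∉ Od ∧ n ∉ Sp) :
    ∑ n ∈ s, |cm (vv ε Od Sp q σ b d) n| ≤
      3 * (κ * 2 ^ ll ν k₁ k / (k : ℝ) ^ 3) * (2 : ℝ) ^ ((-1 + ε) * (k : ℝ)) := by
  have h := hrest k j hk hj (fun n => |cm (vv ε Od Sp q σ b d) n|) 1 1 (by norm_num) (by norm_num)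
    ?_ ?_ ?_ s hs
  · norm_num at h ⊢; exact h
  · intro n hn
    rw [one_mul]
    exact (f_bounds hS hσ hc hc1 hν hνc hk₀ hL hd hd (le_refl 0) (fun i => by simp) n hn).1
  · intro a N ha hN
    have hN0 : N ≠ 0 := (hS.sp_prime N hN).1
    rw [cm_mul _ ha hN0, abs_mul, f_special hS hσ hc hc1 hν hνc hk₀ hL hd hN, one_mul]
    have h1 := (f_bounds (ε := ε) (σ := σ) (b := b) hS hσ hc hc1 hν hνc hk₀ hL hd hd (le_refl 0)
      (fun i => by simp) a ha).1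
    have h2 : |Bd ε N * d (b N)| ≤ Bd ε N := by
      rw [abs_mul, abs_of_nonneg (Bd_nonneg ε N)]
      calc Bd ε N * |d (b N)| ≤ Bd ε N * 1 := mul_le_mul_of_nonneg_left (hd _) (Bd_nonneg ε N)
        _ = _ := mul_one _
    exact mul_le_mul h1 h2 (abs_nonneg _) ((abs_nonneg _).trans h1)
  · intro p hp hpO hq
    rw [cm_prime _ hp]
    have : p ∉ q '' Sp := by
      rintro ⟨N, hN, rfl⟩
      exact hq N hN (dvd_refl _)
    unfold vv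
    rw [if_neg hpO, if_neg this, abs_zero]

include hS hσ hc hc1 hν hνc hk₀ hL hrest in
/-- the rest of a block, differences -/
theorem rest_sub {d d' : ℕ × ℕ → ℝ} (hd : ∀ i, |d i| ≤ 1) (hd' : ∀ i, |d' i| ≤ 1) {D : ℝ}
    (hD : 0 ≤ D) (hdd : ∀ i, |d i - d' i| ≤ D) {b : ℕ → ℕ × ℕ} {k j : ℕ} (hk : k₀ < k)
    (hj : j ∈ idx k (ll ν k₁ k)) (s : Finset ℕ)
    (hs : ∀ n, n ∈ s ↔ n ∈ blk (ll ν k₁ k) j ∧ n ∉ Od ∧ n ∉ Sp) :
    ∑ n ∈ s, |cm (vv ε Od Sp q σ b d) n - cm (vv ε Od Sp q σ b d') n| ≤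
      4 * D * (κ * 2 ^ ll ν k₁ k / (k : ℝ) ^ 3) * (2 : ℝ) ^ ((-1 + ε) * (k : ℝ)) := by
  have h := hrest k j hk hj
    (fun n => |cm (vv ε Od Sp q σ b d) n - cm (vv ε Od Sp q σ b d') n|) D (2 * D) hD (by linarith)
    ?_ ?_ ?_ s hs
  · have e : 2 * D + 2 * D = 4 * D := by ring
    rw [e] at h
    exact h
  · intro n hn
    exact (f_bounds hS hσ hc hc1 hν hνc hk₀ hL hd hd' hD hdd n hn).2
  · intro a N ha hN
    have hN0 : N ≠ 0 := (hS.sp_prime N hN).1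
    rw [cm_mul _ ha hN0, cm_mul _ ha hN0]
    have h1 := f_bounds (ε := ε) (σ := σ) (b := b) hS hσ hc hc1 hν hνc hk₀ hL hd hd' hD hdd a ha
    have h1' := f_bounds (ε := ε) (σ := σ) (b := b) hS hσ hc hc1 hν hνc hk₀ hL hd' hd' hD
      (fun i => by simpa using hD) a ha
    have e1 := f_special (ε := ε) (b := b) hS hσ hc hc1 hν hνc hk₀ hL hd hN
    have e2 := f_special (ε := ε) (b := b) hS hσ hc hc1 hν hνc hk₀ hL hd' hN
    set x := cm (vv ε Od Sp q σ b d) a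
    set x' := cm (vv ε Od Sp q σ b d') a
    rw [e1, e2]
    have hB := Bd_nonneg ε N
    have e3 : x * (Bd ε N * d (b N)) - x' * (Bd ε N * d' (b N)) =
        (x - x') * (Bd ε N * d (b N)) + x' * (Bd ε N * (d (b N) - d' (b N))) := by ring
    rw [e3]
    set W := sw ν k₀ Sp q a * (a : ℝ) ^ (-1 + ε)
    have hW : 0 ≤ W := (abs_nonneg _).trans h1.1
    have h3 : |(x - x') * (Bd ε N * d (b N))| ≤ (D * W) * (Bd ε N * 1) := by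
      rw [abs_mul, abs_mul, abs_of_nonneg hB]
      exact mul_le_mul h1.2 (mul_le_mul_of_nonneg_left (hd _) hB) (by positivity) (by positivity)
    have h4 : |x' * (Bd ε N * (d (b N) - d' (b N)))| ≤ W * (Bd ε N * D) := by
      rw [abs_mul, abs_mul, abs_of_nonneg hB]
      exact mul_le_mul h1'.1 (mul_le_mul_of_nonneg_left (hdd _) hB) (by positivity) hW
    calc |(x - x') * (Bd ε N * d (b N)) + x' * (Bd ε N * (d (b N) - d' (b N)))|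
        ≤ (D * W) * (Bd ε N * 1) + W * (Bd ε N * D) := (abs_add_le _ _).trans (add_le_add h3 h4)
      _ = _ := by ring
  · intro p hp hpO hq
    rw [cm_prime _ hp, cm_prime _ hp]
    have : p ∉ q '' Sp := by
      rintro ⟨N, hN, rfl⟩
      exact hq N hN (dvd_refl _)
    unfold vv
    rw [if_neg hpO, if_neg this, if_neg hpO, if_neg this]
    simp

include hS hk₀ hε hε1 hbase in
theorem lam_base : 2 ≤ lam ε Od Sp (BK ν k₀ k₁ (k₀, 0)) := by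
  classical
  unfold BK lam
  rw [if_pos rfl]
  have hk0 : (0 : ℝ) < k₀ := by exact_mod_cast (by omega : 0 < k₀)
  set E := (2 : ℝ) ^ ((-1 + ε) * (k₀ : ℝ)) with hE
  have hE0 : 0 < E := by positivity
  have h2 : 0 ≤ ∑ n ∈ (Ico (2 ^ k₀) (2 ^ (k₀ + 1))).filter (fun n => n ∈ Sp), Bd ε n :=
    sum_nonneg (fun n _ => Bd_nonneg ε n)
  have h1 : (((Ico (2 ^ k₀) (2 ^ (k₀ + 1))).filter (fun p => p ∈ Od)).card : ℝ) *
      (E / (4 * (k₀ : ℝ) ^ 2) / 6) ≤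
      ∑ n ∈ (Ico (2 ^ k₀) (2 ^ (k₀ + 1))).filter (fun n => n ∈ Od), Bd ε n / 6 := by
    rw [← nsmul_eq_mul]
    apply card_nsmul_le_sum
    intro n hn
    rw [mem_filter, mem_Ico] at hn
    have := Bd_block_lower hε hε1 hk₀ hn.1.1 hn.1.2
    linarith
  have hcard : (2 : ℝ) ^ k₀ ≤
      16 * k₀ * (((Ico (2 ^ k₀) (2 ^ (k₀ + 1))).filter (fun p => p ∈ Od)).card : ℝ) := by
    exact_mod_cast hS.base
  have h3 : (2 : ℝ) ^ k₀ / (16 * k₀) ≤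
      (((Ico (2 ^ k₀) (2 ^ (k₀ + 1))).filter (fun p => p ∈ Od)).card : ℝ) := by
    rw [div_le_iff₀ (by positivity)]
    linarith
  have h4 := mul_le_mul_of_nonneg_right h3 (by positivity : 0 ≤ E / (4 * (k₀ : ℝ) ^ 2) / 6)
  have h5 : (2 : ℝ) ^ k₀ * E = (2 : ℝ) ^ (ε * (k₀ : ℝ)) := by
    rw [hE, ← Real.rpow_natCast, ← Real.rpow_add (by norm_num)]
    congr 1; ring
  have h6 : (2 : ℝ) ^ k₀ / (16 * (k₀ : ℝ)) * (E / (4 * (k₀ : ℝ) ^ 2) / 6) =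
      (2 : ℝ) ^ (ε * (k₀ : ℝ)) / (384 * (k₀ : ℝ) ^ 3) := by
    rw [← h5]
    field_simp
    norm_num
  have h7 : 2 ≤ (2 : ℝ) ^ (ε * (k₀ : ℝ)) / (384 * (k₀ : ℝ) ^ 3) := by
    rw [le_div_iff₀ (by positivity)]
    linarith
  linarith

include hS hσ hc hc1 hν hνc hk₀ hε hε1 hL hκ0 hκ hσ2 hrest hbig hbase in
/-- bounds for `RR` -/
theorem RR_bounds {i : ℕ × ℕ} (hi : Vd ν k₀ k₁ i) (hc₁ : 0 < c₁) :
    0 < lam ε Od Sp (BK ν k₀ k₁ i) ∧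
    (∀ d : ℕ × ℕ → ℝ, (∀ i, |d i| ≤ 1) →
      |RR ε ν k₀ k₁ Od Sp q σ d i| ≤ lam ε Od Sp (BK ν k₀ k₁ i)) ∧
    (∀ d d' : ℕ × ℕ → ℝ, (∀ i, |d i| ≤ 1) → (∀ i, |d' i| ≤ 1) → ∀ D : ℝ, 0 ≤ D →
      (∀ i, |d i - d' i| ≤ D) →
      |RR ε ν k₀ k₁ Od Sp q σ d i - RR ε ν k₀ k₁ Od Sp q σ d' i| ≤
        lam ε Od Sp (BK ν k₀ k₁ i) * (D / 2)) := by
  classical
  have hs0 := hσ2 i hi ((BK ν k₀ k₁ i).filter (fun p => p ∈ Od)) (fun n => mem_filter)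
  have hi' := hi
  rcases hi with rfl | ⟨hi1, hi2⟩
  · have hlam := lam_base (ν := ν) hS hk₀ hε hε1 hbase
    have hz : ∀ d : ℕ × ℕ → ℝ, ∑ n ∈ (BK ν k₀ k₁ (k₀, 0)).filter (fun n => n ∉ Od ∧ n ∉ Sp),
        cm (vv ε Od Sp q σ (bi ν k₀ k₁) d) n = 0 := by
      intro d
      apply sum_eq_zero
      intro n hn
      unfold BK at hn
      rw [if_pos rfl, mem_filter, mem_Ico] at hn
      have h8 : 2 ^ 3 ≤ 2 ^ k₀ := Nat.pow_le_pow_right (by norm_num) hk₀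
      exact f_zero_small hS hc hc1 hν hνc hk₀ (by omega) hn.1.2 hn.2.1
    have hE1 : (2 : ℝ) ^ ((-1 + ε) * (k₀ : ℝ)) ≤ 1 := by
      apply Real.rpow_le_one_of_one_le_of_nonpos (by norm_num)
      have : (0 : ℝ) ≤ k₀ := Nat.cast_nonneg _
      nlinarith
    have hRR : ∀ d : ℕ × ℕ → ℝ, RR ε ν k₀ k₁ Od Sp q σ d (k₀, 0) =
        1 + (∑ p ∈ (BK ν k₀ k₁ (k₀, 0)).filter (fun p => p ∈ Od), σ p * Bd ε p) / 3 := by
      intro d
      unfold RR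
      rw [hz d, if_pos rfl, add_zero]
    refine ⟨by linarith, ?_, ?_⟩
    · intro d hd
      rw [hRR d]
      have h1 := hs0
      rw [abs_le] at h1 ⊢
      simp only at hE1 h1
      constructor <;> linarith
    · intro d d' hd hd' D hD hdd
      rw [hRR d, hRR d', sub_self, abs_zero]
      apply mul_nonneg (by linarith) (by linarith)
  · have hlow := lam_lower hS hc1 hν hνc hk₀ hε hε1 hi1 hi2
    have hBK : BK ν k₀ k₁ i = blk (ll ν k₁ i.1) i.2 := by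
      unfold BK; rw [if_neg (by omega)]
    rw [hBK] at hs0 ⊢
    have hne : i ≠ (k₀, 0) := by
      intro h; rw [h] at hi1; simp at hi1
    have hk0 : (0 : ℝ) < i.1 := by exact_mod_cast (by omega : 0 < i.1)
    have hc3 : 0 < min (1 / 384 : ℝ) (c₁ / 4) := lt_min (by norm_num) (by positivity)
    set c₃ := min (1 / 384 : ℝ) (c₁ / 4) with hc₃
    set E := (2 : ℝ) ^ ((-1 + ε) * (i.1 : ℝ)) with hE
    have hE0 : 0 < E := by positivity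
    set T := (2 : ℝ) ^ ll ν k₁ i.1 / (i.1 : ℝ) ^ 3 * E with hT
    have hT0 : 0 < T := by positivity
    have hlow' : c₃ * T ≤ lam ε Od Sp (blk (ll ν k₁ i.1) i.2) := by
      have : c₃ * T = c₃ * 2 ^ ll ν k₁ i.1 / (i.1 : ℝ) ^ 3 * E := by rw [hT]; ring
      rw [this]; exact hlow
    have hEs : E ≤ 3 / 4 * (c₃ * T) := by
      have h1 := hbig i.1 hi1
      rw [div_mul_eq_mul_div, div_le_iff₀ (by positivity)] at h1
      have h2 : 1 ≤ 3 / 4 * (c₃ * ((2 : ℝ) ^ ll ν k₁ i.1 / (i.1 : ℝ) ^ 3)) := by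
        rw [show 3 / 4 * (c₃ * ((2 : ℝ) ^ ll ν k₁ i.1 / (i.1 : ℝ) ^ 3)) =
          (3 / 4 * (c₃ * (2 : ℝ) ^ ll ν k₁ i.1)) / (i.1 : ℝ) ^ 3 by ring, le_div_iff₀ (by positivity)]
        linarith
      calc E = 1 * E := (one_mul _).symm
        _ ≤ (3 / 4 * (c₃ * ((2 : ℝ) ^ ll ν k₁ i.1 / (i.1 : ℝ) ^ 3))) * E :=
          mul_le_mul_of_nonneg_right h2 hE0.le
        _ = _ := by rw [hT]; ring
    refine ⟨lt_of_lt_of_le (by positivity) hlow', ?_, ?_⟩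
    · intro d hd
      have h1 := rest_abs (b := bi ν k₀ k₁) hS hσ hc hc1 hν hνc hk₀ hL hrest hd hi1 hi2
        ((blk (ll ν k₁ i.1) i.2).filter (fun n => n ∉ Od ∧ n ∉ Sp)) (fun n => mem_filter)
      have h2 := abs_sum_le_sum_abs (fun n => cm (vv ε Od Sp q σ (bi ν k₀ k₁) d) n)
        ((blk (ll ν k₁ i.1) i.2).filter (fun n => n ∉ Od ∧ n ∉ Sp))
      have h3 : 3 * (κ * 2 ^ ll ν k₁ i.1 / (i.1 : ℝ) ^ 3) * E = 3 * (κ * T) := by rw [hT]; ring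
      rw [h3] at h1
      have h4 : 100 * (κ * T) ≤ c₃ * T := by
        have := mul_le_mul_of_nonneg_right hκ hT0.le
        linarith
      unfold RR
      rw [hBK, if_neg hne, zero_add]
      have h5 := h2.trans h1
      rw [abs_le] at h5 hs0 ⊢
      have h6 : 0 ≤ κ * T := by positivity
      constructor <;> linarith
    · intro d d' hd hd' D hD hdd
      have h1 := rest_sub (b := bi ν k₀ k₁) hS hσ hc hc1 hν hνc hk₀ hL hrest hd hd' hD hdd hi1 hi2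
        ((blk (ll ν k₁ i.1) i.2).filter (fun n => n ∉ Od ∧ n ∉ Sp)) (fun n => mem_filter)
      have h2 := abs_sum_le_sum_abs (fun n => cm (vv ε Od Sp q σ (bi ν k₀ k₁) d) n -
        cm (vv ε Od Sp q σ (bi ν k₀ k₁) d') n)
        ((blk (ll ν k₁ i.1) i.2).filter (fun n => n ∉ Od ∧ n ∉ Sp))
      have h3 : 4 * D * (κ * 2 ^ ll ν k₁ i.1 / (i.1 : ℝ) ^ 3) * E = 4 * D * (κ * T) := by
        rw [hT]; ring
      rw [h3] at h1
      have h4 : 100 * (κ * T) ≤ c₃ * T := by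
        have := mul_le_mul_of_nonneg_right hκ hT0.le
        linarith
      unfold RR
      rw [hBK, if_neg hne]
      have e1 : ∀ a b x : ℝ, 0 + a + x - (0 + a + b) = x - b := by intro a b x; ring
      rw [e1, ← sum_sub_distrib]
      refine (h2.trans h1).trans ?_
      have h6 : 0 ≤ κ * T := by positivity
      have h7 : D * (κ * T) * 100 ≤ D * (c₃ * T) := by
        have := mul_le_mul_of_nonneg_left h4 hD
        linarith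
      have h8 : D * (c₃ * T) ≤ D * lam ε Od Sp (blk (ll ν k₁ i.1) i.2) :=
        mul_le_mul_of_nonneg_left hlow' hD
      have h9 : 0 ≤ D * (κ * T) := by positivity
      linarith

include hS hσ hc hc1 hν hνc hk₀ hε hε1 hL hκ0 hκ hσ2 hrest hbig hbase in
/-- the fixed point -/
theorem exists_fix (hc₁ : 0 < c₁) : ∃ d : ℕ × ℕ → ℝ, (∀ i, |d i| ≤ 1) ∧
    ∀ i, Vd ν k₀ k₁ i → ∑ n ∈ BK ν k₀ k₁ i, cm (vv ε Od Sp q σ (bi ν k₀ k₁) d) n =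
      - (if i = (k₀, 0) then 1 else 0) := by
  classical
  obtain ⟨d, hd, hfix⟩ := Pool.Agent.W366.MO.fp (ℕ × ℕ)
    (fun d i => if Vd ν k₀ k₁ i then - RR ε ν k₀ k₁ Od Sp q σ d i / lam ε Od Sp (BK ν k₀ k₁ i) else 0)
    (by
      intro d hd i
      split_ifs with hi
      · obtain ⟨h1, h2, -⟩ := RR_bounds hS hσ hc hc1 hν hνc hk₀ hε hε1 hL hκ0 hκ hσ2 hrest hbig
          hbase hi hc₁
        rw [abs_div, abs_neg, abs_of_pos h1, div_le_one h1]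
        exact h2 d hd
      · simp)
    (by
      intro d d' hd hd' D hD hdd i
      split_ifs with hi
      · obtain ⟨h1, -, h3⟩ := RR_bounds hS hσ hc hc1 hν hνc hk₀ hε hε1 hL hκ0 hκ hσ2 hrest hbig
          hbase hi hc₁
        rw [← sub_div, abs_div, abs_of_pos h1, div_le_iff₀ h1]
        have h4 := h3 d d' hd hd' D hD hdd
        have e : - RR ε ν k₀ k₁ Od Sp q σ d i - - RR ε ν k₀ k₁ Od Sp q σ d' i =
          -(RR ε ν k₀ k₁ Od Sp q σ d i - RR ε ν k₀ k₁ Od Sp q σ d' i) := by ring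
        rw [e, abs_neg]
        linarith
      · simp; linarith)
  refine ⟨d, hd, fun i hi => ?_⟩
  rw [block_sum hS hσ hc hc1 hν hνc hk₀ hL hd hi]
  have h1 := hfix i
  rw [if_pos hi] at h1
  obtain ⟨h2, -, -⟩ := RR_bounds hS hσ hc hc1 hν hνc hk₀ hε hε1 hL hκ0 hκ hσ2 hrest hbig
    hbase hi hc₁
  have h3 : d i * lam ε Od Sp (BK ν k₀ k₁ i) = - RR ε ν k₀ k₁ Od Sp q σ d i := by
    rw [← h1]
    field_simp
  rw [h3]
  ring

end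

end Pool.Agent.W164.MO.Fin
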