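import Pool.Agent.W164.MO.Fin5

/-!
# MO-FIN, part 6: the function
-/

set_option autoImplicit false

open Finset

namespace Pool.Agent.W164.MO.Fin

open Pool.Agent.W164.MO
open Pool.Agent.H932R4.CMO (bw Bd)
open Pool.Agent.W583.MO (cm_mul cm_one cm_prime cm_eq cm_nonneg cm_mono cm_rpow cm_id sw_nonneg)

/-- the function with `f 0 = 0` -/
noncomputable def FF (v : ℕ → ℝ) (n : ℕ) : ℝ := if n = 0 then 0 else cm v n

theorem FF_pos (v : ℕ → ℝ) {n : ℕ} (hn : n ≠ 0) : FF v n = cm v n := if_neg hn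

theorem FF_mul (v : ℕ → ℝ) (m n : ℕ) : FF v (m * n) = FF v m * FF v n := by
  unfold FF
  by_cases hm : m = 0
  · simp [hm]
  by_cases hn : n = 0
  · simp [hn]
  rw [if_neg (Nat.mul_ne_zero hm hn), if_neg hm, if_neg hn, cm_mul v hm hn]

section

variable {c ν c₁ : ℝ} {k₀ k₁ : ℕ} {Od Sp : Set ℕ} {q : ℕ → ℕ} (hS : Sys c ν c₁ k₀ k₁ Od Sp q)
  {ε : ℝ} {σ : ℕ → ℝ} (hσ : ∀ p, σ p = 1 ∨ σ p = -1)
  (hc : 0 < c) (hc1 : c ≤ 1 / 10) (hν : 0 < ν) (hνc : ν ≤ c / 2) (hk₀ : 3 ≤ k₀)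
  (hε : 0 < ε) (hε1 : ε ≤ 1)
  (hL : ∀ l : ℕ, 2 ^ k₀ ≤ l → 6 * (Real.log l) ^ 2 ≤ (l : ℝ) ^ (ν / 2000))

include hS hc hc1 hν hνc hk₀ in
theorem psum_base {d : ℕ × ℕ → ℝ}
    (hsum : ∀ i, Vd ν k₀ k₁ i → ∑ n ∈ BK ν k₀ k₁ i, cm (vv ε Od Sp q σ (bi ν k₀ k₁) d) n =
      - (if i = (k₀, 0) then 1 else 0)) :
    ∑ n ∈ range (2 ^ (k₀ + 1)), FF (vv ε Od Sp q σ (bi ν k₀ k₁) d) n = 0 := by
  set f := FF (vv ε Od Sp q σ (bi ν k₀ k₁) d) with hf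
  have h8 : 2 ^ 3 ≤ 2 ^ k₀ := Nat.pow_le_pow_right (by norm_num) hk₀
  have h9 : 2 ^ (k₀ + 1) = 2 * 2 ^ k₀ := by ring
  have h1 : ∑ n ∈ range (2 ^ (k₀ + 1)), f n = ∑ n ∈ range (2 ^ k₀), f n +
      ∑ n ∈ Ico (2 ^ k₀) (2 ^ (k₀ + 1)), f n := by
    rw [sum_range_add_sum_Ico _ (by omega)]
  have h2 : ∑ n ∈ range (2 ^ k₀), f n = ∑ n ∈ range 2, f n + ∑ n ∈ Ico 2 (2 ^ k₀), f n := by
    rw [sum_range_add_sum_Ico _ (by omega)]
  have h3 : ∑ n ∈ range 2, f n = 1 := by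
    rw [sum_range_succ, sum_range_succ, sum_range_zero]
    rw [hf, FF_pos _ one_ne_zero, cm_one]
    unfold FF
    rw [if_pos rfl]
    norm_num
  have h4 : ∑ n ∈ Ico 2 (2 ^ k₀), f n = 0 := by
    apply sum_eq_zero
    intro n hn
    rw [mem_Ico] at hn
    rw [hf, FF_pos _ (by omega)]
    refine f_zero_small hS hc hc1 hν hνc hk₀ hn.1 (by omega) (fun h => ?_)
    have := (hS.ord n h).2
    omega
  have h5 : ∑ n ∈ Ico (2 ^ k₀) (2 ^ (k₀ + 1)), f n = -1 := by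
    have h6 := hsum (k₀, 0) (Or.inl rfl)
    rw [if_pos rfl] at h6
    unfold BK at h6
    rw [if_pos rfl] at h6
    rw [← h6]
    apply sum_congr rfl
    intro n hn
    rw [mem_Ico] at hn
    rw [hf, FF_pos _ (by omega)]
  rw [h1, h2, h3, h4, h5]
  norm_num

include hc1 hν hνc in
theorem psum_step {d : ℕ × ℕ → ℝ}
    (hsum : ∀ i, Vd ν k₀ k₁ i → ∑ n ∈ BK ν k₀ k₁ i, cm (vv ε Od Sp q σ (bi ν k₀ k₁) d) n =
      - (if i = (k₀, 0) then 1 else 0)) {k : ℕ} (hk : k₀ < k)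
    (h0 : ∑ n ∈ range (2 ^ k), FF (vv ε Od Sp q σ (bi ν k₀ k₁) d) n = 0) (t : ℕ)
    (ht : t ≤ 2 ^ (k - ll ν k₁ k)) :
    ∑ n ∈ range ((2 ^ (k - ll ν k₁ k) + t) * 2 ^ ll ν k₁ k),
      FF (vv ε Od Sp q σ (bi ν k₀ k₁) d) n = 0 := by
  have hl : ll ν k₁ k ≤ k := Pool.Agent.W402.MO.ll_le hν (by linarith) k₁ k
  set l := ll ν k₁ k with hldef
  induction t with
  | zero =>
    rw [add_zero, ← pow_add, Nat.sub_add_cancel hl]
    exact h0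
  | succ t ih =>
    have h1 := ih (by omega)
    have h2 : (2 ^ (k - l) + t) * 2 ^ l ≤ (2 ^ (k - l) + (t + 1)) * 2 ^ l :=
      Nat.mul_le_mul_right _ (by omega)
    rw [← sum_range_add_sum_Ico _ h2, h1, zero_add]
    have hj : 2 ^ (k - l) + t ∈ idx k l := by
      unfold idx
      rw [mem_Ico, pow_succ]
      omega
    have hV : Vd ν k₀ k₁ (k, 2 ^ (k - l) + t) := Or.inr ⟨hk, by rw [← hldef]; exact hj⟩
    have h3 := hsum _ hV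
    have hne : (k, 2 ^ (k - l) + t) ≠ (k₀, 0) := by
      intro h
      have := congrArg Prod.fst h
      simp only at this
      omega
    rw [if_neg hne, neg_zero] at h3
    unfold BK at h3
    rw [if_neg (by simp only; omega)] at h3
    rw [← h3]
    have h4 : Ico ((2 ^ (k - l) + t) * 2 ^ l) ((2 ^ (k - l) + (t + 1)) * 2 ^ l) =
        blk l (2 ^ (k - l) + t) := by
      unfold blk
      rfl
    rw [h4]
    apply sum_congr rfl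
    intro n hn
    have h5 := blk_mem (k₁ := k₁) hc1 hν hνc hj hn
    have h6 : 0 < 2 ^ k := by positivity
    rw [FF_pos _ (by omega)]

include hS hc hc1 hν hνc hk₀ in
theorem psum_pow {d : ℕ × ℕ → ℝ}
    (hsum : ∀ i, Vd ν k₀ k₁ i → ∑ n ∈ BK ν k₀ k₁ i, cm (vv ε Od Sp q σ (bi ν k₀ k₁) d) n =
      - (if i = (k₀, 0) then 1 else 0)) {k : ℕ} (hk : k₀ < k) :
    ∑ n ∈ range (2 ^ k), FF (vv ε Od Sp q σ (bi ν k₀ k₁) d) n = 0 := by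
  induction k, hk using Nat.le_induction with
  | base => exact psum_base hS hc hc1 hν hνc hk₀ hsum
  | succ k hk ih =>
    have hl : ll ν k₁ k ≤ k := Pool.Agent.W402.MO.ll_le hν (by linarith) k₁ k
    have h1 := psum_step hc1 hν hνc hsum hk ih _ (le_refl _)
    have h2 : (2 ^ (k - ll ν k₁ k) + 2 ^ (k - ll ν k₁ k)) * 2 ^ ll ν k₁ k = 2 ^ (k + 1) := by
      rw [← two_mul, mul_assoc, ← pow_add, Nat.sub_add_cancel hl]; ring
    rw [h2] at h1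
    exact h1

include hS hc hc1 hν hνc hk₀ in
theorem psum_le {d : ℕ × ℕ → ℝ}
    (hsum : ∀ i, Vd ν k₀ k₁ i → ∑ n ∈ BK ν k₀ k₁ i, cm (vv ε Od Sp q σ (bi ν k₀ k₁) d) n =
      - (if i = (k₀, 0) then 1 else 0)) {x : ℕ} (hx0 : x ≠ 0) (hx : k₀ < Nat.log 2 x) :
    |∑ n ∈ range x, FF (vv ε Od Sp q σ (bi ν k₀ k₁) d) n| ≤
      ∑ n ∈ blk (ll ν k₁ (Nat.log 2 x)) (x / 2 ^ ll ν k₁ (Nat.log 2 x)),
        |cm (vv ε Od Sp q σ (bi ν k₀ k₁) d) n| := by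
  set k := Nat.log 2 x with hk
  have hl : ll ν k₁ k ≤ k := Pool.Agent.W402.MO.ll_le hν (by linarith) k₁ k
  set l := ll ν k₁ k with hldef
  have hj : x / 2 ^ l ∈ idx k l := Pool.Agent.W402.MO.mem_idx_self hx0 hl
  have h0 := psum_pow hS hc hc1 hν hνc hk₀ hsum hx
  have hj' := hj
  unfold idx at hj'
  rw [mem_Ico, pow_succ] at hj'
  have h1 := psum_step hc1 hν hνc hsum hx h0 (x / 2 ^ l - 2 ^ (k - l))
    (by rw [← hldef]; omega)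
  rw [← hldef, Nat.add_sub_cancel' hj'.1] at h1
  have h2 : x / 2 ^ l * 2 ^ l ≤ x := Nat.div_mul_le_self x (2 ^ l)
  rw [← sum_range_add_sum_Ico _ h2, h1, zero_add]
  refine (abs_sum_le_sum_abs _ _).trans ?_
  have h3 : ∑ n ∈ Ico (x / 2 ^ l * 2 ^ l) x, |FF (vv ε Od Sp q σ (bi ν k₀ k₁) d) n| =
      ∑ n ∈ Ico (x / 2 ^ l * 2 ^ l) x, |cm (vv ε Od Sp q σ (bi ν k₀ k₁) d) n| := by
    apply sum_congr rfl
    intro n hn
    rw [mem_Ico] at hn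
    have h4 := Pool.Agent.W402.MO.blk_low hl hj
    have h6 : 0 < 2 ^ k := by positivity
    rw [FF_pos _ (by omega)]
  rw [h3]
  apply sum_le_sum_of_subset_of_nonneg
  · intro n hn
    rw [mem_Ico] at hn
    unfold blk
    rw [mem_Ico]
    refine ⟨hn.1, hn.2.trans ?_⟩
    have h5 := Nat.lt_div_mul_add (a := x) (b := 2 ^ l) (by positivity)
    rw [add_mul, one_mul]
    exact h5
  · intro n _ _
    exact abs_nonneg _

/-- numerical estimate -/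
theorem num3 {η : ℝ} (hη : 0 < η) (hη1 : η ≤ 1 / 2) {k n : ℕ} (hn : 1 ≤ n) (hn2 : n < 2 ^ (k + 1)) :
    (2 : ℝ) ^ (-(1 / 2 + η) * (k : ℝ)) ≤ 2 * (n : ℝ) ^ (-(1 / 2) - η) := by
  have hn0 : (0 : ℝ) < n := by exact_mod_cast hn
  have h1 : (n : ℝ) ≤ (2 : ℝ) ^ (k + 1) := by exact_mod_cast hn2.le
  have h2 : ((2 : ℝ) ^ (k + 1)) ^ (-(1 / 2) - η) ≤ (n : ℝ) ^ (-(1 / 2) - η) :=
    Real.rpow_le_rpow_of_nonpos hn0 h1 (by linarith)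
  have h3 : ((2 : ℝ) ^ (k + 1)) ^ (-(1 / 2) - η) =
      (2 : ℝ) ^ (-(1 / 2 + η) * (k : ℝ)) * (2 : ℝ) ^ (-(1 / 2 + η)) := by
    rw [← Real.rpow_natCast, ← Real.rpow_mul (by norm_num), ← Real.rpow_add (by norm_num)]
    congr 1; push_cast; ring
  have h4 : (2 : ℝ) ^ (-1 : ℝ) ≤ (2 : ℝ) ^ (-(1 / 2 + η)) :=
    Real.rpow_le_rpow_of_exponent_le (by norm_num) (by linarith)
  rw [Real.rpow_neg_one] at h4
  have h5 : 0 < (2 : ℝ) ^ (-(1 / 2 + η) * (k : ℝ)) := by positivity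
  have h6 : (2 : ℝ) ^ (-(1 / 2 + η) * (k : ℝ)) * (2 : ℝ)⁻¹ ≤
      (2 : ℝ) ^ (-(1 / 2 + η) * (k : ℝ)) * (2 : ℝ) ^ (-(1 / 2 + η)) :=
    mul_le_mul_of_nonneg_left h4 h5.le
  linarith

end

end Pool.Agent.W164.MO.Fin
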