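import Pool.Agent.W164.MO.Fin6

/-!
# MO-FIN, part 7: the assembly `S_FIN`
-/

set_option autoImplicit false

open Finset

namespace Pool.Agent.W164.MO.Fin

open Pool.Agent.W164.MO
open Pool.Agent.H932R4.CMO (bw Bd)
open Pool.Agent.W583.MO (cm_mul cm_one cm_prime cm_eq cm_nonneg cm_mono cm_rpow cm_id sw_nonneg)

theorem WW_le_one {c ν c₁ : ℝ} {k₀ k₁ : ℕ} {Od Sp : Set ℕ} {q : ℕ → ℕ} {ε : ℝ}
    (hν : 0 < ν) (hν1 : ν ≤ 1) (hk₀ : 3 ≤ k₀)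
    (hε : ε = ν / 2000) {p : ℕ} (hp : p.Prime) : WW ε ν k₀ Sp q p ≤ 1 := by
  classical
  have hp1 : (1 : ℝ) ≤ p := by exact_mod_cast hp.one_lt.le
  have hp0 : (0 : ℝ) < p := by linarith
  unfold WW wt
  split_ifs with h1 h2
  · rw [← Real.rpow_add hp0]
    apply Real.rpow_le_one_of_one_le_of_nonpos hp1
    rw [hε]; linarith
  · have h3 := two_le_log hk₀ h2
    have h4 : (p : ℝ) ^ (-1 + ε) ≤ 1 := by
      apply Real.rpow_le_one_of_one_le_of_nonpos hp1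
      rw [hε]; linarith
    have h5 : 1 / (Real.log p) ^ 2 ≤ 1 := by
      rw [div_le_one (by positivity)]
      nlinarith
    calc 1 / (Real.log p) ^ 2 * (p : ℝ) ^ (-1 + ε) ≤ 1 * 1 :=
          mul_le_mul h5 h4 (by positivity) (by norm_num)
      _ = 1 := one_mul 1
  · simp

/-- the function -/
theorem core {c ν c₁ : ℝ} (hc : 0 < c) (hc1 : c ≤ 1 / 10) (hν : 0 < ν) (hνc : ν ≤ c / 2)
    (hc₁ : 0 < c₁) (hSYS : ∀ K : ℕ, ∃ k₀ k₁ : ℕ, K ≤ k₀ ∧ k₀ < k₁ ∧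
      ∃ (Od Sp : Set ℕ) (q : ℕ → ℕ), Sys c ν c₁ k₀ k₁ Od Sp q)
    (hMA : S_MA) (hMB : S_MB) (hMC : S_MC) :
    ∃ f : ℕ → ℝ, f 0 = 0 ∧ f 1 = 1 ∧
      (∀ m n : ℕ, f (m * n) = f m * f n) ∧ (∀ p : ℕ, p.Prime → |f p| < 1) ∧
      ∃ C : ℝ, ∀ n : ℕ, 1 ≤ n →
        |∑ m ∈ Icc 1 n, f m| ≤ C * (n : ℝ) ^ (-(1 / 2) - ν / 2000) := by
  classical
  have hν1 : ν ≤ 1 / 20 := by linarith
  obtain ⟨ε, hεdef⟩ : ∃ ε : ℝ, ε = ν / 2000 := ⟨_, rfl⟩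
  have hε : 0 < ε := by rw [hεdef]; positivity
  have hε1 : ε ≤ 1 := by rw [hεdef]; linarith
  have hc3 : 0 < min (1 / 384 : ℝ) (c₁ / 4) := lt_min (by norm_num) (by positivity)
  obtain ⟨κ, hκdef⟩ : ∃ κ : ℝ, κ = min (1 / 384 : ℝ) (c₁ / 4) / 100 := ⟨_, rfl⟩
  have hκpos : 0 < κ := by rw [hκdef]; positivity
  have hκ : 100 * κ ≤ min (1 / 384 : ℝ) (c₁ / 4) := by rw [hκdef]; linarith
  have hκ1 : κ ≤ 1 / 3 := by
    have : min (1 / 384 : ℝ) (c₁ / 4) ≤ 1 / 384 := min_le_left _ _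
    rw [hκdef]; linarith
  obtain ⟨KA, hKA⟩ := hMA c ν c₁ κ hc hc1 hν hνc hc₁ hκpos
  obtain ⟨KB, hKB⟩ := hMB c ν c₁ κ hc hc1 hν hνc hc₁ hκpos
  obtain ⟨KC, hKC⟩ := hMC c ν c₁ κ hc hc1 hν hνc hc₁ hκpos
  obtain ⟨K1, hK1⟩ := num1 (4 / (3 * min (1 / 384 : ℝ) (c₁ / 4))) (1 / 4) (by norm_num)
  obtain ⟨K2, hK2⟩ := num1 768 ε hε
  obtain ⟨K3, hK3⟩ := num2 (ν / 2000) (by positivity)
  obtain ⟨k₀, k₁, hK, hk01, Od, Sp, q, hS⟩ := hSYS (KA + KB + KC + K1 + K2 + K3 + 8)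
  have hk₀ : 3 ≤ k₀ := by omega
  have hL : ∀ l : ℕ, 2 ^ k₀ ≤ l → 6 * (Real.log l) ^ 2 ≤ (l : ℝ) ^ (ν / 2000) := by
    intro l hl
    exact hK3 l (le_trans (Nat.pow_le_pow_right (by norm_num) (by omega)) hl)
  have hbig : ∀ k : ℕ, k₀ < k →
      4 / (3 * min (1 / 384 : ℝ) (c₁ / 4)) * (k : ℝ) ^ 3 ≤ 2 ^ ll ν k₁ k := by
    intro k hk
    refine (hK1 k (by omega)).trans ?_
    rw [← Real.rpow_natCast 2 (ll ν k₁ k)]
    apply Real.rpow_le_rpow_of_exponent_le (by norm_num)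
    have := Pool.Agent.W583.MO.le_ll ν (by linarith) k₁ k (by omega)
    linarith
  have hbase : 768 * (k₀ : ℝ) ^ 3 ≤ (2 : ℝ) ^ (ε * (k₀ : ℝ)) := hK2 k₀ (by omega)
  have hrest : ∀ k j : ℕ, k₀ < k → j ∈ idx k (ll ν k₁ k) → ∀ (g : ℕ → ℝ) (M M' : ℝ), 0 ≤ M →
      0 ≤ M' → (∀ n : ℕ, n ≠ 0 → g n ≤ M * (sw ν k₀ Sp q n * (n : ℝ) ^ (-1 + ε))) →
      (∀ a N : ℕ, a ≠ 0 → N ∈ Sp → g (a * N) ≤
        M' * (sw ν k₀ Sp q a * (a : ℝ) ^ (-1 + ε) * Bd ε N)) →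
      (∀ p : ℕ, p.Prime → p ∉ Od → (∀ N ∈ Sp, ¬ q N ∣ p) → g p ≤ 0) →
      ∀ s : Finset ℕ, (∀ n, n ∈ s ↔ n ∈ blk (ll ν k₁ k) j ∧ n ∉ Od ∧ n ∉ Sp) → ∑ n ∈ s, g n ≤
        (2 * M + M') * (κ * 2 ^ ll ν k₁ k / (k : ℝ) ^ 3) * (2 : ℝ) ^ ((-1 + ε) * (k : ℝ)) := by
    intro k j hk hj g M M' hM hM' H1 H2 H3 s hs
    have hse : s = (blk (ll ν k₁ k) j).filter (fun n => n ∉ Od ∧ n ∉ Sp) := by
      ext n; rw [hs n, mem_filter]
    rw [hse]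
    exact rest_bound hS hc1 hν hνc hε hε1 hj (hKA k₀ k₁ Od Sp q (by omega) hS k j hk hj)
      (hKB k₀ k₁ Od Sp q (by omega) hS k j hk hj) (hKC k₀ k₁ Od Sp q (by omega) hS k j hk hj)
      g M M' hM hM' H1 H2 H3
  obtain ⟨σ, hσ, hσ2⟩ := exists_signs (ε := ε) hc1 hν hνc hk₀ hε1 k₁ Od
  obtain ⟨d, hd, hsum⟩ := exists_fix hS hσ hc hc1 hν hνc hk₀ hε hε1 hL hκpos.le hκ hσ2 hrest hbig
    hbase hc₁
  obtain ⟨f, hf⟩ : ∃ f : ℕ → ℝ, f = FF (vv ε Od Sp q σ (bi ν k₀ k₁) d) := ⟨_, rfl⟩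
  have hblock : ∀ k j : ℕ, k₀ < k → j ∈ idx k (ll ν k₁ k) →
      ∑ n ∈ blk (ll ν k₁ k) j, |cm (vv ε Od Sp q σ (bi ν k₀ k₁) d) n| ≤
        3 * 2 ^ ll ν k₁ k * (2 : ℝ) ^ ((-1 + ε) * (k : ℝ)) := by
    intro k j hk hj
    set E := (2 : ℝ) ^ ((-1 + ε) * (k : ℝ)) with hE
    have hE0 : 0 < E := by positivity
    have hcard : (blk (ll ν k₁ k) j).card = 2 ^ ll ν k₁ k := by
      rw [Pool.Agent.W402.MO.blk_eq, Nat.card_Ico, Nat.add_sub_cancel_left]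
    have hcardR : ((blk (ll ν k₁ k) j).card : ℝ) = 2 ^ ll ν k₁ k := by
      rw [hcard]; push_cast; rfl
    have h1 := rest_abs (b := bi ν k₀ k₁) hS hσ hc hc1 hν hνc hk₀ hL hrest hd hk hj
      ((blk (ll ν k₁ k) j).filter (fun n => n ∉ Od ∧ n ∉ Sp)) (fun n => mem_filter)
    have hk1 : (1 : ℝ) ≤ (k : ℝ) ^ 3 := by
      have : (1 : ℝ) ≤ k := by exact_mod_cast (by omega : 1 ≤ k)
      exact one_le_pow₀ this
    have h2 : 3 * (κ * 2 ^ ll ν k₁ k / (k : ℝ) ^ 3) * E ≤ 2 ^ ll ν k₁ k * E := by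
      apply mul_le_mul_of_nonneg_right _ hE0.le
      have h3 : κ * 2 ^ ll ν k₁ k / (k : ℝ) ^ 3 ≤ κ * 2 ^ ll ν k₁ k :=
        div_le_self (by positivity) hk1
      have h4 : κ * 2 ^ ll ν k₁ k ≤ 1 / 3 * (2 : ℝ) ^ ll ν k₁ k :=
        mul_le_mul_of_nonneg_right hκ1 (by positivity)
      linarith
    have hpt : ∀ n ∈ (blk (ll ν k₁ k) j).filter (fun n => ¬ (n ∉ Od ∧ n ∉ Sp)),
        |cm (vv ε Od Sp q σ (bi ν k₀ k₁) d) n| ≤ E := by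
      intro n hn
      rw [mem_filter] at hn
      have hB := Bd_block_upper (ε := ε) hε1 (by omega : 3 ≤ k)
        (blk_mem hc1 hν hνc hj hn.1).1
      have hB0 := Bd_nonneg ε n
      by_cases hO : n ∈ Od
      · rw [cm_prime _ (hS.ord n hO).1]
        have h5 := vO_abs_le (ε := ε) (Od := Od) (b := bi ν k₀ k₁) hσ hd n
        unfold vv
        rw [if_pos hO]
        unfold wO at h5
        rw [if_pos hO] at h5
        linarith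
      · have hSp : n ∈ Sp := by
          by_contra h
          exact hn.2 ⟨hO, h⟩
        rw [f_special hS hσ hc hc1 hν hνc hk₀ hL hd hSp, abs_mul, abs_of_nonneg hB0]
        calc Bd ε n * |d (bi ν k₀ k₁ n)| ≤ Bd ε n * 1 := mul_le_mul_of_nonneg_left (hd _) hB0
          _ ≤ E := by rw [mul_one]; exact hB
    have h6 : ∑ n ∈ (blk (ll ν k₁ k) j).filter (fun n => ¬ (n ∉ Od ∧ n ∉ Sp)),
        |cm (vv ε Od Sp q σ (bi ν k₀ k₁) d) n| ≤ 2 ^ ll ν k₁ k * E := by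
      refine (sum_le_card_nsmul _ _ _ hpt).trans ?_
      rw [nsmul_eq_mul]
      apply mul_le_mul_of_nonneg_right _ hE0.le
      rw [← hcardR]
      exact_mod_cast card_le_card (filter_subset _ _)
    have h7 := sum_filter_add_sum_filter_not (blk (ll ν k₁ k) j) (fun n => n ∉ Od ∧ n ∉ Sp)
      (fun n => |cm (vv ε Od Sp q σ (bi ν k₀ k₁) d) n|)
    rw [← h7]
    have h8 : 0 < (2 : ℝ) ^ ll ν k₁ k * E := by positivity
    linarith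
  refine ⟨f, by rw [hf]; unfold FF; rw [if_pos rfl], ?_, ?_, ?_, ?_⟩
  · rw [hf, FF_pos _ one_ne_zero, cm_one]
  · intro m n
    rw [hf]
    exact FF_mul _ m n
  · intro p hp
    rw [hf, FF_pos _ hp.ne_zero, cm_prime _ hp]
    have h1 := (vv_bounds (ε := ε) (b := bi ν k₀ k₁) hS hσ hc hc1 hν hνc hk₀ hL hd hd (le_refl 0)
      (fun i => by simp) p).1
    have h2 := WW_le_one (c := c) (c₁ := c₁) (k₁ := k₁) (Od := Od) (Sp := Sp) (q := q) hν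
      (by linarith) hk₀ hεdef hp
    linarith
  · set A := ∑ m ∈ range (2 ^ k₁ + 1), |f m| with hA
    have hA0 : 0 ≤ A := sum_nonneg (fun m _ => abs_nonneg _)
    set η := ν / 2000 with hη
    have hη0 : 0 < η := by positivity
    have hη1 : η ≤ 1 / 2 := by rw [hη]; linarith
    refine ⟨A * ((2 : ℝ) ^ (k₁ + 1)) ^ (1 / 2 + η) + 6, fun n hn => ?_⟩
    have hn0 : (0 : ℝ) < n := by exact_mod_cast hn
    have hf0 : f 0 = 0 := by rw [hf]; unfold FF; rw [if_pos rfl]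
    have hrange : ∑ m ∈ Icc 1 n, f m = ∑ m ∈ range (n + 1), f m := by
      rw [range_eq_Ico, sum_eq_sum_Ico_succ_bot (by omega), hf0, zero_add]
      rfl
    rw [hrange]
    have hnp : 0 < (n : ℝ) ^ (-(1 / 2) - η) := by positivity
    by_cases hk : k₁ ≤ Nat.log 2 (n + 1)
    · have hx0 : n + 1 ≠ 0 := by omega
      have h1 := psum_le hS hc hc1 hν hνc hk₀ hsum hx0 (by omega : k₀ < Nat.log 2 (n + 1))
      set k := Nat.log 2 (n + 1) with hkdef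
      have hl : ll ν k₁ k ≤ k := Pool.Agent.W402.MO.ll_le hν (by linarith) k₁ k
      have hj : (n + 1) / 2 ^ ll ν k₁ k ∈ idx k (ll ν k₁ k) :=
        Pool.Agent.W402.MO.mem_idx_self hx0 hl
      have h2 := hblock k _ (by omega) hj
      rw [← hf] at h1
      have h3 : (2 : ℝ) ^ ll ν k₁ k ≤ (2 : ℝ) ^ ((1 / 2 - ν / 1000) * (k : ℝ)) := by
        rw [← Real.rpow_natCast]
        apply Real.rpow_le_rpow_of_exponent_le (by norm_num)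
        exact Pool.Agent.W402.MO.ll_upper (by linarith) hk
      have h4 : (2 : ℝ) ^ ((1 / 2 - ν / 1000) * (k : ℝ)) * (2 : ℝ) ^ ((-1 + ε) * (k : ℝ)) =
          (2 : ℝ) ^ (-(1 / 2 + η) * (k : ℝ)) := by
        rw [← Real.rpow_add (by norm_num), hη, hεdef]; congr 1; ring
      have h5 := num3 hη0 hη1 hn (k := k)
        (lt_trans (Nat.lt_succ_self n) (Nat.lt_pow_succ_log_self (by norm_num) (n + 1)))
      have h6 : 3 * (2 : ℝ) ^ ll ν k₁ k * (2 : ℝ) ^ ((-1 + ε) * (k : ℝ)) ≤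
          3 * (2 : ℝ) ^ (-(1 / 2 + η) * (k : ℝ)) := by
        rw [← h4, mul_assoc]
        apply mul_le_mul_of_nonneg_left _ (by norm_num)
        exact mul_le_mul_of_nonneg_right h3 (by positivity)
      calc |∑ m ∈ range (n + 1), f m| ≤ _ := h1
        _ ≤ _ := h2
        _ ≤ 3 * (2 : ℝ) ^ (-(1 / 2 + η) * (k : ℝ)) := h6
        _ ≤ 6 * (n : ℝ) ^ (-(1 / 2) - η) := by linarith
        _ ≤ (A * ((2 : ℝ) ^ (k₁ + 1)) ^ (1 / 2 + η) + 6) * (n : ℝ) ^ (-(1 / 2) - η) := by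
          apply mul_le_mul_of_nonneg_right _ hnp.le
          have : 0 ≤ A * ((2 : ℝ) ^ (k₁ + 1)) ^ (1 / 2 + η) := by positivity
          linarith
    · push Not at hk
      have hlt : n + 1 < 2 ^ k₁ := Nat.lt_pow_of_log_lt (by norm_num) hk
      have h1 : |∑ m ∈ range (n + 1), f m| ≤ A := by
        refine (abs_sum_le_sum_abs _ _).trans ?_
        apply sum_le_sum_of_subset_of_nonneg
        · intro m hm
          rw [mem_range] at hm ⊢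
          omega
        · intro m _ _
          exact abs_nonneg _
      have h2 : (n : ℝ) ≤ (2 : ℝ) ^ (k₁ + 1) := by
        have : n ≤ 2 ^ (k₁ + 1) := by
          have : 2 ^ k₁ ≤ 2 ^ (k₁ + 1) := Nat.pow_le_pow_right (by norm_num) (by omega)
          omega
        exact_mod_cast this
      have h3 : (n : ℝ) ^ (1 / 2 + η) ≤ ((2 : ℝ) ^ (k₁ + 1)) ^ (1 / 2 + η) :=
        Real.rpow_le_rpow hn0.le h2 (by linarith)
      have h4 : (n : ℝ) ^ (1 / 2 + η) * (n : ℝ) ^ (-(1 / 2) - η) = 1 := by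
        rw [← Real.rpow_add hn0]
        have : (1 / 2 + η) + (-(1 / 2) - η) = 0 := by ring
        rw [this, Real.rpow_zero]
      have h5 : 1 ≤ ((2 : ℝ) ^ (k₁ + 1)) ^ (1 / 2 + η) * (n : ℝ) ^ (-(1 / 2) - η) := by
        exact h4.symm.le.trans (mul_le_mul_of_nonneg_right h3 hnp.le)
      calc |∑ m ∈ range (n + 1), f m| ≤ A * 1 := by rw [mul_one]; exact h1
        _ ≤ A * (((2 : ℝ) ^ (k₁ + 1)) ^ (1 / 2 + η) * (n : ℝ) ^ (-(1 / 2) - η)) :=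
          mul_le_mul_of_nonneg_left h5 hA0
        _ ≤ (A * ((2 : ℝ) ^ (k₁ + 1)) ^ (1 / 2 + η) + 6) * (n : ℝ) ^ (-(1 / 2) - η) := by
          nlinarith

theorem fin (hSYS : S_SYS) (hMA : S_MA) (hMB : S_MB) (hMC : S_MC) : S_FIN := by
  intro RH
  obtain ⟨c, ν, c₁, hc, hc1, hν, hνc, hc₁, hSYS⟩ := hSYS RH
  obtain ⟨f, h⟩ := core hc hc1 hν hνc hc₁ hSYS hMA hMB hMC
  exact ⟨ν / 2000, f, by positivity, h⟩

end Pool.Agent.W164.MO.Fin
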