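import Pool.Agent.W164.MO.QSys
import Pool.Agent.W327.MO.BB

/-!
# Few bad blocks from a zero free half plane `Re s > θ`

Versions of the theorems of helper327 (`Pool.Agent.W327.MO.BB`) for a half plane `Re s > θ`.
-/

set_option autoImplicit false

open MeasureTheory Filter Topology Set FourierTransform

namespace Pool.Agent.W164.MO.Q

open Pool.Agent.H295R2 Pool.Agent.W306 Pool.Agent.W327.MO
open Pool.Agent.W164.MO

noncomputable section

lemma HH_contq {θ : ℝ} (hz : ∀ s : ℂ, θ < s.re → Zs s ≠ 0) {η w σ : ℝ} (hη : 0 < η) (hσ : 1 / 2 < σ)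
    (hθσ : θ < σ) :
    Continuous (HH η w σ) := by
  rw [continuous_iff_continuousAt]
  intro ξ
  set s : ℂ := σ + 2 * Real.pi * ξ * Complex.I with hs
  have hre : s.re = σ := line_re σ ξ
  have hs0 : s ≠ 0 := by
    intro h
    rw [h] at hre
    simp at hre
    linarith
  have e1 : DifferentiableAt ℂ (Lap (boxC w)) s :=
    (boxC_nice w).Lap_differentiableAt (by rw [hre]; linarith)
  have e2 := phi_differentiableAt hη hs0
  have e3 := gz_differentiableAt (hz s (by rw [hre]; exact hθσ))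
  have e4 : ContinuousAt (fun z => Lap (boxC w) z * phi η z ^ 2 * gz z) s := by
    have : DifferentiableAt ℂ (fun z => Lap (boxC w) z * phi η z ^ 2 * gz z) s := by fun_prop
    exact this.continuousAt
  have e5 : Continuous (fun ξ : ℝ => (σ : ℂ) + 2 * Real.pi * ξ * Complex.I) := by fun_prop
  exact ContinuousAt.comp (f := fun ξ : ℝ => (σ : ℂ) + 2 * Real.pi * ξ * Complex.I) e4 e5.continuousAt

/-- mean square -/
theorem mean_squareq {θ : ℝ} (hθ : 1 / 4 ≤ θ) (hz : ∀ s : ℂ, θ < s.re → Zs s ≠ 0) {σ ε : ℝ}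
    (hσ : 1 / 2 < σ) (hθσ : θ < σ) (hσ1 : σ ≤ 1)
    (hε : 0 < ε) (hε1 : ε ≤ 1 / 2) :
    ∃ C : ℝ, 0 < C ∧ ∀ η w : ℝ, 0 < η → η ≤ 1 → 0 < w →
      Integrable (fun x : ℝ => ‖EE η w σ x‖ ^ 2 * Real.exp (-(2 * σ * x))) ∧
      ∫ x : ℝ, ‖EE η w σ x‖ ^ 2 * Real.exp (-(2 * σ * x)) ≤ C * w ^ (1 - 2 * ε) := by
  obtain ⟨Cf, hCf0, hCf⟩ := gz_bound (θ := θ) (σ := σ) (ε := ε / 2) hθ
    hz hθσ hσ1 (by positivity)
  set I0 : ℝ := ∫ ξ : ℝ, (1 + |2 * Real.pi * ξ|) ^ (-(1 + ε)) with hI0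
  have hI0' : 0 ≤ I0 := integral_nonneg fun ξ => by positivity
  refine ⟨10 ^ 6 * Cf ^ 2 * I0 + 1, by positivity, fun η w hη hη1 hw => ?_⟩
  have hcont := HH_contq hz (w := w) hη hσ hθσ
  -- pointwise bounds
  have hpt : ∀ ξ : ℝ, ‖HH η w σ ξ‖ ^ 2 ≤ (10 ^ 6 * Cf ^ 2 * w ^ (1 - 2 * ε)) *
      (1 + |2 * Real.pi * ξ|) ^ (-(1 + ε)) := by
    intro ξ
    have hN := norm_line (ξ := ξ) hσ
    set s : ℂ := σ + 2 * Real.pi * ξ * Complex.I with hs
    have hsre : s.re = σ := line_re σ ξ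
    have hsim : s.im = 2 * Real.pi * ξ := line_im σ ξ
    set T : ℝ := 1 + |2 * Real.pi * ξ| with hT
    have hT0 : 0 < T := by rw [hT]; positivity
    have hs0 : 0 < ‖s‖ := by linarith
    have a0 : ‖Lap (boxC w) s‖ ≤ w := Lap_box_le hw (by rw [hsre]; linarith)
    have a1 : ‖Lap (boxC w) s‖ ≤ 10 * T⁻¹ := by
      refine (Lap_box_le' hw (by rw [hsre]; linarith)).trans ?_
      rw [← div_eq_mul_inv, div_le_div_iff₀ hs0 hT0]
      linarith
    have a2 : ‖Lap (boxC w) s‖ ^ 2 ≤ w ^ (1 - 2 * ε) * (100 * T ^ (-(1 + 2 * ε))) := by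
      have b0 : 0 ≤ ‖Lap (boxC w) s‖ := norm_nonneg _
      have b1 : ‖Lap (boxC w) s‖ ^ 2 = ‖Lap (boxC w) s‖ ^ (1 - 2 * ε) *
          ‖Lap (boxC w) s‖ ^ (1 + 2 * ε) := by
        rw [← Real.rpow_add_of_nonneg b0 (by linarith) (by linarith)]
        have : (1 - 2 * ε) + (1 + 2 * ε) = (2 : ℕ) := by push_cast; ring
        rw [this, Real.rpow_natCast]
      rw [b1]
      have b2 : ‖Lap (boxC w) s‖ ^ (1 - 2 * ε) ≤ w ^ (1 - 2 * ε) :=
        Real.rpow_le_rpow b0 a0 (by linarith)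
      have b3 : ‖Lap (boxC w) s‖ ^ (1 + 2 * ε) ≤ 100 * T ^ (-(1 + 2 * ε)) := by
        calc ‖Lap (boxC w) s‖ ^ (1 + 2 * ε) ≤ (10 * T⁻¹) ^ (1 + 2 * ε) :=
              Real.rpow_le_rpow b0 a1 (by linarith)
          _ = 10 ^ (1 + 2 * ε) * T ^ (-(1 + 2 * ε)) := by
              rw [Real.mul_rpow (by norm_num) (by positivity), Real.inv_rpow hT0.le,
                Real.rpow_neg hT0.le]
          _ ≤ 100 * T ^ (-(1 + 2 * ε)) := by
              gcongr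
              calc (10:ℝ) ^ (1 + 2 * ε) ≤ (10:ℝ) ^ (2:ℝ) :=
                    Real.rpow_le_rpow_of_exponent_le (by norm_num) (by linarith)
                _ = 100 := by norm_num
      gcongr
    have a3 : ‖phi η s‖ ≤ 10 := norm_phi_le hη hη1 (by rw [hsre]; linarith) (by rw [hsre]; linarith)
    have a4 : ‖gz s‖ ≤ Cf * T ^ (ε / 2) := by
      have := hCf s (by rw [hsre]) (by rw [hsre]; linarith)
      rw [hsim] at this
      exact this
    have e0 : HH η w σ ξ = Lap (boxC w) s * phi η s ^ 2 * gz s := rfl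
    rw [e0, norm_mul, norm_mul, norm_pow, mul_pow, mul_pow]
    have e1 : T ^ (-(1 + 2 * ε)) * (T ^ (ε / 2)) ^ 2 = T ^ (-(1 + ε)) := by
      rw [← Real.rpow_mul_natCast hT0.le, ← Real.rpow_add hT0]
      congr 1
      push_cast
      ring
    calc ‖Lap (boxC w) s‖ ^ 2 * (‖phi η s‖ ^ 2) ^ 2 * ‖gz s‖ ^ 2
        ≤ (w ^ (1 - 2 * ε) * (100 * T ^ (-(1 + 2 * ε)))) * (10 ^ 2) ^ 2 *
          (Cf * T ^ (ε / 2)) ^ 2 := by gcongr
      _ = 10 ^ 6 * Cf ^ 2 * w ^ (1 - 2 * ε) * (T ^ (-(1 + 2 * ε)) * (T ^ (ε / 2)) ^ 2) := by ring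
      _ = _ := by rw [e1]
  have hsq : Integrable (fun ξ : ℝ => ‖HH η w σ ξ‖ ^ 2) := by
    have hI := (integrable_decay' (a := 1 + ε) (by linarith)).const_mul
      (10 ^ 6 * Cf ^ 2 * w ^ (1 - 2 * ε))
    refine hI.mono' (by fun_prop) (Eventually.of_forall fun ξ => ?_)
    rw [Real.norm_of_nonneg (by positivity)]
    exact hpt ξ
  have h2 : MemLp (HH η w σ) 2 := (memLp_two_iff_integrable_sq_norm hcont.aestronglyMeasurable).2 hsq
  -- integrability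
  have h1 : Integrable (HH η w σ) := by
    have hI := (integrable_decay' (a := 3 / 2) (by norm_num)).const_mul (w * (1000 / η ^ 2) * Cf)
    refine hI.mono' hcont.aestronglyMeasurable (Eventually.of_forall fun ξ => ?_)
    set s : ℂ := σ + 2 * Real.pi * ξ * Complex.I with hs
    have hsre : s.re = σ := line_re σ ξ
    have hsim : s.im = 2 * Real.pi * ξ := line_im σ ξ
    set T : ℝ := 1 + |2 * Real.pi * ξ| with hT
    have hT1 : 1 ≤ T := by rw [hT]; linarith [abs_nonneg (2 * Real.pi * ξ)]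
    have hT0 : 0 < T := by linarith
    have a0 : ‖Lap (boxC w) s‖ ≤ w := Lap_box_le hw (by rw [hsre]; linarith)
    have a3 := norm_phi_sq_le hη hη1 (s := s) (by rw [hsre]; linarith) (by rw [hsre]; linarith)
    have a4 : ‖gz s‖ ≤ Cf * T ^ (1 / 2 : ℝ) := by
      have := hCf s (by rw [hsre]) (by rw [hsre]; linarith)
      rw [hsim] at this
      refine this.trans ?_
      gcongr
      linarith
    rw [hsim] at a3
    have e0 : HH η w σ ξ = Lap (boxC w) s * phi η s ^ 2 * gz s := rfl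
    rw [e0, norm_mul, norm_mul, norm_pow]
    have e1 : T ^ (-2 : ℝ) * T ^ (1 / 2 : ℝ) = T ^ (-(3 / 2 : ℝ)) := by
      rw [← Real.rpow_add hT0]
      norm_num
    calc ‖Lap (boxC w) s‖ * ‖phi η s‖ ^ 2 * ‖gz s‖
        ≤ w * (1000 / η ^ 2 * T ^ (-2 : ℝ)) * (Cf * T ^ (1 / 2 : ℝ)) := by gcongr
      _ = w * (1000 / η ^ 2) * Cf * (T ^ (-2 : ℝ) * T ^ (1 / 2 : ℝ)) := by ring
      _ = _ := by rw [e1]
  obtain ⟨p1, p2⟩ := Pool.Agent.Helper625.Planch.plancherel (HH η w σ) h1 h2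
  have hE : ∀ x : ℝ, ‖EE η w σ x‖ ^ 2 * Real.exp (-(2 * σ * x)) = ‖𝓕 (HH η w σ) (-x)‖ ^ 2 := by
    intro x
    rw [EE_eq, norm_mul, mul_pow]
    have h3 : ‖Complex.exp (σ * x)‖ ^ 2 * Real.exp (-(2 * σ * x)) = 1 := by
      rw [Complex.norm_exp, ← Real.exp_nat_mul, ← Real.exp_add, Real.exp_eq_one_iff]
      simp only [Complex.mul_re, Complex.ofReal_re, Complex.ofReal_im, mul_zero, sub_zero]
      push_cast
      ring
    calc _ = (‖Complex.exp (σ * x)‖ ^ 2 * Real.exp (-(2 * σ * x))) * ‖𝓕 (HH η w σ) (-x)‖ ^ 2 := by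
          ring
      _ = _ := by rw [h3, one_mul]
  have hFi : Integrable (fun x : ℝ => ‖𝓕 (HH η w σ) x‖ ^ 2) :=
    (memLp_two_iff_integrable_sq_norm p1.aestronglyMeasurable).1 p1
  simp_rw [hE]
  refine ⟨hFi.comp_neg, ?_⟩
  rw [integral_neg_eq_self (fun x : ℝ => ‖𝓕 (HH η w σ) x‖ ^ 2), p2]
  calc ∫ ξ : ℝ, ‖HH η w σ ξ‖ ^ 2
      ≤ ∫ ξ : ℝ, (10 ^ 6 * Cf ^ 2 * w ^ (1 - 2 * ε)) * (1 + |2 * Real.pi * ξ|) ^ (-(1 + ε)) :=
        integral_mono hsq ((integrable_decay' (a := 1 + ε) (by linarith)).const_mul _) hpt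
    _ = 10 ^ 6 * Cf ^ 2 * I0 * w ^ (1 - 2 * ε) := by rw [integral_const_mul]; ring
    _ ≤ (10 ^ 6 * Cf ^ 2 * I0 + 1) * w ^ (1 - 2 * ε) := by
        gcongr
        linarith

lemma EE_sumq {θ : ℝ} (hθ : 1 / 4 ≤ θ) (hz : ∀ s : ℂ, θ < s.re → Zs s ≠ 0) {σ η w x : ℝ}
    (hσ : 1 / 2 < σ) (hθσ : θ < σ) (hσ1 : σ ≤ 1) (hη : 0 < η)
    (hη1 : η ≤ 1) :
    HasSum (fun m : ℕ => ((aL m * WR η w (x - Real.log m) : ℝ) : ℂ)) (EE η w σ x) := by
  obtain ⟨Ch, hCh0, hCh⟩ := gz_bound (θ := θ) (σ := σ) (ε := 1 / 2) hθ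
    hz hθσ hσ1 (by norm_num)
  have key := perron_gen (x := x) (F := gz) (a := fun n => (aL n : ℂ)) (by linarith : 0 < σ)
    (by linarith) (fun s hs1 _ => gz_differentiableAt (hz s (by linarith))) hCh
    aL_summable (by simp [aL])
    (fun s hs => by
      have hs1 : s ≠ 1 := by rintro rfl; norm_num at hs
      rw [aL_series s (by rw [hs]; norm_num), gz_eq hs1]
      exact riemannZeta_ne_zero_of_one_lt_re (by rw [hs]; norm_num)) (boxC_nice w) hη hη1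
  simp_rw [WR_eq] at key
  push_cast
  exact key

lemma EE_blockq {θ : ℝ} (hθ : 1 / 4 ≤ θ) (hz : ∀ s : ℂ, θ < s.re → Zs s ≠ 0) {σ η w x : ℝ}
    {X Y : ℕ} (hσ : 1 / 2 < σ) (hθσ : θ < σ) (hσ1 : σ ≤ 1)
    (hη : 0 < η) (hη1 : η ≤ 1) (hY : 1 ≤ Y) (h1 : Real.log X + w < x)
    (h2 : x < Real.log Y - 2 * η) :
    EE η w σ x = ((∑ m ∈ Finset.Ico X Y, aL m * WR η w (x - Real.log m) : ℝ) : ℂ) := by
  have h3 : ∀ m ∉ Finset.Ico X Y, ((aL m * WR η w (x - Real.log m) : ℝ) : ℂ) = 0 := by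
    intro m hm
    rw [Finset.mem_Ico, not_and_or, not_le, not_lt] at hm
    rcases Nat.eq_zero_or_pos m with h0 | h0
    · rw [h0]
      simp [aL]
    · have hm0 : (0 : ℝ) < m := by exact_mod_cast h0
      rw [WR_zero hη, mul_zero, Complex.ofReal_zero]
      rcases hm with h | h
      · right
        have h4 := Real.log_lt_log hm0 (by exact_mod_cast h : (m : ℝ) < X)
        linarith
      · left
        have h4 := Real.log_le_log (by exact_mod_cast hY : (0 : ℝ) < Y)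
          (by exact_mod_cast h : (Y : ℝ) ≤ m)
        linarith
  have h4 := (hasSum_sum_of_ne_finset_zero h3).unique (EE_sumq (x := x) (w := w) hθ hz hσ hθσ hσ1 hη hη1)
  rw [← h4]
  push_cast
  rfl

lemma bad_largeq {θ : ℝ} (hθ : 1 / 4 ≤ θ) (hz : ∀ s : ℂ, θ < s.re → Zs s ≠ 0) {σ : ℝ}
    (hσ : 1 / 2 < σ) (hθσ : θ < σ) (hσ1 : σ ≤ 1)
    {k l j : ℕ} (hlk : l ≤ k) (hk : 100 ≤ k) (hj : j ∈ idx k l) (hbad : Bad k l j)
    (hpp : (k + 1) * (k + 1) * ((2 : ℝ) ^ l / Real.sqrt (2 ^ k) + 1) + 1 ≤ 1 / 20 * 2 ^ l)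
    {x : ℝ} (h1 : Real.log (j * 2 ^ l : ℕ) + 4 / 5 * ((2 : ℝ) ^ l / 2 ^ (k + 1)) < x)
    (h2 : x < Real.log ((j + 1) * 2 ^ l : ℕ) - 2 * ((2 : ℝ) ^ l / 2 ^ (k + 1) / 50)) :
    1 / 10 * 2 ^ l ≤ ‖EE ((2 : ℝ) ^ l / 2 ^ (k + 1) / 50) (4 / 5 * ((2 : ℝ) ^ l / 2 ^ (k + 1))) σ x‖ := by
  set τ : ℝ := (2 : ℝ) ^ l / 2 ^ (k + 1) with hτ
  have hτ0 : 0 < τ := by positivity
  have hτ1 : τ ≤ 1 / 2 := by
    rw [hτ, pow_succ, div_le_iff₀ (by positivity)]
    have : (2 : ℝ) ^ l ≤ 2 ^ k := pow_le_pow_right₀ (by norm_num) hlk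
    linarith
  unfold idx at hj
  rw [Finset.mem_Ico] at hj
  have hX : 2 ^ k ≤ j * 2 ^ l := by
    calc 2 ^ k = 2 ^ (k - l) * 2 ^ l := by rw [← pow_add]; congr 1; omega
      _ ≤ j * 2 ^ l := Nat.mul_le_mul_right _ hj.1
  have hY : (j + 1) * 2 ^ l ≤ 2 ^ (k + 1) := by
    calc (j + 1) * 2 ^ l ≤ 2 ^ (k - l + 1) * 2 ^ l := Nat.mul_le_mul_right _ (by omega)
      _ = 2 ^ (k + 1) := by rw [← pow_add]; congr 1; omega
  have hXY : (j + 1) * 2 ^ l = j * 2 ^ l + 2 ^ l := by ring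
  have h2k : 1 ≤ 2 ^ k := Nat.one_le_two_pow
  set X := j * 2 ^ l with hXd
  have hX1 : 1 ≤ X := by omega
  have hY1 : 1 ≤ (j + 1) * 2 ^ l := Nat.mul_pos (by omega) (by positivity)
  rw [EE_blockq hθ hz hσ hθσ hσ1 (by positivity) (by linarith) hY1 h1 h2, Complex.norm_real,
    Real.norm_eq_abs]
  have hmass := W_mass hX1 hY1 hτ0 hτ1 rfl rfl h1 h2
  rw [hXY] at hmass hY ⊢
  have hΛ := Lambda_block hX hY
  have hη0 : 0 < τ / 50 := by positivity
  have hle : ∑ m ∈ Finset.Ico X (X + 2 ^ l), aL m * WR (τ / 50) (4 / 5 * τ) (x - Real.log m) ≤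
      ∑ m ∈ Finset.Ico X (X + 2 ^ l), ArithmeticFunction.vonMangoldt m -
      ∑ m ∈ Finset.Ico X (X + 2 ^ l), WR (τ / 50) (4 / 5 * τ) (x - Real.log m) := by
    rw [← Finset.sum_sub_distrib]
    refine Finset.sum_le_sum fun m hm => ?_
    rw [Finset.mem_Ico] at hm
    have g1 := WR_nonneg hη0 (4 / 5 * τ) (x - Real.log m)
    have g2 := WR_le hη0 (4 / 5 * τ) (x - Real.log m)
    have g3 := ArithmeticFunction.vonMangoldt_nonneg (n := m)
    unfold aL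
    rw [if_neg (by omega)]
    nlinarith
  -- the number of primes
  have hkR : (100 : ℝ) ≤ k := by exact_mod_cast hk
  have hπ : (((Finset.Ico X (X + 2 ^ l)).filter Nat.Prime).card : ℝ) * (8 * k) ≤ 2 ^ l := by
    unfold Bad blk at hbad
    rw [hXY] at hbad
    have h3 : ((8 * k * ((Finset.Ico X (X + 2 ^ l)).filter Nat.Prime).card : ℕ) : ℝ) ≤
      ((2 ^ l : ℕ) : ℝ) := by exact_mod_cast hbad.le
    push_cast at h3
    linarith
  set π₀ : ℝ := (((Finset.Ico X (X + 2 ^ l)).filter Nat.Prime).card : ℝ) with hπ0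
  have hπ00 : 0 ≤ π₀ := Nat.cast_nonneg _
  have hl2 : Real.log 2 < 7 / 10 := by
    have := Real.log_two_lt_d9
    linarith
  have hl20 : 0 < Real.log 2 := Real.log_pos (by norm_num)
  have hmain : (k + 1) * Real.log 2 * π₀ ≤ 9 / 100 * 2 ^ l := by
    have h3 : (k + 1) * Real.log 2 ≤ 9 / 100 * (8 * k) := by nlinarith
    calc (k + 1) * Real.log 2 * π₀ ≤ 9 / 100 * (8 * k) * π₀ := by gcongr
      _ = 9 / 100 * (π₀ * (8 * k)) := by ring
      _ ≤ 9 / 100 * 2 ^ l := by gcongr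
  set D : ℝ := (2 : ℝ) ^ l / Real.sqrt (2 ^ k) + 1 with hD
  have hD0 : 0 < D := by positivity
  have hrest : (k + 1) * Real.log 2 * (k * D) ≤ (k + 1) * (k + 1) * D := by
    have h3 : Real.log 2 * (k * D) ≤ 1 * ((k + 1) * D) := by
      gcongr
      · linarith
      · linarith
    calc (k + 1) * Real.log 2 * (k * D) = (k + 1) * (Real.log 2 * (k * D)) := by ring
      _ ≤ (k + 1) * (1 * ((k + 1) * D)) := by gcongr
      _ = _ := by ring
  have hmass2 : 27 / 100 * (2 : ℝ) ^ l - 1 ≤ 27 / 50 * τ * X - 1 := by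
    have h3 : (2 : ℝ) ^ l = 2 * (τ * 2 ^ k) := by
      rw [hτ, pow_succ]
      field_simp
    have h4 : (2 : ℝ) ^ k ≤ X := by exact_mod_cast hX
    have h5 : τ * 2 ^ k ≤ τ * X := by gcongr
    rw [h3]
    linarith
  have hΛ2 : ∑ m ∈ Finset.Ico X (X + 2 ^ l), ArithmeticFunction.vonMangoldt m ≤
      9 / 100 * 2 ^ l + (k + 1) * (k + 1) * D := by
    refine hΛ.trans ?_
    push_cast
    calc _ = (k + 1) * Real.log 2 * π₀ + (k + 1) * Real.log 2 * (k * D) := by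
          rw [hD, hπ0]; ring
      _ ≤ _ := add_le_add hmain hrest
  have hfin : ∑ m ∈ Finset.Ico X (X + 2 ^ l), aL m * WR (τ / 50) (4 / 5 * τ) (x - Real.log m) ≤
      -(1 / 10 * 2 ^ l) := by
    have : (0 : ℝ) < 2 ^ l := by positivity
    linarith
  rw [abs_of_nonpos (by have : (0 : ℝ) < 2 ^ l := by positivity
                        linarith)]
  linarith

/-- few bad blocks -/
theorem bbq {θ : ℝ} (hθ : 1 / 2 ≤ θ) (hθ1 : θ ≤ 3 / 4) (hz : ∀ s : ℂ, θ < s.re → Zs s ≠ 0) {δ : ℝ}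
    (hδ : 2 * θ - 1 < δ) : BBd δ := by
  set δ' : ℝ := min (δ - (2 * θ - 1)) 1 with hδ'
  have hδ'0 : 0 < δ' := lt_min (by linarith) one_pos
  have hδ'1 : δ' ≤ 1 := min_le_right _ _
  have hδ'3 : δ' ≤ δ - (2 * θ - 1) := min_le_left _ _
  have hδ'2 : δ' ≤ δ := by linarith
  obtain ⟨C, hC0, hC⟩ := mean_squareq (by linarith : 1 / 4 ≤ θ) hz (σ := θ + δ' / 8) (ε := δ' / 8)
    (by linarith) (by linarith) (by linarith) (by positivity) (by linarith)
  set σ : ℝ := θ + δ' / 8 with hσ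
  set ε : ℝ := δ' / 8 with hε
  have hε0 : 0 < ε := by positivity
  obtain ⟨I1, hI1⟩ := lin_le_exp (δ' / 4) 8 8 (by positivity)
  obtain ⟨I2, hI2⟩ := lin_le_exp (δ' / 2) 0 (2500 * C) (by positivity)
  refine ⟨I1 + I2 + 100, fun k l hk hlk => ?_⟩
  have hkR : (0 : ℝ) ≤ k := Nat.cast_nonneg k
  have hk100 : (100 : ℝ) ≤ k := by exact_mod_cast (by omega : 100 ≤ k)
  rcases le_or_gt (l : ℝ) (δ' * k) with hcase | hcase
  · -- the trivial case
    have h1 : ((idx k l).filter (fun j => Bad k l j)).card ≤ 2 ^ (k - l) := by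
      refine (Finset.card_filter_le _ _).trans ?_
      unfold idx
      rw [Nat.card_Ico, pow_succ]
      omega
    have h2 : (((idx k l).filter (fun j => Bad k l j)).card : ℝ) ≤ (2 : ℝ) ^ (k - l) := by
      exact_mod_cast h1
    refine h2.trans ?_
    rw [← e2_nat, Nat.cast_sub hlk]
    apply e2_le
    have : δ' * k ≤ δ * k := by gcongr
    linarith
  -- the main case
  set S := (idx k l).filter (fun j => Bad k l j) with hS
  set τ : ℝ := (2 : ℝ) ^ l / 2 ^ (k + 1) with hτ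
  have hτ0 : 0 < τ := by positivity
  have hτ1 : τ ≤ 1 / 2 := by
    rw [hτ, pow_succ, div_le_iff₀ (by positivity)]
    have : (2 : ℝ) ^ l ≤ 2 ^ k := pow_le_pow_right₀ (by norm_num) hlk
    linarith
  -- prime powers
  have hpp : (k + 1) * (k + 1) * ((2 : ℝ) ^ l / Real.sqrt (2 ^ k) + 1) + 1 ≤ 1 / 20 * 2 ^ l := by
    have h1 := hI1 k (by omega)
    have h2 : (8 * (k : ℝ) + 8) ^ 2 ≤ (2 : ℝ) ^ (δ' / 2 * (k : ℝ)) := by
      have h3 : (2 : ℝ) ^ (δ' / 2 * (k : ℝ)) = ((2 : ℝ) ^ (δ' / 4 * (k : ℝ))) ^ 2 := by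
        rw [sq, ← e2_add]
        congr 1
        ring
      rw [h3]
      gcongr
    have h3 : (2 : ℝ) ^ (δ' / 2 * (k : ℝ)) ≤ 2 ^ l := by
      rw [← e2_nat]
      apply e2_le
      have : 0 ≤ δ' * k := by positivity
      linarith
    have h4 : (2 : ℝ) ^ (δ' / 2 * (k : ℝ)) ≤ Real.sqrt (2 ^ k) := by
      apply Real.le_sqrt_of_sq_le
      rw [sq, ← e2_add, ← e2_nat]
      apply e2_le
      have : δ' * k ≤ 1 * k := by gcongr
      linarith
    set P : ℝ := (2 : ℝ) ^ l with hP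
    have hP0 : 0 < P := by positivity
    set D : ℝ := Real.sqrt (2 ^ k) with hD
    have hD0 : 0 < D := Real.sqrt_pos.2 (by positivity)
    have h5 : 64 * ((k + 1) * (k + 1)) ≤ D := by nlinarith
    have h6 : 64 * ((k + 1) * (k + 1) : ℝ) ≤ P := by nlinarith
    have h7 : (k + 1) * (k + 1) * (P / D) ≤ P / 64 := by
      rw [← mul_div_assoc, div_le_div_iff₀ hD0 (by norm_num)]
      nlinarith
    have h8 : (1 : ℝ) ≤ (k + 1) * (k + 1) := by nlinarith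
    have h9 : (k + 1) * (k + 1) * (P / D + 1) = (k + 1) * (k + 1) * (P / D) + (k + 1) * (k + 1) := by
      ring
    rw [h9]
    linarith
  obtain ⟨hint, hle⟩ := hC (τ / 50) (4 / 5 * τ) (by positivity) (by linarith) (by positivity)
  set f : ℝ → ℝ := fun x => ‖EE (τ / 50) (4 / 5 * τ) σ x‖ ^ 2 * Real.exp (-(2 * σ * x)) with hf
  have hj12 : ∀ j ∈ S, 1 ≤ j ∧ j + 1 ≤ 2 ^ (k - l + 1) := by
    intro j hj
    have h1 := (Finset.mem_filter.1 hj).1
    unfold idx at h1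
    rw [Finset.mem_Ico] at h1
    have h2 : 1 ≤ 2 ^ (k - l) := Nat.one_le_two_pow
    omega
  set c : ℝ := (1 / 10 * 2 ^ l) ^ 2 * (2 : ℝ) ^ (-(2 * σ * (k + 1))) with hc
  have hc0 : 0 ≤ c := by positivity
  have hkey := sum_intervals S
    (fun j => Real.log (j * 2 ^ l : ℕ) + 4 / 5 * ((2 : ℝ) ^ l / 2 ^ (k + 1)))
    (fun j => Real.log ((j + 1) * 2 ^ l : ℕ) - 2 * ((2 : ℝ) ^ l / 2 ^ (k + 1) / 50)) f hint
    (fun x => by positivity) c (16 / 100 * τ) hc0 (by positivity)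
    (fun j hj => len_bound hlk (hj12 j hj).1 (hj12 j hj).2) ?_ ?_
  · -- conclusion
    have h1 := hkey.trans hle
    have hτ2 : τ = (2 : ℝ) ^ ((l : ℝ) - (k + 1)) := by
      rw [sub_eq_add_neg, e2_add, e2_neg, e2_nat, ← Nat.cast_succ, e2_nat, hτ, div_eq_mul_inv]
    have h2 : (4 / 5 * τ) ^ (1 - 2 * ε) ≤ τ ^ (1 - 2 * ε) := by
      apply Real.rpow_le_rpow (by positivity) (by linarith)
      rw [hε]
      linarith
    have h3 : τ ^ (1 - 2 * ε) = (2 : ℝ) ^ (((l : ℝ) - (k + 1)) * (1 - 2 * ε)) := by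
      rw [hτ2, ← Real.rpow_mul (by norm_num)]
    have h4 : c * (16 / 100 * τ) = 1 / 625 *
        (2 : ℝ) ^ (2 * (l : ℝ) + -(2 * σ * (k + 1)) + ((l : ℝ) - (k + 1))) := by
      rw [e2_add, e2_add, ← hτ2, hc]
      have : (2 : ℝ) ^ (2 * (l : ℝ)) = (2 ^ l) ^ 2 := by
        rw [two_mul, e2_add, e2_nat, sq]
      rw [this]
      ring
    have h5 : (S.card : ℝ) ≤ 625 * C * (2 : ℝ) ^ ((2 * θ + δ' / 2) * ((k : ℝ) + 1) - 2 * l) := by
      have hX0 := e2_pos (2 * (l : ℝ) + -(2 * σ * (k + 1)) + ((l : ℝ) - (k + 1)))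
      refine le_of_mul_le_mul_right ?_ hX0
      have h6 : (S.card : ℝ) *
          (2 : ℝ) ^ (2 * (l : ℝ) + -(2 * σ * (k + 1)) + ((l : ℝ) - (k + 1))) ≤
          625 * (C * (2 : ℝ) ^ (((l : ℝ) - (k + 1)) * (1 - 2 * ε))) := by
        rw [h4] at h1
        have h7 : C * (4 / 5 * τ) ^ (1 - 2 * ε) ≤
            C * (2 : ℝ) ^ (((l : ℝ) - (k + 1)) * (1 - 2 * ε)) := by
          rw [← h3]
          gcongr
        linarith
      refine h6.trans ?_
      rw [mul_assoc, mul_assoc, ← e2_add]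
      have h8 : (2 : ℝ) ^ (((l : ℝ) - (k + 1)) * (1 - 2 * ε)) ≤
          (2 : ℝ) ^ ((2 * θ + δ' / 2) * ((k : ℝ) + 1) - 2 * l +
            (2 * (l : ℝ) + -(2 * σ * (k + 1)) + ((l : ℝ) - (k + 1)))) := by
        apply e2_le
        rw [hσ, hε]
        have : 0 ≤ δ' * (l : ℝ) := by positivity
        nlinarith
      gcongr
    refine h5.trans ?_
    have h6 := hI2 k (by omega)
    have h7 : (2 : ℝ) ^ (2 * θ + δ' / 2) ≤ 4 := by
      calc (2 : ℝ) ^ (2 * θ + δ' / 2) ≤ (2 : ℝ) ^ (2 : ℝ) := e2_le (by linarith)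
        _ = 4 := by norm_num
    calc 625 * C * (2 : ℝ) ^ ((2 * θ + δ' / 2) * ((k : ℝ) + 1) - 2 * l)
        = 625 * C * (2 : ℝ) ^ (2 * θ + δ' / 2) * (2 : ℝ) ^ ((2 * θ + δ' / 2) * (k : ℝ) - 2 * l) := by
          rw [mul_assoc (625 * C), ← e2_add]
          congr 2
          ring
      _ ≤ 625 * C * 4 * (2 : ℝ) ^ ((2 * θ + δ' / 2) * (k : ℝ) - 2 * l) := by gcongr
      _ = (2500 * C) * (2 : ℝ) ^ ((2 * θ + δ' / 2) * (k : ℝ) - 2 * l) := by ring
      _ ≤ (2 : ℝ) ^ (δ' / 2 * (k : ℝ)) * (2 : ℝ) ^ ((2 * θ + δ' / 2) * (k : ℝ) - 2 * l) := by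
          gcongr
          linarith
      _ = (2 : ℝ) ^ (δ' / 2 * (k : ℝ) + ((2 * θ + δ' / 2) * (k : ℝ) - 2 * l)) := (e2_add _ _).symm
      _ ≤ (2 : ℝ) ^ ((1 + δ) * k - 2 * l) := by
          apply e2_le
          have : δ' * k ≤ (δ - (2 * θ - 1)) * k := mul_le_mul_of_nonneg_right hδ'3 hkR
          linarith
  · -- disjointness
    intro i hi j hj hij
    have hmono : ∀ i j : ℕ, 1 ≤ i → i < j → Disjoint
        (Ioo (Real.log (i * 2 ^ l : ℕ) + 4 / 5 * ((2 : ℝ) ^ l / 2 ^ (k + 1)))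
          (Real.log ((i + 1) * 2 ^ l : ℕ) - 2 * ((2 : ℝ) ^ l / 2 ^ (k + 1) / 50)))
        (Ioo (Real.log (j * 2 ^ l : ℕ) + 4 / 5 * ((2 : ℝ) ^ l / 2 ^ (k + 1)))
          (Real.log ((j + 1) * 2 ^ l : ℕ) - 2 * ((2 : ℝ) ^ l / 2 ^ (k + 1) / 50))) := by
      intro i j hi hij
      rw [Set.disjoint_left]
      rintro x ⟨_, h2⟩ ⟨h3, _⟩
      have h4 : (i + 1) * 2 ^ l ≤ j * 2 ^ l := Nat.mul_le_mul_right _ hij
      have h5 : 0 < (i + 1) * 2 ^ l := by positivity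
      have h6 := Real.log_le_log (by exact_mod_cast h5 : (0 : ℝ) < ((i + 1) * 2 ^ l : ℕ))
        (by exact_mod_cast h4 : (((i + 1) * 2 ^ l : ℕ) : ℝ) ≤ ((j * 2 ^ l : ℕ) : ℝ))
      rw [← hτ] at h2 h3
      linarith
    rcases Nat.lt_or_gt_of_ne hij with h | h
    · exact hmono i j (hj12 i hi).1 h
    · exact (hmono j i (hj12 j hj).1 h).symm
  · -- the lower bound
    intro j hj x hx
    obtain ⟨g1, g2⟩ := Finset.mem_filter.1 hj
    have h1 := bad_largeq (by linarith : 1 / 4 ≤ θ) hz (σ := σ) (by linarith) (by linarith) (by linarith) hlk (by omega) g1 g2 hpp hx.1 hx.2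
    show c ≤ ‖EE (τ / 50) (4 / 5 * τ) σ x‖ ^ 2 * Real.exp (-(2 * σ * x))
    rw [hc]
    have h2 : (2 : ℝ) ^ (-(2 * σ * (k + 1))) ≤ Real.exp (-(2 * σ * x)) := by
      rw [Real.rpow_def_of_pos (by norm_num), Real.exp_le_exp]
      have h3 : x ≤ Real.log 2 * (k + 1) := by
        have h4 : (j + 1) * 2 ^ l ≤ 2 ^ (k + 1) := by
          calc (j + 1) * 2 ^ l ≤ 2 ^ (k - l + 1) * 2 ^ l := Nat.mul_le_mul_right _ (hj12 j hj).2
            _ = 2 ^ (k + 1) := by rw [← pow_add]; congr 1; omega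
        have h5 : 0 < (j + 1) * 2 ^ l := by positivity
        have h6 := Real.log_le_log (by exact_mod_cast h5 : (0 : ℝ) < ((j + 1) * 2 ^ l : ℕ))
          (by exact_mod_cast h4 : (((j + 1) * 2 ^ l : ℕ) : ℝ) ≤ ((2 ^ (k + 1) : ℕ) : ℝ))
        have h7 : Real.log ((2 ^ (k + 1) : ℕ) : ℝ) = Real.log 2 * (k + 1) := by
          push_cast
          rw [Real.log_pow]
          push_cast
          ring
        have h8 := hx.2
        rw [← hτ] at h8
        linarith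
      have h9 : σ * x ≤ σ * (Real.log 2 * (k + 1)) := by
        apply mul_le_mul_of_nonneg_left h3
        rw [hσ]
        positivity
      linarith
    gcongr

end

end Pool.Agent.W164.MO.Q
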