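import Pool.Agent.W164.MO.Fin7
import Pool.Agent.W164.MO.QBB
import Pool.Agent.W402.MO.MC
import Pool.Agent.W571.MO.MB
import Pool.Agent.W66.MO.ML
import Pool.Agent.W66.MO.RG
import Pool.Agent.W168.MO.SN1
import Pool.Agent.W150.MO.SN3c
import Pool.Agent.W638.MO.CLa

/-!
# The completely multiplicative function from a zero free half plane
-/

set_option autoImplicit false

open Finset

namespace Pool.Agent.W164.MO.Q

open Pool.Agent.W164.MO

/-- There is an absolute constant `η₀ > 0` such that, if `ζ` has no zero with real part larger than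
`1 / 2 + η₀`, then there is a completely multiplicative function with power saving beyond the square
root in its partial sums. -/
theorem main : ∃ η₀ : ℝ, 0 < η₀ ∧ ((∀ s : ℂ, riemannZeta s = 0 → s.re ≤ 1 / 2 + η₀) →
    ∃ (η : ℝ) (f : ℕ → ℝ), 0 < η ∧ f 0 = 0 ∧ f 1 = 1 ∧
      (∀ m n : ℕ, f (m * n) = f m * f n) ∧ (∀ p : ℕ, p.Prime → |f p| < 1) ∧
      ∃ C : ℝ, ∀ n : ℕ, 1 ≤ n → |∑ m ∈ Icc 1 n, f m| ≤ C * (n : ℝ) ^ (-(1 / 2) - η)) := by
  have hSN : S_SN := Pool.Agent.W150.MO.sn3 Pool.Agent.W168.MO.sn1 Pool.Agent.W424.MO.sn2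
  have hCL : S_CL := Pool.Agent.W327.MO.clb Pool.Agent.W638.MO.cla
  have hML : S_ML := Pool.Agent.W66.MO.ml
  have hRG : S_RG := Pool.Agent.W66.MO.rg
  have hEU : S_EU := Pool.Agent.W366.MO.eu
  have hMA : S_MA := Pool.Agent.W583.MO.ma hML
  have hMB : S_MB := Pool.Agent.W571.MO.mb hML hEU
  have hMC : S_MC := Pool.Agent.W402.MO.mc hRG hEU
  obtain ⟨c, ν, c₁, hc, hc1, hν, hνc, hc₁, hSYS⟩ := sysq hSN hCL
  refine ⟨ν / 4000, by positivity, fun hz => ?_⟩
  have hz' : ∀ s : ℂ, 1 / 2 + ν / 4000 < s.re → Pool.Agent.H295R2.Zs s ≠ 0 := by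
    intro s hs
    by_cases h1 : s = 1
    · rw [h1, Pool.Agent.W306.Zs_one]
      exact one_ne_zero
    · rw [← Pool.Agent.H295R2.Zs_eq h1]
      refine mul_ne_zero (sub_ne_zero.2 h1) fun h0 => ?_
      have := hz s h0
      linarith
  have hBB : BBd (ν / 1000) := bbq (θ := 1 / 2 + ν / 4000) (by linarith [hν.le]) (by linarith) hz'
    (by linarith)
  obtain ⟨f, h⟩ := Pool.Agent.W164.MO.Fin.core hc hc1 hν hνc hc₁ (hSYS hBB) hMA hMB hMC
  exact ⟨ν / 2000, f, by positivity, h⟩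

end Pool.Agent.W164.MO.Q
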