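import Pool.Agent.W327.MO.SY1
import Pool.Agent.W402.MO.SY2
import Pool.Agent.W933.MO.SY3

/-!
# The system from a bound for the number of bad blocks (weaker than RH)

Versions of the theorems `sy1` (helper327), `sy2` (helper402), `sy3` (helper933) in which the Riemann
hypothesis is replaced by the bound for the number of bad blocks for one small exponent.
-/

set_option autoImplicit false

open Finset

namespace Pool.Agent.W164.MO.Q

open Pool.Agent.W164.MO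

/-- few bad blocks, with exponent `δ` -/
def BBd (δ : ℝ) : Prop := ∃ K : ℕ, ∀ k l : ℕ, K ≤ k → l ≤ k →
  (((idx k l).filter (fun j => Bad k l j)).card : ℝ) ≤ (2 : ℝ) ^ ((1 + δ) * k - 2 * l)

theorem BBd_mono {δ δ' : ℝ} (h : δ ≤ δ') (hB : BBd δ) : BBd δ' := by
  obtain ⟨K, hK⟩ := hB
  refine ⟨K, fun k l hk hl => (hK k l hk hl).trans ?_⟩
  apply Real.rpow_le_rpow_of_exponent_le (by norm_num)
  have : (0 : ℝ) ≤ k := Nat.cast_nonneg k
  nlinarith

/-- the system exists if there are few bad blocks -/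
def S_SYSq : Prop := ∃ c ν c₁ : ℝ, 0 < c ∧ c ≤ 1 / 10 ∧ 0 < ν ∧ ν ≤ c / 2 ∧ 0 < c₁ ∧
  (BBd (ν / 1000) → ∀ K : ℕ, ∃ k₀ k₁ : ℕ, K ≤ k₀ ∧ k₀ < k₁ ∧ ∃ (Od Sp : Set ℕ) (q : ℕ → ℕ),
    Sys c ν c₁ k₀ k₁ Od Sp q)

section SY1

open Pool.Agent.W327.MO

open Classical in
theorem sy1q {c ν : ℝ} (hc : 0 < c) (hc1 : c ≤ 1 / 10) (hν : 0 < ν) (hνc : ν ≤ c / 2)
    (hBB : BBd (ν / 1000)) : ∃ K : ℕ, ∀ k₁ i : ℕ, K ≤ k₁ →
    (((Ico (2 ^ i) (2 ^ (i + 1))).filter (fun p => ∃ N, Src c ν k₁ N p)).card : ℝ) ≤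
      (2 : ℝ) ^ ((1 - c / 4) * (i : ℝ)) ∧
    (((Ico (2 ^ i) (2 ^ (i + 1))).filter (fun p => k₁ ≤ i ∧
      Bad i (ll ν k₁ i) (p / 2 ^ ll ν k₁ i))).card : ℝ) ≤ (2 : ℝ) ^ ((1 - c / 4) * (i : ℝ)) := by
  classical
  obtain ⟨K0, hK0⟩ := hBB
  obtain ⟨I0, hI0⟩ := lin_le_exp (13 / 20 * c) 32 48 (by positivity)
  have hν1 : ν ≤ 1 := by linarith
  refine ⟨K0 + 2 * I0 + ⌈1 / c⌉₊ + 10, fun k₁ i hk₁ => ⟨?_, ?_⟩⟩
  · -- the large primes
    set s := (Ico (2 ^ i) (2 ^ (i + 1))).filter (fun p => ∃ N, Src c ν k₁ N p) with hs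
    by_cases hne : s.Nonempty
    swap
    · rw [not_nonempty_iff_eq_empty] at hne
      rw [hne, card_empty]
      push_cast
      positivity
    have hch : ∀ p : ℕ, ∃ N : ℕ, p ∈ s → Src c ν k₁ N p := by
      intro p
      by_cases hp : p ∈ s
      · obtain ⟨N, hN⟩ := (mem_filter.1 hp).2
        exact ⟨N, fun _ => hN⟩
      · exact ⟨0, fun h => absurd h hp⟩
    choose g hg using hch
    set H : ℕ := ⌊2 * ((i : ℝ) + 1) / (1 + c)⌋₊ with hH
    have hH0 : 0 ≤ 2 * ((i : ℝ) + 1) / (1 + c) := by positivity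
    have hlogH : ∀ p ∈ s, Nat.log 2 (g p) ≤ H := by
      intro p hp
      obtain ⟨_, _, _, _, _, h6, _⟩ := hg p hp
      have hp2 := (mem_Ico.1 (mem_filter.1 hp).1).2
      have h7 : (2 : ℝ) ^ ((1 / 2 + c / 2) * (Nat.log 2 (g p) : ℝ)) < (2 : ℝ) ^ ((i : ℝ) + 1) := by
        refine h6.trans ?_
        have : ((p : ℕ) : ℝ) < ((2 ^ (i + 1) : ℕ) : ℝ) := by exact_mod_cast hp2
        refine this.trans_eq ?_
        push_cast
        rw [← Real.rpow_natCast]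
        push_cast
        ring_nf
      have h8 := (Real.rpow_lt_rpow_left_iff (by norm_num : (1 : ℝ) < 2)).1 h7
      apply Nat.le_floor
      rw [le_div_iff₀ (by linarith)]
      nlinarith
    -- `i` is large
    obtain ⟨p₀, hp₀⟩ := hne
    have hi1 : (k₁ : ℝ) / 2 < (i : ℝ) + 1 := by
      obtain ⟨_, h2, _, _, _, h6, _⟩ := hg p₀ hp₀
      have h9 := hlogH p₀ hp₀
      have h10 : (Nat.log 2 (g p₀) : ℝ) ≤ 2 * ((i : ℝ) + 1) / (1 + c) :=
        (Nat.cast_le.2 h9).trans (Nat.floor_le hH0)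
      rw [le_div_iff₀ (by linarith)] at h10
      have h11 : (k₁ : ℝ) ≤ Nat.log 2 (g p₀) := by exact_mod_cast h2
      have h12 : (0 : ℝ) < k₁ := by exact_mod_cast (by omega : 0 < k₁)
      nlinarith
    have hiI : I0 ≤ i := by
      have h1 : ((K0 + 2 * I0 + ⌈1 / c⌉₊ + 10 : ℕ) : ℝ) ≤ k₁ := by exact_mod_cast hk₁
      push_cast at h1
      have h2 : (0 : ℝ) ≤ K0 := Nat.cast_nonneg _
      have h3 : (0 : ℝ) ≤ (⌈1 / c⌉₊ : ℝ) := Nat.cast_nonneg _
      have : (I0 : ℝ) ≤ i := by linarith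
      exact_mod_cast this
    -- the map to the bad numbers
    set U : ℕ → Finset ℕ := fun h => if k₁ ≤ h then (Ico (2 ^ h) (2 ^ (h + 1))).filter
      (fun n => Bad h (ll ν k₁ h) (n / 2 ^ ll ν k₁ h)) else ∅ with hU
    have hmaps : ∀ p ∈ s, g p ∈ (range (H + 1)).biUnion U := by
      intro p hp
      obtain ⟨h1, h2, h3, _⟩ := hg p hp
      rw [mem_biUnion]
      refine ⟨Nat.log 2 (g p), mem_range.2 (Nat.lt_succ_of_le (hlogH p hp)), ?_⟩
      rw [hU]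
      simp only [if_pos h2]
      rw [mem_filter, mem_Ico]
      exact ⟨⟨Nat.pow_log_le_self 2 h1, Nat.lt_pow_succ_log_self (by norm_num) _⟩, h3⟩
    have hinj : Set.InjOn g (s : Set ℕ) := by
      intro p hp p' hp' heq
      obtain ⟨h1, h2, _, h4, h5, h6, _⟩ := hg p hp
      obtain ⟨h1', h2', _, h4', h5', h6', _⟩ := hg p' hp'
      by_contra hne
      rw [← heq] at h5' h6'
      have hcop : Nat.Coprime p p' := (Nat.coprime_primes h4 h4').2 hne
      have hdvd : p * p' ∣ g p := hcop.mul_dvd_of_dvd_of_dvd h5 h5'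
      have hle := Nat.le_of_dvd (Nat.pos_of_ne_zero h1) hdvd
      have hlt := Nat.lt_pow_succ_log_self (b := 2) (by norm_num) (g p)
      set h := Nat.log 2 (g p) with hh
      have h7 : (p : ℝ) * p' < (2 : ℝ) ^ ((h : ℝ) + 1) := by
        have h8 : ((p * p' : ℕ) : ℝ) < ((2 ^ (h + 1) : ℕ) : ℝ) := by
          exact_mod_cast hle.trans_lt hlt
        push_cast at h8
        refine h8.trans_eq ?_
        rw [← Real.rpow_natCast]
        push_cast
        ring_nf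
      have h9 : (2 : ℝ) ^ ((1 / 2 + c / 2) * (h : ℝ)) * (2 : ℝ) ^ ((1 / 2 + c / 2) * (h : ℝ)) <
          (p : ℝ) * p' := mul_lt_mul'' h6 h6' (by positivity) (by positivity)
      rw [← Real.rpow_add (by norm_num)] at h9
      have h10 := (Real.rpow_lt_rpow_left_iff (by norm_num : (1 : ℝ) < 2)).1 (h9.trans h7)
      have h11 : 1 / c ≤ (h : ℝ) := by
        have h12 : ⌈1 / c⌉₊ ≤ h := by omega
        exact (Nat.le_ceil _).trans (by exact_mod_cast h12)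
      rw [div_le_iff₀ hc] at h11
      nlinarith
    have hcard1 : s.card ≤ ∑ h ∈ range (H + 1), (U h).card :=
      (card_le_card_of_injOn g hmaps hinj).trans card_biUnion_le
    have hUb : ∀ h ∈ range (H + 1), ((U h).card : ℝ) ≤
        (2 : ℝ) ^ ((1 / 2 + 2 * (ν / 1000)) * (H : ℝ) + 1) := by
      intro h hh
      rw [mem_range] at hh
      by_cases hk : k₁ ≤ h
      · have h1 : U h = (Ico (2 ^ h) (2 ^ (h + 1))).filter
            (fun n => Bad h (ll ν k₁ h) (n / 2 ^ ll ν k₁ h)) := by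
          rw [hU]
          simp only [if_pos hk]
        rw [h1]
        refine (bad_card hν hν1 hK0 (by omega) hk).trans ?_
        apply Real.rpow_le_rpow_of_exponent_le (by norm_num)
        have h2 : (h : ℝ) ≤ H := by exact_mod_cast (by omega : h ≤ H)
        have h3 : 0 ≤ 1 / 2 + 2 * (ν / 1000) := by positivity
        nlinarith
      · have h1 : U h = ∅ := by
          rw [hU]
          simp only [if_neg hk]
        rw [h1, card_empty]
        push_cast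
        positivity
    have hcard2 : (s.card : ℝ) ≤ ((H : ℝ) + 1) *
        (2 : ℝ) ^ ((1 / 2 + 2 * (ν / 1000)) * (H : ℝ) + 1) := by
      calc (s.card : ℝ) ≤ ((∑ h ∈ range (H + 1), (U h).card : ℕ) : ℝ) := by exact_mod_cast hcard1
        _ = ∑ h ∈ range (H + 1), ((U h).card : ℝ) := by push_cast; rfl
        _ ≤ ∑ h ∈ range (H + 1), (2 : ℝ) ^ ((1 / 2 + 2 * (ν / 1000)) * (H : ℝ) + 1) :=
            sum_le_sum hUb
        _ = _ := by rw [sum_const, card_range, nsmul_eq_mul]; push_cast; ring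
    refine hcard2.trans ?_
    have hHR : (H : ℝ) * (1 + c) ≤ 2 * ((i : ℝ) + 1) := by
      have := Nat.floor_le hH0
      rw [← hH, le_div_iff₀ (by linarith)] at this
      exact this
    have hH1 : (H : ℝ) + 1 ≤ 2 * i + 3 := by
      have : (0 : ℝ) ≤ H := Nat.cast_nonneg _
      nlinarith
    have hexp : (1 / 2 + 2 * (ν / 1000)) * (H : ℝ) + 1 ≤ (1 - 9 / 10 * c) * ((i : ℝ) + 1) + 1 := by
      have h1 : (1 / 2 + 2 * (ν / 1000)) ≤ (1 - 9 / 10 * c) * (1 + c) / 2 := by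
        nlinarith
      have h2 : (0 : ℝ) ≤ H := Nat.cast_nonneg _
      have h3 : 0 ≤ (1 - 9 / 10 * c) := by linarith
      calc (1 / 2 + 2 * (ν / 1000)) * (H : ℝ) + 1
          ≤ ((1 - 9 / 10 * c) * (1 + c) / 2) * H + 1 := by gcongr
        _ = (1 - 9 / 10 * c) / 2 * (H * (1 + c)) + 1 := by ring
        _ ≤ (1 - 9 / 10 * c) / 2 * (2 * ((i : ℝ) + 1)) + 1 := by gcongr
        _ = _ := by ring
    have h2i := hI0 i hiI
    have hfin : ((H : ℝ) + 1) * 4 ≤ (2 : ℝ) ^ (13 / 20 * c * (i : ℝ)) := by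
      have : (0 : ℝ) ≤ i := Nat.cast_nonneg _
      linarith
    calc ((H : ℝ) + 1) * (2 : ℝ) ^ ((1 / 2 + 2 * (ν / 1000)) * (H : ℝ) + 1)
        ≤ ((H : ℝ) + 1) * (2 : ℝ) ^ ((1 - 9 / 10 * c) * ((i : ℝ) + 1) + 1) := by
          gcongr
          norm_num
      _ ≤ ((H : ℝ) + 1) * (4 * (2 : ℝ) ^ ((1 - 9 / 10 * c) * (i : ℝ))) := by
          gcongr
          rw [show (4 : ℝ) = (2 : ℝ) ^ (2 : ℝ) by norm_num, ← Real.rpow_add (by norm_num)]
          apply Real.rpow_le_rpow_of_exponent_le (by norm_num)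
          nlinarith
      _ = (((H : ℝ) + 1) * 4) * (2 : ℝ) ^ ((1 - 9 / 10 * c) * (i : ℝ)) := by ring
      _ ≤ (2 : ℝ) ^ (13 / 20 * c * (i : ℝ)) * (2 : ℝ) ^ ((1 - 9 / 10 * c) * (i : ℝ)) := by
          gcongr
      _ = _ := by
          rw [← Real.rpow_add (by norm_num)]
          congr 1
          ring
  · -- the primes in bad blocks
    by_cases hki : k₁ ≤ i
    · have h1 : (Ico (2 ^ i) (2 ^ (i + 1))).filter (fun p => k₁ ≤ i ∧
          Bad i (ll ν k₁ i) (p / 2 ^ ll ν k₁ i)) = (Ico (2 ^ i) (2 ^ (i + 1))).filter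
          (fun p => Bad i (ll ν k₁ i) (p / 2 ^ ll ν k₁ i)) := by
        ext p
        simp [hki]
      rw [h1]
      refine (bad_card hν hν1 hK0 (by omega) hki).trans ?_
      apply Real.rpow_le_rpow_of_exponent_le (by norm_num)
      have h2 : (10 : ℝ) ≤ i := by exact_mod_cast (by omega : 10 ≤ i)
      nlinarith
    · have h1 : (Ico (2 ^ i) (2 ^ (i + 1))).filter (fun p => k₁ ≤ i ∧
          Bad i (ll ν k₁ i) (p / 2 ^ ll ν k₁ i)) = ∅ := by
        ext p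
        simp [hki]
      rw [h1, card_empty]
      push_cast
      positivity


end SY1

section SY2

open Pool.Agent.W402.MO

open Classical in
theorem sy2q (hCL : S_CL) {c ν : ℝ} (hc : 0 < c) (hc1 : c ≤ 1 / 10) (hν : 0 < ν) (hνc : ν ≤ c / 2)
    (hBB : BBd (ν / 1000)) : ∃ K : ℕ, ∀ k₁ k j : ℕ, K ≤ k₁ → j ∈ idx k (ll ν k₁ k) →
    (((blk (ll ν k₁ k) j).filter (fun n => ∃ N p : ℕ, Src c ν k₁ N p ∧ p ∣ n ∧
      2 ^ ll ν k₁ k ≤ p ∧ ¬ (N ∣ n ∧ (n : ℝ) < (2 : ℝ) ^ (ν / 8 * (k : ℝ)) * N))).card : ℝ) ≤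
      2 ^ ll ν k₁ k * (2 : ℝ) ^ (-(ν / 32 * (k : ℝ))) := by
  classical
  have hν1 : ν ≤ 1 := by linarith
  obtain ⟨K₁, hK₁⟩ := hBB
  obtain ⟨K₂, hK₂⟩ := hCL (ν / 1000) c ν (ν / 8) (by positivity) hc (by linarith) (by linarith) hν hν1
    (by positivity)
  obtain ⟨K₃, hK₃⟩ := num_bd hν
  refine ⟨K₁ + 2 * K₂ + 2 * K₃ + 4, fun k₁ k j hk₁ hj => ?_⟩
  set l := ll ν k₁ k with hl
  have hlk : l ≤ k := ll_le hν hν1 k₁ k
  set T := (blk l j).filter (fun n => ∃ N p : ℕ, Src c ν k₁ N p ∧ p ∣ n ∧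
      2 ^ l ≤ p ∧ ¬ (N ∣ n ∧ (n : ℝ) < (2 : ℝ) ^ (ν / 8 * (k : ℝ)) * N)) with hT
  rcases T.eq_empty_or_nonempty with h0 | ⟨n₀, hn₀⟩
  · rw [h0]; simp; positivity
  -- a bound for `h`
  have hscale : ∀ n ∈ T, ∀ N p : ℕ, Src c ν k₁ N p → p ∣ n → Nat.log 2 N < 2 * (k + 1) := by
    intro n hn N p hs hpn
    obtain ⟨hN, hk, hB, hp, hpN, hlo, hup, hR⟩ := hs
    have hnb : n ∈ blk l j := (mem_filter.1 hn).1
    rw [blk_eq, mem_Ico] at hnb
    have hnlt : n < 2 ^ (k + 1) := lt_of_lt_of_le hnb.2 (blk_up hlk hj)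
    have hn0 : 0 < n := by
      have := blk_low hlk hj
      have h2 : 0 < 2 ^ k := by positivity
      omega
    have hpn' : p < 2 ^ (k + 1) := lt_of_le_of_lt (Nat.le_of_dvd hn0 hpn) hnlt
    have h3 : (2 : ℝ) ^ ((1 / 2 + c / 2) * (Nat.log 2 N : ℝ)) < (2 : ℝ) ^ ((k + 1 : ℕ) : ℝ) := by
      refine lt_trans hlo ?_
      rw [Real.rpow_natCast]
      exact_mod_cast hpn'
    have h4 := (Real.rpow_lt_rpow_left_iff (by norm_num : (1 : ℝ) < 2)).1 h3
    have h5 : (0 : ℝ) ≤ (Nat.log 2 N : ℝ) := Nat.cast_nonneg _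
    have h6 : ((Nat.log 2 N : ℕ) : ℝ) < ((2 * (k + 1) : ℕ) : ℝ) := by
      push_cast at h4 ⊢
      nlinarith
    exact_mod_cast h6
  have hkbig : k₁ < 2 * (k + 1) := by
    obtain ⟨N, p, hs, hpn, hp2, hres⟩ := (mem_filter.1 hn₀).2
    have := hscale n₀ hn₀ N p hs hpn
    have h2 := hs.2.1
    omega
  -- the covering
  set U : ℕ → ℕ → Finset ℕ := fun h j₀ =>
    (Ico (j * 2 ^ l) (j * 2 ^ l + 2 ^ l)).filter (fun n =>
      ∃ N ∈ Ico (j₀ * 2 ^ ll ν k₁ h) (j₀ * 2 ^ ll ν k₁ h + 2 ^ ll ν k₁ h),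
        Rough ((2 : ℝ) ^ (ν * (h : ℝ))) N ∧
        (∃ g : ℕ, g ∣ n ∧ g ∣ N ∧
          max (((2 ^ l : ℕ) : ℝ)) ((2 : ℝ) ^ ((1 / 2 + c / 2) * (h : ℝ))) ≤ (g : ℝ)) ∧
        ¬ (N ∣ n ∧ (n : ℝ) < (2 : ℝ) ^ (ν / 8 * (k : ℝ)) * N)) with hU
  have hcov : T ⊆ (Icc k₁ (2 * k + 2)).biUnion (fun h =>
      ((idx h (ll ν k₁ h)).filter (fun j₀ => Bad h (ll ν k₁ h) j₀)).biUnion (fun j₀ => U h j₀)) := by
    intro n hn
    obtain ⟨hnb, N, p, hs, hpn, hp2, hres⟩ := mem_filter.1 hn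
    have h1 := hscale n hn N p hs hpn
    have hrough := rough_src hc hνc hs
    obtain ⟨hN, hk, hB, hp, hpN, hlo, hup, hR⟩ := hs
    rw [mem_biUnion]
    refine ⟨Nat.log 2 N, mem_Icc.2 ⟨hk, by omega⟩, ?_⟩
    rw [mem_biUnion]
    refine ⟨N / 2 ^ ll ν k₁ (Nat.log 2 N), ?_, ?_⟩
    · rw [mem_filter]
      exact ⟨mem_idx_self hN (ll_le hν hν1 _ _), hB⟩
    · rw [hU, mem_filter]
      refine ⟨?_, N, ?_, hrough, ⟨p, hpn, hpN, ?_⟩, hres⟩
      · rw [← blk_eq]; exact hnb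
      · rw [← blk_eq]; exact mem_blk_self _ _
      · apply max_le _ hlo.le
        exact_mod_cast hp2
  -- bounds
  have hcard : ∀ h ∈ Icc k₁ (2 * k + 2), ∀ j₀ ∈ (idx h (ll ν k₁ h)).filter
      (fun j₀ => Bad h (ll ν k₁ h) j₀), ((U h j₀).card : ℝ) ≤
        2 ^ l * (2 : ℝ) ^ (-(ν / 16 * (k : ℝ))) := by
    intro h hh j₀ hj₀
    rw [mem_Icc] at hh
    have hj₀' := (mem_filter.1 hj₀).1
    have hlh : ll ν k₁ h ≤ h := ll_le hν hν1 k₁ h
    have := hK₂ k (j * 2 ^ l) (2 ^ l) h (j₀ * 2 ^ ll ν k₁ h) (2 ^ ll ν k₁ h) (by omega)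
      (blk_low hlk hj) (blk_up hlk hj) (blk_low hlh hj₀') (blk_up hlh hj₀') ?_ ?_
      (max (((2 ^ l : ℕ) : ℝ)) ((2 : ℝ) ^ ((1 / 2 + c / 2) * (h : ℝ)))) (le_max_left _ _)
      (le_max_right _ _)
    · have e : min (ν / 8) (min (ν / 4) (c / 10)) / 2 = ν / 16 := by
        rw [min_eq_left]
        · ring
        · apply le_min
          · linarith
          · linarith
      rw [e] at this
      rw [hU]
      push_cast at this ⊢
      exact this
    · push_cast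
      rw [← Real.rpow_natCast 2 l]
      apply Real.rpow_le_rpow_of_exponent_le (by norm_num)
      exact ll_lower hν k₁ k
    · push_cast
      rw [← Real.rpow_natCast 2 (ll ν k₁ h)]
      apply Real.rpow_le_rpow_of_exponent_le (by norm_num)
      exact ll_upper hν1 hh.1
  have hR : ∀ h ∈ Icc k₁ (2 * k + 2), ((((idx h (ll ν k₁ h)).filter
      (fun j₀ => Bad h (ll ν k₁ h) j₀)).card : ℕ) : ℝ) ≤
        (2 : ℝ) ^ (3 * (ν / 1000) * (2 * (k : ℝ) + 2) + 2) := by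
    intro h hh
    rw [mem_Icc] at hh
    refine le_trans (hK₁ h (ll ν k₁ h) (by omega) (ll_le hν hν1 _ _)) ?_
    apply Real.rpow_le_rpow_of_exponent_le (by norm_num)
    have h1 := ll_lower hν k₁ h
    have h2 : (h : ℝ) ≤ 2 * (k : ℝ) + 2 := by exact_mod_cast hh.2
    nlinarith
  have hB0 : (0 : ℝ) ≤ 2 ^ l * (2 : ℝ) ^ (-(ν / 16 * (k : ℝ))) := by positivity
  calc (T.card : ℝ) ≤ ((((Icc k₁ (2 * k + 2)).biUnion (fun h =>
      ((idx h (ll ν k₁ h)).filter (fun j₀ => Bad h (ll ν k₁ h) j₀)).biUnion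
        (fun j₀ => U h j₀))).card : ℕ) : ℝ) := by exact_mod_cast card_le_card hcov
    _ ≤ ((∑ h ∈ Icc k₁ (2 * k + 2), ((((idx h (ll ν k₁ h)).filter
          (fun j₀ => Bad h (ll ν k₁ h) j₀)).biUnion (fun j₀ => U h j₀)).card) : ℕ) : ℝ) := by
        exact_mod_cast card_biUnion_le
    _ = ∑ h ∈ Icc k₁ (2 * k + 2), (((((idx h (ll ν k₁ h)).filter
          (fun j₀ => Bad h (ll ν k₁ h) j₀)).biUnion (fun j₀ => U h j₀)).card : ℕ) : ℝ) := by
        push_cast; rfl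
    _ ≤ ∑ h ∈ Icc k₁ (2 * k + 2), (2 : ℝ) ^ (3 * (ν / 1000) * (2 * (k : ℝ) + 2) + 2) *
          (2 ^ l * (2 : ℝ) ^ (-(ν / 16 * (k : ℝ)))) := by
        apply sum_le_sum
        intro h hh
        calc (((((idx h (ll ν k₁ h)).filter
          (fun j₀ => Bad h (ll ν k₁ h) j₀)).biUnion (fun j₀ => U h j₀)).card : ℕ) : ℝ)
            ≤ ((∑ j₀ ∈ (idx h (ll ν k₁ h)).filter (fun j₀ => Bad h (ll ν k₁ h) j₀),
                (U h j₀).card : ℕ) : ℝ) := by exact_mod_cast card_biUnion_le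
          _ = ∑ j₀ ∈ (idx h (ll ν k₁ h)).filter (fun j₀ => Bad h (ll ν k₁ h) j₀),
                ((U h j₀).card : ℝ) := by push_cast; rfl
          _ ≤ ∑ j₀ ∈ (idx h (ll ν k₁ h)).filter (fun j₀ => Bad h (ll ν k₁ h) j₀),
                (2 ^ l * (2 : ℝ) ^ (-(ν / 16 * (k : ℝ)))) := sum_le_sum (hcard h hh)
          _ = ((((idx h (ll ν k₁ h)).filter (fun j₀ => Bad h (ll ν k₁ h) j₀)).card : ℕ) : ℝ) *
                (2 ^ l * (2 : ℝ) ^ (-(ν / 16 * (k : ℝ)))) := by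
              rw [sum_const, nsmul_eq_mul]
          _ ≤ _ := mul_le_mul_of_nonneg_right (hR h hh) hB0
    _ = ((Icc k₁ (2 * k + 2)).card : ℝ) * ((2 : ℝ) ^ (3 * (ν / 1000) * (2 * (k : ℝ) + 2) + 2) *
          (2 ^ l * (2 : ℝ) ^ (-(ν / 16 * (k : ℝ))))) := by rw [sum_const, nsmul_eq_mul]
    _ ≤ (2 * (k : ℝ) + 3) * ((2 : ℝ) ^ (3 * (ν / 1000) * (2 * (k : ℝ) + 2) + 2) *
          (2 ^ l * (2 : ℝ) ^ (-(ν / 16 * (k : ℝ))))) := by
        apply mul_le_mul_of_nonneg_right _ (by positivity)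
        rw [Nat.card_Icc]
        have : 2 * k + 2 + 1 - k₁ ≤ 2 * k + 3 := by omega
        exact_mod_cast this
    _ = 2 ^ l * ((2 * (k : ℝ) + 3) * (2 : ℝ) ^ (3 * (ν / 1000) * (2 * (k : ℝ) + 2) + 2) *
          (2 : ℝ) ^ (-(ν / 16 * (k : ℝ)))) := by ring
    _ ≤ 2 ^ l * (2 : ℝ) ^ (-(ν / 32 * (k : ℝ))) := by
        apply mul_le_mul_of_nonneg_left _ (by positivity)
        exact hK₃ k (by omega)


end SY2

section SY3

open Pool.Agent.W933.MO

lemma noBadq (hBB : BBd (1/6)) : ∃ K : ℕ, ∀ k : ℕ, K ≤ k →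
    (∀ j ∈ idx k (2 * k / 3), ¬ Bad k (2 * k / 3) j) ∧ (∀ j ∈ idx k k, ¬ Bad k k j) := by
  obtain ⟨K, hK⟩ := hBB
  refine ⟨max K 10, fun k hk => ?_⟩
  have hk1 : K ≤ k := le_trans (le_max_left _ _) hk
  have hk2 : 10 ≤ k := le_trans (le_max_right _ _) hk
  have hk2' : (10:ℝ) ≤ k := by exact_mod_cast hk2
  have key : ∀ l : ℕ, l ≤ k → (1 + (1/6 : ℝ)) * k - 2 * l < 0 →
      ∀ j ∈ idx k l, ¬ Bad k l j := by
    intro l hl hneg j hj hb
    have h := hK k l hk1 hl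
    have h2 : (2:ℝ) ^ ((1 + (1/6 : ℝ)) * k - 2 * l) < 1 :=
      Real.rpow_lt_one_of_one_lt_of_neg (by norm_num) hneg
    have h3 : (((idx k l).filter (fun j => Bad k l j)).card : ℝ) < 1 := lt_of_le_of_lt h h2
    have h4 : ((idx k l).filter (fun j => Bad k l j)).card < 1 := by exact_mod_cast h3
    have h5 : 0 < ((idx k l).filter (fun j => Bad k l j)).card := by
      apply Finset.card_pos.mpr
      exact ⟨j, Finset.mem_filter.mpr ⟨hj, hb⟩⟩
    omega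
  constructor
  · apply key _ (by omega)
    have : 2 * k ≤ 3 * (2 * k / 3) + 2 := by omega
    have : ((2 * k : ℕ) : ℝ) ≤ ((3 * (2 * k / 3) + 2 : ℕ) : ℝ) := by exact_mod_cast this
    push_cast at this
    have e : ((2 * k / 3 : ℕ) : ℝ) = ((2 * k / 3 : ℕ) : ℝ) := rfl
    nlinarith
  · apply key _ le_rfl
    nlinarith


open Classical in
theorem sysq (hSN : S_SN) (hCL : S_CL) : S_SYSq := by
  obtain ⟨c, hc, hc', hSN⟩ := hSN
  obtain ⟨ν₀, hν₀, hSN⟩ := hSN c hc le_rfl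
  set ν : ℝ := min ν₀ (c/2) with hνdef
  have hν : 0 < ν := lt_min hν₀ (by positivity)
  have hν' : ν ≤ c/2 := min_le_right _ _
  have hν1 : ν ≤ 1 := by linarith
  obtain ⟨c₁', hc1, K1, hSN⟩ := hSN ν hν (min_le_left _ _)
  refine ⟨c, ν, c₁' / 4, hc, hc', hν, hν', by positivity, fun hBB K => ?_⟩
  obtain ⟨K2, hSY1⟩ := sy1q hc hc' hν hν' hBB
  obtain ⟨K3, hSY2⟩ := sy2q hCL hc hc' hν hν' hBB
  obtain ⟨K4, hnb⟩ := noBadq (BBd_mono (by linarith) hBB)
  obtain ⟨K5, hdec⟩ := ev_decay (c * ν / 64) (min (c₁' / 32) (1/16)) (by positivity)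
    (lt_min (by positivity) (by norm_num))
  obtain ⟨K6, hK6⟩ := exists_nat_ge (2000 / (19 * c))
  set k₀ : ℕ := K + K1 + K2 + K3 + K4 + K5 + K6 + 10 with hk₀
  set k₁ : ℕ := ⌈(k₀:ℝ) / ν⌉₊ with hk₁
  have h01 : (k₀ : ℝ) ≤ ν * k₁ := by
    have := Nat.le_ceil ((k₀:ℝ) / ν)
    rw [← hk₁, div_le_iff₀ hν] at this
    linarith
  have hk10 : 20 * k₀ ≤ k₁ := by
    have h3 : (k₀:ℝ) ≤ (1/20) * k₁ := by
      refine le_trans h01 ?_
      apply mul_le_mul_of_nonneg_right _ (Nat.cast_nonneg _)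
      linarith
    have : (20:ℝ) * k₀ ≤ k₁ := by linarith
    exact_mod_cast this
  have hk01 : k₀ < k₁ := by omega
  have hk1pos : 1 ≤ k₁ := by omega
  have hS1 := fun i => hSY1 k₁ i (by omega)
  have hS2 : ∀ k j : ℕ, j ∈ idx k (ll ν k₁ k) →
      (((blk (ll ν k₁ k) j).filter (fun n => Z2 c ν k₁ k n)).card : ℝ) ≤
      2 ^ ll ν k₁ k * (2 : ℝ) ^ (-(ν / 32 * (k : ℝ))) := fun k j hj => hSY2 k₁ k j (by omega) hj
  have hll_small : ∀ k, k < k₁ → ll ν k₁ k = 2 * k / 3 := by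
    intro k hk; unfold ll; rw [if_pos hk]
  have hnoBad : ∀ k j : ℕ, k₀ ≤ k → k < k₁ → j ∈ idx k (ll ν k₁ k) → ¬ Bad k (ll ν k₁ k) j := by
    intro k j h1 h2 hj
    rw [hll_small k h2] at hj ⊢
    exact (hnb k (by omega)).1 j hj
  -- members of QQ are large
  have hQbig : ∀ p, p ∈ QQ c ν k₁ → 2 ^ (k₀ + 1) ≤ p := by
    rintro p ⟨N, h0, h1, h2, h3, h4, h5, h6, h7⟩
    have a1 : (2:ℝ) ^ (((k₀ + 1 : ℕ)) : ℝ) ≤ (2:ℝ) ^ ((1/2 + c/2) * (Nat.log 2 N : ℝ)) := by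
      apply Real.rpow_le_rpow_of_exponent_le (by norm_num)
      have b1 : (k₁:ℝ) ≤ (Nat.log 2 N : ℝ) := by exact_mod_cast h1
      have b2 : ((20 * k₀ : ℕ) : ℝ) ≤ (k₁:ℝ) := by exact_mod_cast hk10
      have b3 : ((10 : ℕ) : ℝ) ≤ (k₀:ℝ) := by exact_mod_cast (by omega : 10 ≤ k₀)
      push_cast at b2 b3 ⊢
      nlinarith
    rw [Real.rpow_natCast] at a1
    have : ((2 ^ (k₀ + 1) : ℕ) : ℝ) < p := by push_cast; exact lt_of_le_of_lt a1 h5
    exact_mod_cast this.le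
  refine ⟨k₀, k₁, by omega, hk01, OD c ν k₀ k₁, SP c ν k₀ k₁, qq c ν k₀ k₁, ?_⟩
  refine
    { k01 := h01
      ord := fun p hp => ⟨hp.1, hp.2.1⟩
      ord_good := ?_
      sp_prime := ?_
      sp_scale := fun N hN => (qq_spec hN).1.2.1
      sp_low := fun N hN => (qq_spec hN).1.2.2.2.2.2.1
      sp_up := fun N hN => (qq_spec hN).1.2.2.2.2.2.2.1
      sp_rough := fun N hN => (qq_spec hN).1.2.2.2.2.2.2.2
      sp_ord := fun N hN => (qq_spec hN).2.1
      sp_bad := fun N hN => (qq_spec hN).1.2.2.1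
      inj := ?_
      disj := ?_
      base := ?_
      good := ?_
      bad := ?_
      cl := ?_
      sparse := ?_ }
  · -- ord_good
    intro p hp hlog
    rcases lt_or_ge (Nat.log 2 p) k₁ with h | h
    · apply hnoBad _ _ hlog.le h
      exact (mem_blk_of_log (ll_le hν k₁ _) hp.1.ne_zero rfl).1
    · intro hb
      exact hp.2.2.2 ⟨h, hb⟩
  · intro N hN
    have h := (qq_spec hN).1
    exact ⟨h.1, h.2.2.2.1, h.2.2.2.2.1⟩
  · intro N hN N' hN' heq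
    by_contra hne
    have h' := qq_spec hN'
    exact h'.2.2 N hne (heq ▸ (qq_spec hN).1)
  · intro N hN hO
    exact hO.2.2.1 ⟨N, (qq_spec hN).1⟩
  · -- base
    have hj : 1 ∈ idx k₀ k₀ := by unfold idx; simp
    have hnbad := (hnb k₀ (by omega)).2 1 hj
    unfold Bad at hnbad
    push Not at hnbad
    have hb : blk k₀ 1 = Ico (2 ^ k₀) (2 ^ (k₀ + 1)) := by
      unfold blk; congr 1 <;> ring
    rw [hb] at hnbad
    have hs : (Ico (2 ^ k₀) (2 ^ (k₀ + 1))).filter Nat.Prime ⊆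
        (Ico (2 ^ k₀) (2 ^ (k₀ + 1))).filter (fun p => p ∈ OD c ν k₀ k₁) := by
      intro p hp
      rw [Finset.mem_filter, Finset.mem_Ico] at hp ⊢
      obtain ⟨⟨p1, p2⟩, p3⟩ := hp
      refine ⟨⟨p1, p2⟩, p3, p1, ?_, ?_⟩
      · intro hq
        have := hQbig p hq
        omega
      · rintro ⟨hb1, _⟩
        rw [Nat.log_eq_of_pow_le_of_lt_pow p1 p2] at hb1
        omega
    have := Finset.card_le_card hs
    calc 2 ^ k₀ ≤ 8 * k₀ * ((Ico (2 ^ k₀) (2 ^ (k₀ + 1))).filter Nat.Prime).card := hnbad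
      _ ≤ 16 * k₀ * ((Ico (2 ^ k₀) (2 ^ (k₀ + 1))).filter (fun p => p ∈ OD c ν k₀ k₁)).card := by
          apply Nat.mul_le_mul _ this
          omega
  · -- good
    intro k j hk hj hnbad
    set l := ll ν k₁ k with hl
    have hlk : l ≤ k := ll_le hν k₁ k
    have hkpos : (0:ℝ) < k := by exact_mod_cast (by omega : 0 < k)
    have hs : (blk l j).filter Nat.Prime ⊆ (blk l j).filter (fun p => p ∈ OD c ν k₀ k₁) ∪
        (blk l j).filter (fun n => Z2 c ν k₁ k n) := by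
      intro p hp
      rw [Finset.mem_filter] at hp
      obtain ⟨hpb, hpp⟩ := hp
      obtain ⟨f1, f2, f3, f4⟩ := blk_facts hlk hj hpb
      rw [Finset.mem_union, Finset.mem_filter, Finset.mem_filter]
      by_cases hq : p ∈ QQ c ν k₁
      · right
        refine ⟨hpb, ?_⟩
        obtain ⟨N, hN⟩ := hq
        refine ⟨N, p, hN, dvd_rfl, ?_, ?_⟩
        · rw [← hl]
          exact le_trans (Nat.pow_le_pow_right (by norm_num) hlk) f1
        · rintro ⟨hd, _⟩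
          have h1 := Nat.le_of_dvd hpp.pos hd
          have h2 := src_lt hc' hk1pos hN
          omega
      · left
        refine ⟨hpb, hpp, ?_, hq, ?_⟩
        · exact le_trans (Nat.pow_le_pow_right (by norm_num) hk.le) f1
        · rintro ⟨_, hb2⟩
          rw [f3, ← hl, f4] at hb2
          exact hnbad hb2
    unfold Bad at hnbad
    push Not at hnbad
    have hc2 := le_trans (Finset.card_le_card hs) (Finset.card_union_le _ _)
    set P := ((blk l j).filter Nat.Prime).card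
    set O := ((blk l j).filter (fun p => p ∈ OD c ν k₀ k₁)).card
    set Z := ((blk l j).filter (fun n => Z2 c ν k₁ k n)).card with hZ
    have hZ2 : (Z:ℝ) ≤ 2 ^ l * (2 : ℝ) ^ (-(ν / 32 * (k : ℝ))) := hS2 k j hj
    have hd := hdec k (by omega)
    have hd2 := le_trans hd (min_le_right _ _)
    have w2 : (2:ℝ) ^ (-(ν / 32 * (k:ℝ))) ≤ (2:ℝ) ^ (-(c * ν / 64 * (k:ℝ))) := by
      apply Real.rpow_le_rpow_of_exponent_le (by norm_num)
      have h8 : c * ν / 64 * (k:ℝ) ≤ ν / 32 * (k:ℝ) := by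
        apply mul_le_mul_of_nonneg_right _ hkpos.le
        nlinarith
      linarith
    set E : ℝ := (2:ℝ) ^ (-(c * ν / 64 * (k:ℝ))) with hE
    have hE0 : 0 ≤ E := by positivity
    have hkE : (k:ℝ) * E ≤ 1/16 := by
      have : (k:ℝ) * 1 * E ≤ (k:ℝ) * (k+1) * E := by
        apply mul_le_mul_of_nonneg_right _ hE0
        apply mul_le_mul_of_nonneg_left _ hkpos.le
        linarith
      linarith
    have hL0 : (0:ℝ) < (2:ℝ) ^ l := by positivity
    have h16 : 16 * (k:ℝ) * Z ≤ (2:ℝ) ^ l := by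
      have : (Z:ℝ) ≤ (2:ℝ) ^ l * E := le_trans hZ2 (mul_le_mul_of_nonneg_left w2 hL0.le)
      calc 16 * (k:ℝ) * Z ≤ 16 * (k:ℝ) * ((2:ℝ) ^ l * E) :=
            mul_le_mul_of_nonneg_left this (by positivity)
        _ = (2:ℝ) ^ l * (16 * ((k:ℝ) * E)) := by ring
        _ ≤ (2:ℝ) ^ l * 1 := by
            apply mul_le_mul_of_nonneg_left _ hL0.le
            linarith
        _ = _ := mul_one _
    have h16' : 16 * k * Z ≤ 2 ^ l := by exact_mod_cast h16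
    have e1 : 16 * k * P ≤ 16 * k * O + 16 * k * Z := by
      rw [← Nat.mul_add]; exact Nat.mul_le_mul_left _ hc2
    have e2 : 2 * (8 * k * P) = 16 * k * P := by ring
    omega
  · -- bad
    intro k j hk hj hbad
    have hkk : k₁ ≤ k := by
      by_contra hcon
      push Not at hcon
      exact hnoBad k j hk.le hcon hj hbad
    refine ⟨hkk, ?_⟩
    set l := ll ν k₁ k with hl
    have hlk : l ≤ k := ll_le hν k₁ k
    have hj' := hj
    unfold idx at hj'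
    rw [Finset.mem_Ico] at hj'
    obtain ⟨j1, j2⟩ := hj'
    have e1 : 2 ^ k = 2 ^ (k - l) * 2 ^ l := by rw [← pow_add]; congr 1; omega
    have e2 : 2 ^ (k+1) = 2 ^ (k - l + 1) * 2 ^ l := by rw [← pow_add]; congr 1; omega
    have hkpos : (0:ℝ) < k := by exact_mod_cast (by omega : 0 < k)
    have hSN' := hSN k (j * 2 ^ l) (2 ^ l) (by omega)
      (by rw [e1]; exact Nat.mul_le_mul_right _ j1)
      (by rw [e2]
          calc j * 2 ^ l + 2 ^ l = (j+1) * 2 ^ l := by ring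
            _ ≤ _ := Nat.mul_le_mul_right _ j2)
      (by
        have hlo := ll_low (ν := ν) hkk
        rw [← hl] at hlo
        push_cast
        rw [← Real.rpow_natCast 2 l]
        apply Real.rpow_le_rpow_of_exponent_le (by norm_num)
        have hkK : (K6:ℝ) ≤ k := by exact_mod_cast (by omega : K6 ≤ k)
        have h1 : 2000 / (19 * c) ≤ (k:ℝ) := le_trans hK6 hkK
        rw [div_le_iff₀ (by positivity)] at h1
        nlinarith)
      (by
        have hup := ll_up hν1 hkk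
        rw [← hl] at hup
        push_cast
        rw [← Real.rpow_natCast 2 l]
        apply Real.rpow_le_rpow_of_exponent_le (by norm_num)
        nlinarith)
    exact bad_card hc hc' hν hν' hc1 h01 hkk hk1pos hj hS1 (hS2 k j hj) hbad hSN'
      (le_trans (hdec k (by omega)) (min_le_left _ _))
  · -- cl
    intro k j hk hj
    have h1 := hS2 k j hj
    have hs : (blk (ll ν k₁ k) j).filter (fun n => (∃ N ∈ SP c ν k₀ k₁,
        qq c ν k₀ k₁ N ∣ n ∧ 2 ^ ll ν k₁ k ≤ qq c ν k₀ k₁ N) ∧ ¬ Res ν (SP c ν k₀ k₁) k n) ⊆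
        (blk (ll ν k₁ k) j).filter (fun n => Z2 c ν k₁ k n) := by
      intro n hn
      rw [Finset.mem_filter] at hn ⊢
      obtain ⟨hnb, ⟨N, hN, hd, hle⟩, hres⟩ := hn
      refine ⟨hnb, N, qq c ν k₀ k₁ N, (qq_spec hN).1, hd, hle, ?_⟩
      intro hcon
      exact hres ⟨N, hN, hcon.1, hcon.2⟩
    have h2 := Finset.card_le_card hs
    have h3 : (((blk (ll ν k₁ k) j).filter (fun n => (∃ N ∈ SP c ν k₀ k₁,
        qq c ν k₀ k₁ N ∣ n ∧ 2 ^ ll ν k₁ k ≤ qq c ν k₀ k₁ N) ∧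
        ¬ Res ν (SP c ν k₀ k₁) k n)).card : ℝ) ≤
        (((blk (ll ν k₁ k) j).filter (fun n => Z2 c ν k₁ k n)).card : ℝ) := by exact_mod_cast h2
    refine le_trans h3 (le_trans h1 ?_)
    apply mul_le_mul_of_nonneg_left _ (by positivity)
    apply Real.rpow_le_rpow_of_exponent_le (by norm_num)
    have : (0:ℝ) ≤ ν * k := by positivity
    nlinarith
  · -- sparse
    intro i
    have hs : (Ico (2 ^ i) (2 ^ (i + 1))).filter (fun p => p ∈ qq c ν k₀ k₁ '' SP c ν k₀ k₁) ⊆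
        (Ico (2 ^ i) (2 ^ (i + 1))).filter (fun p => ∃ N, Src c ν k₁ N p) := by
      intro p hp
      rw [Finset.mem_filter] at hp ⊢
      obtain ⟨hp1, N, hN, rfl⟩ := hp
      exact ⟨hp1, N, (qq_spec hN).1⟩
    have h2 := Finset.card_le_card hs
    refine le_trans ?_ (hS1 i).1
    exact_mod_cast h2


end SY3

end Pool.Agent.W164.MO.Q
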